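import Pool.Agent.T3h43.SL.Stm
import Pool.Agent.W186.LH.Sab

/-!
# Project SL: three circles with few zeros, the lower bound only at the centre
-/

set_option autoImplicit false

open Complex Filter Topology Metric Set
open scoped ComplexConjugate

namespace Pool.Agent.T3h43.SL

open Pool.Agent.W169.HF (Cnt)
open Pool.Agent.W186.LH

/-- zero-free version on a ball (`sabB` with the lower bound only at the centre) -/
theorem dmB (η0 η K0 : ℝ) (hη0 : 0 < η0) (hη04 : η0 ≤ 1 / 4) (hη : 0 < η) (hK0 : 0 < K0) :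
    ∃ ε : ℝ, 0 < ε ∧ ε ≤ 1 ∧ ∀ (L : ℝ) (g : ℂ → ℂ), 0 < L →
      DifferentiableOn ℂ g (ball 5 (5 - η0 / 4)) → (∀ z ∈ ball (5 : ℂ) (5 - η0 / 4), g z ≠ 0) →
      (∀ z ∈ ball (5 : ℂ) (5 - η0 / 4), ‖g z‖ ≤ Real.exp (K0 * L)) →
      Real.exp (-(ε * L)) ≤ ‖g 5‖ →
      (∀ z ∈ ball (5 : ℂ) (16 / 5), ‖g z‖ ≤ Real.exp (ε * L)) →
      ∀ z ∈ closedBall (5 : ℂ) (5 - η0), ‖g z‖ ≤ Real.exp (η * L) := by
  obtain ⟨θ, hθ0, hθ1, h3c⟩ := Pool.Agent.H296R2.LE.three_circles (r := 3) (ρ := 5 - η0)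
    (R := 5 - η0 / 2) (by norm_num) (by linarith) (by linarith)
  obtain ⟨B, hB⟩ : ∃ B : ℝ, B = 80 * (K0 + 1) / η0 := ⟨_, rfl⟩
  have hB160 : 60 ≤ B := by
    rw [hB, le_div_iff₀ hη0]; nlinarith
  have hB0 : 0 < B := by linarith
  obtain ⟨ε1, hε10, hε11, hεδ1⟩ := bnd_small B θ (η / 2) hB0 hθ1 (by linarith)
  obtain ⟨ε, hε⟩ : ∃ ε : ℝ, ε = min ε1 (η / 2) := ⟨_, rfl⟩
  have hε0 : 0 < ε := by rw [hε]; exact lt_min hε10 (by linarith)
  have e1 : ε ≤ ε1 := by rw [hε]; exact min_le_left _ _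
  have hεη : ε ≤ η / 2 := by rw [hε]; exact min_le_right _ _
  have hε1 : ε ≤ 1 := e1.trans hε11
  have hεδ : (60 * ε) ^ (1 - θ) * B ^ θ ≤ η / 2 := by
    refine le_trans ?_ hεδ1
    have : (60 * ε) ^ (1 - θ) ≤ (60 * ε1) ^ (1 - θ) :=
      Real.rpow_le_rpow (by positivity) (by linarith) (by linarith)
    exact mul_le_mul_of_nonneg_right this (by positivity)
  refine ⟨ε, hε0, hε1, ?_⟩
  intro L g hL hgd hgn H1 Hc H2 u hu
  obtain ⟨f, hfc, hfd, hfe⟩ := Pool.Agent.H296R2.LE.exists_log (by linarith : 0 < 5 - η0 / 4) hgd hgn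
  have hc5 : (5 : ℂ) ∈ ball (5 : ℂ) (16 / 5) := mem_ball_self (by norm_num)
  have hgc0 : 0 < ‖g 5‖ := lt_of_lt_of_le (Real.exp_pos _) Hc
  have hnorm : ∀ z ∈ ball (5 : ℂ) (5 - η0 / 4), ‖g z‖ = ‖g 5‖ * Real.exp (f z).re := by
    intro z hz
    rw [hfe z hz, norm_mul, Complex.norm_exp]
  have hup : ∀ z ∈ ball (5 : ℂ) (5 - η0 / 4), ∀ A : ℝ, ‖g z‖ ≤ Real.exp (A * L) → (f z).re ≤ (A + ε) * L := by
    intro z hz A hA
    rw [hnorm z hz] at hA
    have h1 : Real.exp (-(ε * L)) * Real.exp (f z).re ≤ Real.exp (A * L) :=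
      (mul_le_mul_of_nonneg_right Hc (Real.exp_pos _).le).trans hA
    rw [← Real.exp_add, Real.exp_le_exp] at h1
    linarith
  have hfdo : DifferentiableOn ℂ f (ball (5 : ℂ) (5 - η0 / 4)) := fun z hz =>
    (hfd z hz).differentiableAt.differentiableWithinAt
  have hbig : ∀ z ∈ ball (5 : ℂ) (5 - η0 / 2), ‖f z‖ ≤ B * L := by
    intro z hz
    have hM : 0 < (K0 + 1) * L := by positivity
    have h1 := Pool.Agent.H986R2.K4.SABAux.bc (f := f) (c := 5) (r := 5 - η0 / 2) (R := 5 - η0 / 4) hM hfdo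
      (fun w hw => by
        have := hup w hw K0 (H1 w hw)
        refine this.trans (mul_le_mul_of_nonneg_right (by linarith) hL.le)) hfc (by linarith)
      (by linarith) (ball_subset_closedBall hz)
    refine h1.trans ?_
    have e : 5 - η0 / 4 - (5 - η0 / 2) = η0 / 4 := by ring
    rw [e, hB, div_le_iff₀ (by positivity)]
    have e2 : 80 * (K0 + 1) / η0 * L * (η0 / 4) = 20 * ((K0 + 1) * L) := by
      field_simp
      ring
    rw [e2]
    nlinarith
  have hsmall : ∀ z ∈ closedBall (5 : ℂ) 3, ‖f z‖ ≤ 60 * ε * L := by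
    intro z hz
    have hM : 0 < 2 * ε * L := by positivity
    have hsub : ball (5 : ℂ) (16 / 5) ⊆ ball (5 : ℂ) (5 - η0 / 4) := ball_subset_ball (by linarith)
    have h1 := Pool.Agent.H986R2.K4.SABAux.bc (f := f) (c := 5) (r := 3) (R := 16 / 5) hM
      (hfdo.mono hsub) (fun w hw => by
      have := hup w (hsub hw) ε (H2 w hw)
      refine this.trans (le_of_eq ?_)
      ring) hfc (by norm_num) (by norm_num) hz
    refine h1.trans (le_of_eq ?_)
    ring
  have hfu : ‖f u‖ ≤ η / 2 * L := by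
    have h1 := h3c f 5 (60 * ε * L) (B * L) (by positivity)
      (mul_le_mul_of_nonneg_right (by linarith) hL.le)
      (hfdo.mono (ball_subset_ball (by linarith))) hsmall hbig u hu
    refine h1.trans ?_
    rw [Real.mul_rpow (by positivity) hL.le, Real.mul_rpow hB0.le hL.le]
    have h2 : L ^ (1 - θ) * L ^ θ = L := by
      rw [← Real.rpow_add hL]; simp
    calc (60 * ε) ^ (1 - θ) * L ^ (1 - θ) * (B ^ θ * L ^ θ)
        = ((60 * ε) ^ (1 - θ) * B ^ θ) * (L ^ (1 - θ) * L ^ θ) := by ring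
      _ ≤ η / 2 * L := by rw [h2]; exact mul_le_mul_of_nonneg_right hεδ hL.le
  have hfre : (f u).re ≤ η / 2 * L := (Complex.re_le_norm _).trans hfu
  have hu5 : u ∈ ball (5 : ℂ) (5 - η0 / 4) := by
    rw [mem_closedBall] at hu; rw [mem_ball]; linarith
  rw [hnorm u hu5]
  have hgc2 := H2 5 hc5
  calc ‖g 5‖ * Real.exp (f u).re ≤ Real.exp (ε * L) * Real.exp (f u).re :=
        mul_le_mul_of_nonneg_right hgc2 (Real.exp_pos _).le
    _ = Real.exp (ε * L + (f u).re) := (Real.exp_add _ _).symm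
    _ ≤ Real.exp (η * L) := by
        rw [Real.exp_le_exp]
        have : ε * L ≤ η / 2 * L := mul_le_mul_of_nonneg_right hεη hL.le
        linarith

/-- few zeros, normal form -/
theorem dmZ (η0 η K0 : ℝ) (hη0 : 0 < η0) (hη04 : η0 ≤ 1 / 4) (hη : 0 < η) (hK0 : 0 < K0) :
    ∃ ε : ℝ, 0 < ε ∧ ∀ (L : ℝ) (F : ℂ → ℂ), 0 < L → Differentiable ℂ F →
      (∀ z ∈ closedBall (5 : ℂ) 5, ‖F z‖ ≤ Real.exp (K0 * L)) →
      (∀ z ∈ closedBall (5 : ℂ) (7 / 2), ‖F z‖ ≤ Real.exp (ε * L)) →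
      Real.exp (-(ε * L)) ≤ ‖F 5‖ →
      Cnt F (closedBall (5 : ℂ) (5 - η0 / 4)) (ε * L) →
      ∀ z ∈ closedBall (5 : ℂ) (5 - η0), ‖F z‖ ≤ Real.exp (η * L) := by
  obtain ⟨ε1, hε10, hε11, hB⟩ := dmB η0 (η / 2) (K0 + 1) hη0 hη04 (by linarith) (by linarith)
  obtain ⟨q, hq⟩ : ∃ q : ℝ, q = Real.log (8 / η0) := ⟨_, rfl⟩
  have hq0 : 0 < q := by
    rw [hq]; apply Real.log_pos
    rw [lt_div_iff₀ hη0]; linarith
  have hq1 : Real.exp q = 8 / η0 := by rw [hq, Real.exp_log (by positivity)]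
  obtain ⟨ε, hε⟩ : ∃ ε : ℝ, ε = min (ε1 / 5) (min (1 / q) (η / 6)) := ⟨_, rfl⟩
  have hε0 : 0 < ε := by rw [hε]; exact lt_min (by linarith) (lt_min (by positivity) (by linarith))
  have e1 : ε ≤ ε1 / 5 := by rw [hε]; exact min_le_left _ _
  have e2 : ε ≤ 1 / q := by rw [hε]; exact (min_le_right _ _).trans (min_le_left _ _)
  have e3 : ε ≤ η / 6 := by rw [hε]; exact (min_le_right _ _).trans (min_le_right _ _)
  have e2' : ε * q ≤ 1 := by rwa [le_div_iff₀ hq0] at e2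
  refine ⟨ε, hε0, ?_⟩
  intro L F hL hF H1 H2 Hc H3 u hu
  classical
  have hF5 : F 5 ≠ 0 := by
    rw [← norm_pos_iff]
    exact lt_of_lt_of_le (Real.exp_pos _) Hc
  have hfin := zfin hF ⟨5, hF5⟩ (isCompact_closedBall (5 : ℂ) (5 - η0 / 4))
  obtain ⟨Z, hZ⟩ : ∃ Z : Finset ℂ, Z = hfin.toFinset := ⟨_, rfl⟩
  have hZm : ∀ z, z ∈ Z ↔ z ∈ closedBall (5 : ℂ) (5 - η0 / 4) ∧ F z = 0 := by
    intro z; rw [hZ, Set.Finite.mem_toFinset]; rfl
  obtain ⟨G, hG, hGZ, hFG⟩ := fac Z hF ⟨5, hF5⟩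
  obtain ⟨N, hN⟩ : ∃ N : ℕ, N = ∑ z ∈ Z, analyticOrderNatAt F z := ⟨_, rfl⟩
  have hNL : (N : ℝ) ≤ ε * L := by
    have := H3 Z (fun z hz => ⟨((hZm z).1 hz).2, ((hZm z).1 hz).1⟩)
    rw [hN]; push_cast; exact this
  -- products
  have hlow : ∀ (w : ℂ) (a : ℝ), 0 ≤ a → (∀ z ∈ Z, a ≤ ‖w - z‖) →
      a ^ N ≤ ‖∏ z ∈ Z, (w - z) ^ (analyticOrderNatAt F z)‖ := by
    intro w a ha hw
    rw [norm_prod, hN, ← Finset.prod_pow_eq_pow_sum]
    refine Finset.prod_le_prod (fun z _ => by positivity) fun z hz => ?_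
    rw [norm_pow]
    exact pow_le_pow_left₀ ha (hw z hz) _
  have hupp : ∀ (w : ℂ) (a : ℝ), (∀ z ∈ Z, ‖w - z‖ ≤ a) →
      ‖∏ z ∈ Z, (w - z) ^ (analyticOrderNatAt F z)‖ ≤ a ^ N := by
    intro w a hw
    rw [norm_prod, hN, ← Finset.prod_pow_eq_pow_sum]
    refine Finset.prod_le_prod (fun z _ => norm_nonneg _) fun z hz => ?_
    rw [norm_pow]
    exact pow_le_pow_left₀ (norm_nonneg _) (hw z hz) _
  have h10 : ∀ w ∈ closedBall (5 : ℂ) 5, ∀ z ∈ Z, ‖w - z‖ ≤ 10 := by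
    intro w hw z hz
    have h1 := ((hZm z).1 hz).1
    rw [mem_closedBall] at h1 hw
    have := dist_triangle_right w z 5
    rw [← dist_eq_norm]
    linarith
  have e10 : (10 : ℝ) ^ N ≤ Real.exp (3 * ε * L) := by
    have a1 : (10 : ℝ) ≤ Real.exp 3 := by
      have h8 : Real.exp 3 = Real.exp 1 ^ 3 := by rw [← Real.exp_nat_mul]; norm_num
      rw [h8]
      have h9 := Real.exp_one_gt_d9
      calc (10 : ℝ) ≤ (2.7182818283 : ℝ) ^ 3 := by norm_num
        _ ≤ Real.exp 1 ^ 3 := by gcongr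
    calc (10 : ℝ) ^ N ≤ (Real.exp 3) ^ N := by gcongr
      _ = Real.exp (N * 3) := by rw [← Real.exp_nat_mul]
      _ ≤ _ := by apply Real.exp_le_exp.2; linarith
  -- G on the big ball
  have hGbig : ∀ w ∈ closedBall (5 : ℂ) (5 - η0 / 8), ‖G w‖ ≤ Real.exp ((K0 + 1) * L) := by
    intro w hw
    refine Complex.norm_le_of_forall_mem_frontier_norm_le (U := ball (5 : ℂ) (5 - η0 / 8)) isBounded_ball
      hG.diffContOnCl ?_ (by rw [closure_ball _ (by linarith)]; exact hw)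
    intro z hz
    rw [frontier_ball _ (by linarith), mem_sphere] at hz
    have hd : ∀ y ∈ Z, η0 / 8 ≤ ‖z - y‖ := by
      intro y hy
      have h1 := ((hZm y).1 hy).1
      rw [mem_closedBall] at h1
      have := dist_triangle z y 5
      rw [← dist_eq_norm]
      linarith
    have hp := hlow z (η0 / 8) (by positivity) hd
    have hz5 : z ∈ closedBall (5 : ℂ) 5 := by rw [mem_closedBall]; linarith
    have hFz := H1 z hz5
    rw [hFG z, norm_mul] at hFz
    have h8 : (η0 / 8) ^ N * ‖G z‖ ≤ Real.exp (K0 * L) :=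
      (mul_le_mul_of_nonneg_right hp (norm_nonneg _)).trans hFz
    have h9 : (η0 / 8) ^ N = Real.exp (-(N * q)) := by
      rw [Real.exp_neg, Real.exp_nat_mul, hq1, ← inv_pow]
      congr 1
      field_simp
    rw [h9] at h8
    calc ‖G z‖ = Real.exp (N * q) * (Real.exp (-(N * q)) * ‖G z‖) := by
          rw [← mul_assoc, ← Real.exp_add, add_neg_cancel, Real.exp_zero, one_mul]
      _ ≤ Real.exp (N * q) * Real.exp (K0 * L) := mul_le_mul_of_nonneg_left h8 (Real.exp_pos _).le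
      _ = Real.exp (N * q + K0 * L) := (Real.exp_add _ _).symm
      _ ≤ _ := by
          apply Real.exp_le_exp.2
          have : (N : ℝ) * q ≤ ε * L * q := mul_le_mul_of_nonneg_right hNL hq0.le
          have h5 : ε * q * L ≤ 1 * L := mul_le_mul_of_nonneg_right e2' hL.le
          linarith
  have hGn : ∀ z ∈ ball (5 : ℂ) (5 - η0 / 4), G z ≠ 0 := by
    intro z hz h0
    have hzF : F z = 0 := by rw [hFG z, h0, mul_zero]
    exact hGZ z ((hZm z).2 ⟨ball_subset_closedBall hz, hzF⟩) h0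
  have hGc : Real.exp (-(ε1 * L)) ≤ ‖G 5‖ := by
    have hp' := hupp 5 10 (h10 5 (by rw [mem_closedBall, dist_self]; norm_num))
    have b1 := Hc
    rw [hFG 5, norm_mul] at b1
    have h3 : Real.exp (-(ε * L)) ≤ Real.exp (3 * ε * L) * ‖G 5‖ :=
      b1.trans (mul_le_mul_of_nonneg_right (hp'.trans e10) (norm_nonneg _))
    calc Real.exp (-(ε1 * L)) ≤ Real.exp (-(3 * ε * L)) * Real.exp (-(ε * L)) := by
          rw [← Real.exp_add]
          apply Real.exp_le_exp.2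
          have : ε * L ≤ ε1 / 5 * L := mul_le_mul_of_nonneg_right e1 hL.le
          have h6 : 0 < ε * L := by positivity
          linarith
      _ ≤ Real.exp (-(3 * ε * L)) * (Real.exp (3 * ε * L) * ‖G 5‖) :=
          mul_le_mul_of_nonneg_left h3 (Real.exp_pos _).le
      _ = ‖G 5‖ := by rw [← mul_assoc, ← Real.exp_add, neg_add_cancel, Real.exp_zero, one_mul]
  -- Blaschke factors for the zeros in the ball of radius 7/2
  obtain ⟨n, hn⟩ : ∃ n : ℂ → ℕ, n = fun z => analyticOrderNatAt F z := ⟨_, rfl⟩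
  obtain ⟨b, hb⟩ : ∃ b : ℂ → ℂ → ℂ, b = fun z w => if z ∈ closedBall (5 : ℂ) (7 / 2) then
    (((7 / 2 : ℝ) : ℂ) ^ 2 - conj (z - 5) * (w - 5)) / ((7 / 2 : ℝ) : ℂ) else w - z := ⟨_, rfl⟩
  have hbd : ∀ z, Differentiable ℂ (b z) := by
    intro z
    rw [hb]
    by_cases h : z ∈ closedBall (5 : ℂ) (7 / 2)
    · simp only [h, if_true]
      fun_prop
    · simp only [h, if_false]
      fun_prop
  have hbs : ∀ z w, w ∈ sphere (5 : ℂ) (7 / 2) → ‖b z w‖ = ‖w - z‖ := by
    intro z w hw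
    rw [mem_sphere, dist_eq_norm] at hw
    rw [hb]
    by_cases h : z ∈ closedBall (5 : ℂ) (7 / 2)
    · simp only [h, if_true]
      rw [norm_div, blaschke_id hw, Complex.norm_real, Real.norm_of_nonneg (by norm_num)]
      have e : w - 5 - (z - 5) = w - z := by ring
      rw [e]
      field_simp
    · simp only [h, if_false]
  have hbl : ∀ z w, w ∈ ball (5 : ℂ) (16 / 5) → 3 / 10 ≤ ‖b z w‖ := by
    intro z w hw
    rw [mem_ball, dist_eq_norm] at hw
    rw [hb]
    by_cases h : z ∈ closedBall (5 : ℂ) (7 / 2)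
    · simp only [h, if_true]
      rw [mem_closedBall, dist_eq_norm] at h
      rw [norm_div, Complex.norm_real, Real.norm_of_nonneg (by norm_num : (0 : ℝ) ≤ 7 / 2),
        le_div_iff₀ (by norm_num)]
      have h1 : ‖(((7 / 2 : ℝ) : ℂ) ^ 2)‖ - ‖conj (z - 5) * (w - 5)‖ ≤
          ‖((7 / 2 : ℝ) : ℂ) ^ 2 - conj (z - 5) * (w - 5)‖ := norm_sub_norm_le _ _
      have h2 : ‖(((7 / 2 : ℝ) : ℂ) ^ 2)‖ = 49 / 4 := by
        rw [norm_pow, Complex.norm_real, Real.norm_of_nonneg (by norm_num)]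
        norm_num
      have h3 : ‖conj (z - 5) * (w - 5)‖ ≤ 7 / 2 * (16 / 5) := by
        rw [norm_mul, Complex.norm_conj]
        exact mul_le_mul h hw.le (norm_nonneg _) (by norm_num)
      linarith
    · simp only [h, if_false]
      rw [mem_closedBall, dist_eq_norm] at h
      push Not at h
      have h1 : ‖z - 5‖ ≤ ‖w - z‖ + ‖w - 5‖ := by
        have e : z - 5 = -(w - z) + (w - 5) := by ring
        rw [e]
        refine (norm_add_le _ _).trans ?_
        rw [norm_neg]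
      linarith
  obtain ⟨K, hK⟩ : ∃ K : ℂ → ℂ, K = fun w => (∏ z ∈ Z, b z w ^ n z) * G w := ⟨_, rfl⟩
  have hKd : Differentiable ℂ K := by
    rw [hK]
    refine Differentiable.mul ?_ hG
    exact Differentiable.fun_finsetProd fun z _ => (hbd z).pow _
  have hKs : ∀ w ∈ sphere (5 : ℂ) (7 / 2), ‖K w‖ = ‖F w‖ := by
    intro w hw
    rw [hK, hFG w]
    simp only [norm_mul, norm_prod, norm_pow]
    congr 1
    refine Finset.prod_congr rfl fun z _ => ?_
    rw [hbs z w hw, hn]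
  have hKle : ∀ w ∈ ball (5 : ℂ) (7 / 2), ‖K w‖ ≤ Real.exp (ε * L) := by
    intro w hw
    refine Complex.norm_le_of_forall_mem_frontier_norm_le (U := ball (5 : ℂ) (7 / 2)) isBounded_ball
      hKd.diffContOnCl ?_ (subset_closure hw)
    intro z hz
    rw [frontier_ball _ (by norm_num)] at hz
    rw [hKs z hz]
    exact H2 z (sphere_subset_closedBall hz)
  have hGs : ∀ z ∈ ball (5 : ℂ) (16 / 5), ‖G z‖ ≤ Real.exp (ε1 * L) := by
    intro z hz
    have hz' : z ∈ ball (5 : ℂ) (7 / 2) := ball_subset_ball (by norm_num) hz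
    have b2 := hKle z hz'
    rw [hK] at b2
    simp only [norm_mul, norm_prod, norm_pow] at b2
    have hp : (3 / 10 : ℝ) ^ N ≤ ∏ y ∈ Z, ‖b y z‖ ^ n y := by
      rw [hN, ← Finset.prod_pow_eq_pow_sum]
      refine Finset.prod_le_prod (fun y _ => by positivity) fun y _ => ?_
      rw [hn]
      exact pow_le_pow_left₀ (by norm_num) (hbl y z hz) _
    have e310 : Real.exp (-(3 * ε * L)) ≤ (3 / 10 : ℝ) ^ N := by
      have a1 : (10 : ℝ) ^ N * (3 / 10) ^ N = 3 ^ N := by rw [← mul_pow]; norm_num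
      have a2 : (1 : ℝ) ≤ 3 ^ N := one_le_pow₀ (by norm_num)
      rw [Real.exp_neg, inv_le_comm₀ (Real.exp_pos _) (by positivity)]
      refine le_trans ?_ e10
      rw [inv_le_comm₀ (by positivity) (by positivity), ← inv_pow]
      apply pow_le_pow_left₀ (by norm_num)
      norm_num
    have h3 : Real.exp (-(3 * ε * L)) * ‖G z‖ ≤ Real.exp (ε * L) :=
      (mul_le_mul_of_nonneg_right (e310.trans hp) (norm_nonneg _)).trans b2
    calc ‖G z‖ = Real.exp (3 * ε * L) * (Real.exp (-(3 * ε * L)) * ‖G z‖) := by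
          rw [← mul_assoc, ← Real.exp_add, add_neg_cancel, Real.exp_zero, one_mul]
      _ ≤ Real.exp (3 * ε * L) * Real.exp (ε * L) := mul_le_mul_of_nonneg_left h3 (Real.exp_pos _).le
      _ = Real.exp (3 * ε * L + ε * L) := (Real.exp_add _ _).symm
      _ ≤ _ := by
          apply Real.exp_le_exp.2
          have : ε * L ≤ ε1 / 5 * L := mul_le_mul_of_nonneg_right e1 hL.le
          have h6 : 0 < ε * L := by positivity
          linarith
  have hGu := hB L G hL hG.differentiableOn hGn (fun z hz => hGbig z (by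
    rw [mem_ball] at hz; rw [mem_closedBall]; linarith)) hGc hGs u hu
  rw [hFG u, norm_mul]
  rw [mem_closedBall] at hu
  have hp' := hupp u 10 (h10 u (by rw [mem_closedBall]; linarith))
  calc ‖∏ z ∈ Z, (u - z) ^ (analyticOrderNatAt F z)‖ * ‖G u‖
      ≤ Real.exp (3 * ε * L) * Real.exp (η / 2 * L) :=
        mul_le_mul (hp'.trans e10) hGu (norm_nonneg _) (Real.exp_pos _).le
    _ = Real.exp (3 * ε * L + η / 2 * L) := (Real.exp_add _ _).symm
    _ ≤ _ := by
        apply Real.exp_le_exp.2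
        have : ε * L ≤ η / 6 * L := mul_le_mul_of_nonneg_right e3 hL.le
        linarith

/-- orders after an affine map -/
lemma ord_aff {G : ℂ → ℂ} (hG : Differentiable ℂ G) (hne : ∃ u, G u ≠ 0) {a b : ℂ} (ha : a ≠ 0) (u0 : ℂ) :
    analyticOrderNatAt (fun u => G (a * u + b)) u0 = analyticOrderNatAt G (a * u0 + b) := by
  obtain ⟨h, hh, hh0, hGh⟩ := single hG hne (a * u0 + b)
  obtain ⟨n, hn⟩ : ∃ n : ℕ, n = analyticOrderNatAt G (a * u0 + b) := ⟨_, rfl⟩
  rw [← hn] at hGh ⊢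
  have hc : Differentiable ℂ fun u : ℂ => a * u + b := by fun_prop
  refine ord_of (h := fun u => a ^ n * h (a * u + b)) ?_ ?_ ?_ fun u => ?_
  · exact hG.comp hc
  · exact (hh.comp hc).const_mul (a ^ n)
  · exact mul_ne_zero (pow_ne_zero _ ha) hh0
  · rw [hGh]
    have : a * u + b - (a * u0 + b) = a * (u - u0) := by ring
    rw [this, mul_pow]
    ring

theorem t_DM : S_DM := by
  intro η0 η K0 hη0 hη1 hη hK0
  obtain ⟨ε, hε, H⟩ := dmZ (5 * η0) η K0 (by positivity) (by linarith) hη hK0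
  refine ⟨ε, hε, ?_⟩
  intro L r c F hL hr hF H1 H2 Hc H3 z hz
  classical
  obtain ⟨a, ha⟩ : ∃ a : ℂ, a = ((r / 5 : ℝ) : ℂ) := ⟨_, rfl⟩
  have ha0 : a ≠ 0 := by
    rw [ha, Complex.ofReal_ne_zero]
    positivity
  have han : ‖a‖ = r / 5 := by rw [ha, Complex.norm_real, Real.norm_of_nonneg (by positivity)]
  obtain ⟨b, hb⟩ : ∃ b : ℂ, b = c - a * 5 := ⟨_, rfl⟩
  have hab : ∀ w : ℂ, a * w + b - c = a * (w - 5) := fun w => by rw [hb]; ring
  have hin : ∀ (w : ℂ) (s : ℝ), w ∈ closedBall (5 : ℂ) s → a * w + b ∈ closedBall c (s / 5 * r) := by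
    intro w s hw
    rw [mem_closedBall, dist_eq_norm] at hw ⊢
    rw [hab, norm_mul, han]
    have := mul_le_mul_of_nonneg_left hw (by positivity : (0 : ℝ) ≤ r / 5)
    linarith
  have h5 : a * 5 + b = c := by rw [hb]; ring
  have hFne : ∃ u, F u ≠ 0 := ⟨c, by
    rw [← norm_pos_iff]
    exact lt_of_lt_of_le (Real.exp_pos _) Hc⟩
  have key := H L (fun w => F (a * w + b)) hL (hF.comp (by fun_prop))
    (fun w hw => H1 _ (by
      have := hin w 5 hw
      rwa [show (5 : ℝ) / 5 * r = r by ring] at this))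
    (fun w hw => H2 _ (by
      have := hin w (7 / 2) hw
      rwa [show (7 / 2 : ℝ) / 5 * r = 7 / 10 * r by ring] at this))
    (by simp only [h5]; exact Hc)
    (by
      intro S hS
      have hinj : Set.InjOn (fun w : ℂ => a * w + b) (S : Set ℂ) := by
        intro x _ y _ hxy
        have h6 : a * x + b = a * y + b := hxy
        exact mul_left_cancel₀ ha0 (add_right_cancel h6)
      have h8 := H3 (S.image fun w : ℂ => a * w + b) (by
        intro w hw
        rw [Finset.mem_image] at hw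
        obtain ⟨y, hy, rfl⟩ := hw
        obtain ⟨h9, h10⟩ := hS y hy
        refine ⟨h9, ?_⟩
        have := hin y _ h10
        rwa [show (5 - 5 * η0 / 4) / 5 * r = (1 - η0 / 4) * r by ring] at this)
      rw [Finset.sum_image hinj] at h8
      refine le_trans (le_of_eq (Finset.sum_congr rfl fun w _ => ?_)) h8
      rw [ord_aff hF hFne ha0])
    ((z - b) / a) (by
      rw [mem_closedBall, dist_eq_norm] at hz ⊢
      have e : (z - b) / a - 5 = (z - c) / a := by
        rw [hb]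
        field_simp
        ring
      rw [e, norm_div, han, div_le_iff₀ (by positivity)]
      linarith)
  have e : a * ((z - b) / a) + b = z := by
    field_simp
    ring
  simp only [e] at key
  exact key

end Pool.Agent.T3h43.SL
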