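import Pool.Agent.T3h43.SL.GINV

/-!
# Project SL: the gamma factor away from its poles (task GUP)
-/

set_option autoImplicit false

open Complex Set

namespace Pool.Agent.T3h43.SL

open Pool.Agent.W169.HF H353.E H353.F

variable {m : ℕ} {N : ℝ} {μ : Fin m → ℂ}

/-- lower bound for the product of the linear factors, if they are at least `ρ` -/
lemma le_fac' (hN : 1 ≤ N) (y : ℝ) {ρ : ℝ} (hρ : 0 < ρ) (hρ1 : ρ ≤ 1) {u : ℂ}
    (hu : ∀ j, ρ ≤ ‖1 / 2 + (y : ℂ) * I + u - μ j‖) : cnd N μ y ≤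
      N * (∏ j, (‖1 / 2 + (y : ℂ) * I + u - μ j‖ / (2 * Real.pi))) *
        Real.exp (m * (25 / ρ * (1 + ‖u‖ ^ 2))) := by
  have hN0 : 0 < N := by linarith
  have hpi := Real.pi_gt_three
  have hpi' : Real.pi < 3.15 := Real.pi_lt_d2
  have hu0 := norm_nonneg u
  have h1 : ∀ j, 1 + ‖(y : ℂ) * I - μ j‖ ≤ (‖1 / 2 + (y : ℂ) * I + u - μ j‖ / (2 * Real.pi)) *
      Real.exp (25 / ρ * (1 + ‖u‖ ^ 2)) := fun j => by
    have h2 : ‖(y : ℂ) * I - μ j‖ ≤ ‖1 / 2 + (y : ℂ) * I + u - μ j‖ + (1 / 2 + ‖u‖) := by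
      have e : (y : ℂ) * I - μ j = (1 / 2 + (y : ℂ) * I + u - μ j) - (1 / 2 + u) := by ring
      rw [e]
      refine (norm_sub_le _ _).trans ?_
      have := norm_add_le (1 / 2 : ℂ) u
      have e2 : ‖(1 / 2 : ℂ)‖ = 1 / 2 := by simp
      linarith
    have h3 := hu j
    obtain ⟨w, hw⟩ : ∃ w : ℝ, w = ‖1 / 2 + (y : ℂ) * I + u - μ j‖ := ⟨_, rfl⟩
    rw [← hw] at h2 h3 ⊢
    have hw0 : 0 < w := by linarith
    have h5 : 25 / ρ * (1 + ‖u‖ ^ 2) ≤ Real.exp (25 / ρ * (1 + ‖u‖ ^ 2)) := by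
      linarith [Real.add_one_le_exp (25 / ρ * (1 + ‖u‖ ^ 2))]
    have h6 : 1 + ‖(y : ℂ) * I - μ j‖ ≤ w + (3 / 2 + ‖u‖) := by linarith
    have h7 : w + (3 / 2 + ‖u‖) ≤ w / ρ * (5 / 2 + ‖u‖) := by
      rw [div_mul_eq_mul_div, le_div_iff₀ hρ]
      nlinarith [mul_nonneg (sub_nonneg.2 h3) hu0, mul_nonneg hw0.le hu0]
    have h8 : w / ρ * (5 / 2 + ‖u‖) ≤ w / (2 * Real.pi) * (25 / ρ * (1 + ‖u‖ ^ 2)) := by
      rw [div_mul_eq_mul_div, div_mul_eq_mul_div, div_le_div_iff₀ hρ (by positivity)]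
      have h9 : (5 / 2 + ‖u‖) * (2 * Real.pi) ≤ 25 * (1 + ‖u‖ ^ 2) := by nlinarith [sq_nonneg (‖u‖ - 1)]
      have e9 : w * (25 / ρ * (1 + ‖u‖ ^ 2)) * ρ = w * (25 * (1 + ‖u‖ ^ 2)) := by field_simp
      rw [e9]
      have := mul_le_mul_of_nonneg_left h9 hw0.le
      linarith
    calc _ ≤ _ := h6
      _ ≤ _ := h7
      _ ≤ _ := h8
      _ ≤ _ := mul_le_mul_of_nonneg_left h5 (by positivity)
  have h7 : ∏ j, (1 + ‖(y : ℂ) * I - μ j‖) ≤ ∏ j, ((‖1 / 2 + (y : ℂ) * I + u - μ j‖ / (2 * Real.pi)) *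
      Real.exp (25 / ρ * (1 + ‖u‖ ^ 2))) :=
    Finset.prod_le_prod (fun j _ => by positivity) fun j _ => h1 j
  rw [Finset.prod_mul_distrib, Finset.prod_const, Finset.card_univ, Fintype.card_fin,
    ← Real.exp_nat_mul] at h7
  unfold cnd
  calc N * ∏ j, (1 + ‖(y : ℂ) * I - μ j‖) ≤ N * ((∏ j, (‖1 / 2 + (y : ℂ) * I + u - μ j‖ / (2 * Real.pi))) *
      Real.exp (m * (25 / ρ * (1 + ‖u‖ ^ 2)))) := mul_le_mul_of_nonneg_left h7 hN0.le
    _ = _ := by ring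

lemma Good.add_two {p : Fin m → ℝ} {d x : ℝ} (h : Good p d x) : Good p d (x + 2) := by
  intro j n
  have := h j (n + 1)
  push_cast at this
  rwa [show x + 2 - (p j - 2 * (n : ℝ)) = x - (p j - 2 * ((n : ℝ) + 1)) by ring]

/-- the gamma factor to the right of the line `Re u = d - 2 K`, away from the poles -/
lemma gup_aux (hm : 1 ≤ m) {d : ℝ} (hd : 0 < d) (hd1 : d ≤ 1) (K : ℕ) : ∃ B : ℝ, 0 ≤ B ∧
    ∀ (N : ℝ) (μ : Fin m → ℂ) (y : ℝ) (u : ℂ),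
    1 ≤ N → (∀ j, (μ j).re ≤ 1 / 2) → d - 2 * K ≤ u.re → Good (fun j => (μ j).re - 1 / 2) d u.re →
    gaf N μ (1 / 2 + (y : ℂ) * I + u) ≠ 0 ∧ ‖gaf N μ (1 / 2 + (y : ℂ) * I + u)‖ ≤
      GG N μ y * Real.exp ((gaD N μ (3 / 2 + y * I)).re * u.re + B * (1 + ‖u‖ ^ 2)) := by
  induction K with
  | zero =>
    refine ⟨226 * m + 25 * m / d, by positivity, fun N μ y u hN hμ hu _ => ?_⟩
    exact gam_up hm hN hμ y hd hd1 (by simpa using hu)
  | succ K ih =>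
    obtain ⟨B, hB, ih⟩ := ih
    refine ⟨9 * B + 10 * m + 25 * m / d, by positivity, fun N μ y u hN hμ hu hgood => ?_⟩
    have hN0 : 0 < N := by linarith
    have hm' : (1 : ℝ) ≤ m := by exact_mod_cast hm
    have hGpos := GG_pos hm hN hμ y
    obtain ⟨ℓ, hℓ⟩ : ∃ ℓ : ℝ, ℓ = (gaD N μ (3 / 2 + y * I)).re := ⟨_, rfl⟩
    have hup := gaD_re_le hN hμ y
    change _ ≤ 1 / 2 * Real.log (cnd N μ y) + 5 * m at hup
    obtain ⟨s, hs⟩ : ∃ s : ℂ, s = 1 / 2 + (y : ℂ) * I + u := ⟨_, rfl⟩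
    have hn : 0 ≤ ‖u‖ ^ 2 := by positivity
    have hfar : ∀ j, d ≤ ‖1 / 2 + (y : ℂ) * I + u - μ j‖ := fun j => by
      refine le_trans ?_ (abs_re_le_norm _)
      have h1 := hgood j 0
      have e : (1 / 2 + (y : ℂ) * I + u - μ j).re = u.re - ((μ j).re - 1 / 2 - 2 * ((0 : ℕ) : ℝ)) := by
        simp; ring
      rw [e]
      exact h1
    have hle := le_fac' hN y hd hd1 hfar
    rw [← hs] at hle hfar ⊢
    have hz : ∀ j, s - μ j ≠ 0 := fun j h => by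
      have := hfar j
      rw [h, norm_zero] at this
      linarith
    have h1 := gaf_add_two hN0 hz
    obtain ⟨h2a, h2⟩ := ih N μ y (u + 2) hN hμ (by simp; push_cast at hu; linarith)
      (by simpa using hgood.add_two)
    rw [show (1 / 2 + (y : ℂ) * I + (u + 2) : ℂ) = s + 2 by rw [hs]; ring] at h2 h2a
    have h0 : gaf N μ s ≠ 0 := fun h => h2a (by rw [h1, h, zero_mul])
    refine ⟨h0, ?_⟩
    rw [← hℓ] at h2 hup ⊢
    rw [h1, norm_mul, norm_fac hN0] at h2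
    obtain ⟨P, hP⟩ : ∃ P : ℝ, P = N * ∏ j, (‖s - μ j‖ / (2 * Real.pi)) := ⟨_, rfl⟩
    rw [← hP] at h2 hle
    rw [cnd_exp hN] at hle
    have hPpos : 0 < P := by
      by_contra hcon
      push Not at hcon
      have := mul_nonpos_of_nonpos_of_nonneg hcon (Real.exp_pos (m * (25 / d * (1 + ‖u‖ ^ 2)))).le
      linarith [Real.exp_pos (Real.log (cnd N μ y))]
    have h7 := sq2 u
    have e25 : (m : ℝ) * (25 / d * (1 + ‖u‖ ^ 2)) = 25 * m / d * (1 + ‖u‖ ^ 2) := by ring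
    rw [e25] at hle
    have h9 : P⁻¹ ≤ Real.exp (-Real.log (cnd N μ y)) * Real.exp (25 * m / d * (1 + ‖u‖ ^ 2)) := by
      rw [inv_le_iff_one_le_mul₀ hPpos]
      calc (1 : ℝ) = Real.exp (-Real.log (cnd N μ y)) * Real.exp (Real.log (cnd N μ y)) := by
            rw [← Real.exp_add]; simp
        _ ≤ Real.exp (-Real.log (cnd N μ y)) * (P * Real.exp (25 * m / d * (1 + ‖u‖ ^ 2))) := by gcongr
        _ = _ := by ring
    have h10 : B * (1 + ‖u + 2‖ ^ 2) ≤ 9 * B * (1 + ‖u‖ ^ 2) := by nlinarith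
    calc ‖gaf N μ s‖ = ‖gaf N μ s‖ * P * P⁻¹ := by field_simp
      _ ≤ (GG N μ y * Real.exp (ℓ * (u + 2).re + B * (1 + ‖u + 2‖ ^ 2))) *
          (Real.exp (-Real.log (cnd N μ y)) * Real.exp (25 * m / d * (1 + ‖u‖ ^ 2))) :=
            mul_le_mul h2 h9 (by positivity) (by positivity)
      _ = GG N μ y * Real.exp (ℓ * (u + 2).re + B * (1 + ‖u + 2‖ ^ 2) + -Real.log (cnd N μ y) +
          25 * m / d * (1 + ‖u‖ ^ 2)) := by
            rw [Real.exp_add (_ + _), Real.exp_add (ℓ * (u + 2).re + B * (1 + ‖u + 2‖ ^ 2))]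
            ring
      _ ≤ _ := by
            apply mul_le_mul_of_nonneg_left _ hGpos.le
            apply Real.exp_le_exp.2
            have e : (u + 2).re = u.re + 2 := by simp
            rw [e]
            have h11 : (9 * B + 10 * m + 25 * m / d) * (1 + ‖u‖ ^ 2) =
              9 * B * (1 + ‖u‖ ^ 2) + 10 * m * (1 + ‖u‖ ^ 2) + 25 * m / d * (1 + ‖u‖ ^ 2) := by ring
            rw [h11]
            nlinarith

/-- **GUP** -/
theorem t_GUP : S_GUP := by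
  intro m R d hm hR hd hd1
  obtain ⟨B, hB, h⟩ := gup_aux hm hd hd1 (⌈R⌉₊)
  refine ⟨B * (1 + 2 * R ^ 2) + 7 * m * R, fun N μ y u hN hμ hr hi hgood => ?_⟩
  have hGpos := GG_pos hm hN hμ y
  have hK : R ≤ (⌈R⌉₊ : ℝ) := Nat.le_ceil R
  obtain ⟨h0, h1⟩ := h N μ y u hN hμ (by have := neg_abs_le u.re; linarith) hgood
  refine ⟨h0, h1.trans (mul_le_mul_of_nonneg_left (Real.exp_le_exp.2 ?_) hGpos.le)⟩
  have hlo := gaD_re_ge hN hμ y
  change 1 / 2 * Real.log (cnd N μ y) - 7 * m ≤ _ at hlo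
  have hup := gaD_re_le hN hμ y
  change _ ≤ 1 / 2 * Real.log (cnd N μ y) + 5 * m at hup
  obtain ⟨ℓ, hℓ⟩ : ∃ ℓ : ℝ, ℓ = (gaD N μ (3 / 2 + y * I)).re := ⟨_, rfl⟩
  rw [← hℓ] at hlo hup ⊢
  have h2 := mul_le_mul_of_nonneg_left (norm_sq_le hr hi) hB
  have hm0 : (0 : ℝ) ≤ m := by positivity
  have h3 : |(1 / 2 * Real.log (cnd N μ y) - ℓ) * u.re| ≤ 7 * m * R := by
    rw [abs_mul]
    refine mul_le_mul ?_ hr (abs_nonneg _) (by positivity)
    rw [abs_le]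
    constructor <;> linarith
  have h4 := (abs_le.1 h3).1
  nlinarith

end Pool.Agent.T3h43.SL
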