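import Pool.Agent.T3h43.SL.Stm

/-!
# Project SL: one of `m + 1` equidistant points is good
-/

set_option autoImplicit false

namespace Pool.Agent.T3h43.SL

theorem t_GRID : S_GRID := by
  intro m p a η hη hm
  by_contra hcon
  push Not at hcon
  have h1 : ∀ i : Fin (m + 1), ∃ (j : Fin m) (n : ℕ), |a + (i : ℕ) * η - (p j - 2 * n)| < η / 2 := by
    intro i
    have h := hcon i (Nat.lt_succ_iff.1 i.2)
    unfold Good at h
    push Not at h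
    exact h
  choose J n hJ using h1
  obtain ⟨i, i', hne, hJJ⟩ := Fintype.exists_ne_map_eq_of_card_lt J (by simp)
  have h2 := hJ i
  have h3 := hJ i'
  rw [hJJ] at h2
  obtain ⟨q, hq⟩ : ∃ q : ℝ, q = p (J i') := ⟨_, rfl⟩
  rw [← hq] at h2 h3
  have h2' := abs_lt.1 h2
  have h3' := abs_lt.1 h3
  have hi : ((i : ℕ) : ℝ) ≤ m := by exact_mod_cast Nat.lt_succ_iff.1 i.2
  have hi' : ((i' : ℕ) : ℝ) ≤ m := by exact_mod_cast Nat.lt_succ_iff.1 i'.2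
  have hi0 : (0 : ℝ) ≤ ((i : ℕ) : ℝ) := Nat.cast_nonneg _
  have hi0' : (0 : ℝ) ≤ ((i' : ℕ) : ℝ) := Nat.cast_nonneg _
  have hmη : (m : ℝ) * η + η ≤ 1 := by linarith
  have a1 : ((i : ℕ) : ℝ) * η ≤ m * η := mul_le_mul_of_nonneg_right hi hη.le
  have a2 : ((i' : ℕ) : ℝ) * η ≤ m * η := mul_le_mul_of_nonneg_right hi' hη.le
  have a3 : 0 ≤ ((i : ℕ) : ℝ) * η := by positivity
  have a4 : 0 ≤ ((i' : ℕ) : ℝ) * η := by positivity
  rcases lt_trichotomy (n i) (n i') with h | h | h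
  · have h4 : (n i : ℝ) + 1 ≤ n i' := by exact_mod_cast h
    linarith [h2'.1, h2'.2, h3'.1, h3'.2]
  · rw [h] at h2'
    have h5 : (i : ℕ) ≠ (i' : ℕ) := fun h => hne (Fin.ext h)
    rcases lt_or_gt_of_ne h5 with h6 | h6
    · have h7 : ((i : ℕ) : ℝ) + 1 ≤ ((i' : ℕ) : ℝ) := by exact_mod_cast h6
      nlinarith [h2'.1, h2'.2, h3'.1, h3'.2]
    · have h7 : ((i' : ℕ) : ℝ) + 1 ≤ ((i : ℕ) : ℝ) := by exact_mod_cast h6
      nlinarith [h2'.1, h2'.2, h3'.1, h3'.2]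
  · have h4 : (n i' : ℝ) + 1 ≤ n i := by exact_mod_cast h
    linarith [h2'.1, h2'.2, h3'.1, h3'.2]

end Pool.Agent.T3h43.SL
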