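import Pool.Agent.T3h43.SL.Stm
import Pool.Agent.W251.HF.Jen

/-!
# Project SL: task JN

Jensen's formula counts the zeros of `DD` on the left.
-/

set_option autoImplicit false

open Complex Metric Set

namespace Pool.Agent.T3h43.SL

open Pool.Agent.W169.HF (Cnt)
open Pool.Agent.W186.LH Pool.Agent.W251.HF

/-- one disc -/
theorem jn_disc {F : ℂ → ℂ} (hF : Differentiable ℂ F) {c : ℂ} {rin rout q κ κ' ℓ : ℝ} (hin : 0 < rin)
    (hq : 1 < q) (hqr : q * rin ≤ rout)
    (hup : ∀ u : ℂ, ‖u - c‖ = rout → ‖F u‖ ≤ Real.exp (2 * ℓ * |u.re| + κ * ℓ) ∧ u.re ≤ 0)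
    (hc0 : c.re ≤ 0)
    (hlow : Real.exp (2 * ℓ * |c.re| - κ' * ℓ) ≤ ‖F c‖)
    (S : Finset ℂ) (hS : ∀ z ∈ S, ‖z - c‖ ≤ rin) :
    (∑ z ∈ S, analyticOrderNatAt F z : ℝ) * Real.log q ≤ (κ + κ') * ℓ := by
  have hrout : rin ≤ rout := by nlinarith
  have hFc : F c ≠ 0 := by
    intro h
    rw [h, norm_zero] at hlow
    have := Real.exp_pos (2 * ℓ * |c.re| - κ' * ℓ)
    linarith
  set F1 : ℂ → ℂ := fun u => F u * Complex.exp (-(((-(2 * ℓ) : ℝ) : ℂ) * u)) with hF1
  have hF1d : Differentiable ℂ F1 := by rw [hF1]; fun_prop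
  have hord : ∀ z, analyticOrderNatAt F1 z = analyticOrderNatAt F z := fun z =>
    ord_exp hF ⟨c, hFc⟩ _ z
  have hM : ∀ u ∈ sphere c rout, ‖F1 u‖ ≤ Real.exp (κ * ℓ) := by
    intro u hu
    rw [mem_sphere, dist_eq_norm] at hu
    obtain ⟨h4, h5⟩ := hup u hu
    show ‖F u * Complex.exp (-(((-(2 * ℓ) : ℝ) : ℂ) * u))‖ ≤ _
    rw [norm_mul, norm_exp_neg]
    rw [abs_of_nonpos h5] at h4
    calc ‖F u‖ * Real.exp (-(-(2 * ℓ) * u.re))
        ≤ Real.exp (2 * ℓ * -u.re + κ * ℓ) * Real.exp (-(-(2 * ℓ) * u.re)) :=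
          mul_le_mul_of_nonneg_right h4 (Real.exp_pos _).le
      _ = Real.exp (κ * ℓ) := by
          rw [← Real.exp_add]; congr 1; ring
  have hF1c : Real.exp (-(κ' * ℓ)) ≤ ‖F1 c‖ := by
    show _ ≤ ‖F c * Complex.exp (-(((-(2 * ℓ) : ℝ) : ℂ) * c))‖
    rw [norm_mul, norm_exp_neg]
    rw [abs_of_nonpos hc0] at hlow
    calc Real.exp (-(κ' * ℓ)) = Real.exp (2 * ℓ * -c.re - κ' * ℓ) * Real.exp (-(-(2 * ℓ) * c.re)) := by
          rw [← Real.exp_add]; congr 1; ring
      _ ≤ _ := mul_le_mul_of_nonneg_right hlow (Real.exp_pos _).le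
  have hF1c0 : F1 c ≠ 0 := mul_ne_zero hFc (Complex.exp_ne_zero _)
  have hj := jc hF1d hin hrout hM hF1c0 S (fun z hz => by
    rw [mem_closedBall, dist_eq_norm]; exact hS z hz)
  have hsum : (∑ z ∈ S, analyticOrderNatAt F1 z) = ∑ z ∈ S, analyticOrderNatAt F z :=
    Finset.sum_congr rfl fun z _ => hord z
  rw [hsum] at hj
  set n := ∑ z ∈ S, analyticOrderNatAt F z with hn
  have hqq : q ≤ rout / rin := by rwa [le_div_iff₀ hin]
  have h5 : q ^ n ≤ (rout / rin) ^ n := pow_le_pow_left₀ (by linarith) hqq n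
  have h6 : q ^ n * Real.exp (-(κ' * ℓ)) ≤ Real.exp (κ * ℓ) :=
    (mul_le_mul h5 hF1c (Real.exp_pos _).le (le_trans (by positivity) h5)).trans hj
  have h7 : q ^ n ≤ Real.exp ((κ + κ') * ℓ) := by
    have h8 : q ^ n * Real.exp (-(κ' * ℓ)) ≤ Real.exp ((κ + κ') * ℓ) * Real.exp (-(κ' * ℓ)) := by
      refine h6.trans (le_of_eq ?_)
      rw [← Real.exp_add]
      congr 1; ring
    exact le_of_mul_le_mul_right h8 (Real.exp_pos _)
  have h9 := Real.log_le_log (pow_pos (by linarith) n) h7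
  rw [Real.log_exp, Real.log_pow] at h9
  rw [← Nat.cast_sum]
  exact h9

theorem t_JN (hLB : S_LB) : S_JN := by
  intro m Q ρ δ ε R1 hQ hρ hρ1 hδ hδ1 hε hR1
  set X0 : ℝ := R1 + 10 with hX0
  set q : ℝ := 1 + δ / (4 * (X0 + 1)) with hq
  have hX1 : 0 < X0 + 1 := by linarith
  have hq1 : 1 < q := by
    have : 0 < δ / (4 * (X0 + 1)) := by positivity
    linarith
  have hlog : 0 < Real.log q := Real.log_pos hq1
  obtain ⟨K, hK⟩ := exists_nat_ge (R1 / (δ / 2) + 1)
  have hK0 : (0 : ℝ) < 2 * K + 1 := by positivity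
  set κ' : ℝ := min (ε * Real.log q / (2 * (2 * K + 1))) 1 with hκ'
  have hκ'0 : 0 < κ' := by rw [hκ']; positivity
  have hκ'1 : κ' ≤ 1 := min_le_right _ _
  have hκ'2 : κ' ≤ ε * Real.log q / (2 * (2 * K + 1)) := min_le_left _ _
  obtain ⟨d, κ, ℓ0, hd, hκ, hL⟩ := hLB m Q (δ / 4) κ' hQ (by positivity) hκ'0
  refine ⟨d, min κ κ', 3 * X0 + R1 + 10, max ℓ0 1, hd, lt_min hκ hκ'0, by linarith, ?_⟩
  intro ℓ p g h hℓ H hup S hS
  have hℓ0 : ℓ0 ≤ ℓ := (le_max_left _ _).trans hℓ
  have hℓ1 : 1 ≤ ℓ := (le_max_right _ _).trans hℓ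
  have hℓp : 0 ≤ ℓ := by linarith
  have H' := H.mono (R' := 3 * X0 + R1 + 10) (d' := d) (κ' := κ) le_rfl le_rfl (min_le_left _ _) hℓp
  have hδ2 : 0 < δ / 2 := by positivity
  set F := DD Q g h with hF
  have hFd : Differentiable ℂ F := DD_diff H Q
  have hmaps : ∀ z ∈ S, round (z.im / (δ / 2)) ∈ Finset.Icc (-(K : ℤ)) K := by
    intro z hz
    obtain ⟨-, -, -, h3⟩ := hS z hz
    have h4 := abs_sub_round (z.im / (δ / 2))
    have h5 : |z.im / (δ / 2)| ≤ R1 / (δ / 2) := by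
      rw [abs_div, abs_of_pos hδ2]
      exact div_le_div_of_nonneg_right h3 hδ2.le
    have h6 : |(round (z.im / (δ / 2)) : ℝ)| ≤ K := by
      have := abs_sub_abs_le_abs_sub (round (z.im / (δ / 2)) : ℝ) (z.im / (δ / 2))
      rw [abs_sub_comm] at this
      linarith
    rw [Finset.mem_Icc]
    rw [abs_le] at h6
    constructor
    · exact_mod_cast h6.1
    · exact_mod_cast h6.2
  rw [← Finset.sum_fiberwise_of_maps_to hmaps]
  have hbound : ∀ j ∈ Finset.Icc (-(K : ℤ)) K,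
      ∑ z ∈ S with round (z.im / (δ / 2)) = j, (analyticOrderNatAt F z : ℝ) ≤ ε * ℓ / (2 * K + 1) := by
    intro j _
    rcases (S.filter fun z => round (z.im / (δ / 2)) = j).eq_empty_or_nonempty with he | ⟨z0, hz0⟩
    · rw [he, Finset.sum_empty]; positivity
    · have hclose : ∀ z : ℂ, round (z.im / (δ / 2)) = j → |z.im - j * (δ / 2)| ≤ δ / 4 := by
        intro z hz
        have h4 := abs_sub_round (z.im / (δ / 2))
        rw [hz] at h4
        have h5 : z.im - j * (δ / 2) = (z.im / (δ / 2) - j) * (δ / 2) := by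
          rw [sub_mul, div_mul_cancel₀ _ hδ2.ne']
        rw [h5, abs_mul, abs_of_pos hδ2]
        nlinarith
      rw [Finset.mem_filter] at hz0
      have hv : |(j * (δ / 2) : ℝ)| ≤ R1 + 1 := by
        have h6 := hclose z0 hz0.2
        have h7 := (hS z0 hz0.1).2.2.2
        have := abs_sub_abs_le_abs_sub (j * (δ / 2) : ℝ) z0.im
        rw [abs_sub_comm] at this
        linarith
      set v : ℝ := j * (δ / 2) with hvd
      obtain ⟨c, hc1, hc2⟩ := hL ℓ _ p g h ⟨-X0, v⟩ hℓ0 H'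
        (by simp only; linarith) (by simp only; linarith) (by simp only; linarith)
      have h8 := abs_le.1 ((Complex.abs_re_le_norm (c - ⟨-X0, v⟩)).trans hc1)
      have h9 := abs_le.1 ((Complex.abs_im_le_norm (c - ⟨-X0, v⟩)).trans hc1)
      rw [Complex.sub_re] at h8
      rw [Complex.sub_im] at h9
      simp only at h8 h9
      have hv' := abs_le.1 hv
      set Xc : ℝ := -c.re with hXc
      have hcr : c.re = -Xc := by rw [hXc]; ring
      have h10 : X0 - δ / 4 ≤ Xc := by linarith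
      have h11 : Xc ≤ X0 + δ / 4 := by linarith
      have hin : 0 < Xc - ρ - 3 * δ / 4 := by linarith
      have hdisc := jn_disc (F := F) hFd (c := c) (rin := Xc - ρ - 3 * δ / 4)
        (rout := Xc - ρ - δ / 2) (q := q) (κ := min κ κ') (κ' := κ') (ℓ := ℓ) hin hq1
        (by
          rw [hq]
          have h12 : δ / (4 * (X0 + 1)) * (Xc - ρ - 3 * δ / 4) ≤ δ / 4 := by
            have h13 : Xc - ρ - 3 * δ / 4 ≤ X0 + 1 := by linarith
            calc δ / (4 * (X0 + 1)) * (Xc - ρ - 3 * δ / 4) ≤ δ / (4 * (X0 + 1)) * (X0 + 1) :=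
                  mul_le_mul_of_nonneg_left h13 (by positivity)
              _ = δ / 4 := by field_simp
          linarith)
        (by
          intro u hu
          have h12 := abs_le.1 ((Complex.abs_re_le_norm (u - c)).trans hu.le)
          have h13 := abs_le.1 ((Complex.abs_im_le_norm (u - c)).trans hu.le)
          rw [Complex.sub_re, hcr] at h12
          rw [Complex.sub_im] at h13
          refine ⟨hup u (by linarith) (by linarith) ?_, by linarith⟩
          rw [abs_le]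
          constructor <;> linarith)
        (by linarith) hc2 (S.filter fun z => round (z.im / (δ / 2)) = j)
        (fun z hz => by
          rw [Finset.mem_filter] at hz
          obtain ⟨-, h1, h2, -⟩ := hS z hz.1
          have h3 := abs_le.1 (hclose z hz.2)
          rw [Complex.norm_eq_sqrt_sq_add_sq, Complex.sub_re, Complex.sub_im, hcr]
          rw [Real.sqrt_le_left hin.le]
          have h4 : (z.im - c.im) ^ 2 ≤ (δ / 2) ^ 2 := by
            rw [← sq_abs]
            refine pow_le_pow_left₀ (abs_nonneg _) ?_ 2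
            rw [abs_le]
            constructor <;> linarith
          have h5 : 0 ≤ z.re - -Xc := by linarith
          have h6 : z.re - -Xc ≤ Xc - ρ - δ := by linarith
          have h7 : (z.re - -Xc) ^ 2 ≤ (Xc - ρ - δ) ^ 2 := pow_le_pow_left₀ h5 h6 2
          nlinarith)
      have h14 : (min κ κ' + κ') * ℓ ≤ ε * ℓ / (2 * K + 1) * Real.log q := by
        have h15 : min κ κ' + κ' ≤ 2 * (ε * Real.log q / (2 * (2 * K + 1))) := by
          have := min_le_right κ κ'
          linarith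
        calc (min κ κ' + κ') * ℓ ≤ 2 * (ε * Real.log q / (2 * (2 * K + 1))) * ℓ :=
              mul_le_mul_of_nonneg_right h15 hℓp
          _ = ε * ℓ / (2 * K + 1) * Real.log q := by field_simp
      exact le_of_mul_le_mul_right (hdisc.trans h14) hlog
  refine (Finset.sum_le_sum hbound).trans ?_
  rw [Finset.sum_const, Int.card_Icc, nsmul_eq_mul]
  have h11 : (((K : ℤ) + 1 - -(K : ℤ)).toNat : ℝ) = 2 * K + 1 := by
    have : ((K : ℤ) + 1 - -(K : ℤ)).toNat = 2 * K + 1 := by omega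
    rw [this]; push_cast; ring
  rw [h11, mul_div_cancel₀ _ hK0.ne']

end Pool.Agent.T3h43.SL
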