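import Pool.Agent.T3h43.SL.Stm

/-!
# Project SL: tasks PG and LB

`t_PG`: a function with small `Q(d/du) g` is controlled by its values on a small disc.
`t_LB`: lower bound for `DD` at some point of every disc on the left.
-/

set_option autoImplicit false

open Complex Metric Set

namespace Pool.Agent.T3h43.SL

/-- the operator for a product with a linear factor -/
lemma Dop_lin (lam : ℂ) (Q : Polynomial ℂ) {g : ℂ → ℂ} (hg : Differentiable ℂ g) (u : ℂ) :
    Dop ((Polynomial.X - Polynomial.C lam) * Q) g u = Dop Q (fun v => deriv g v - lam * g v) u := by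
  have hadd : ∀ (P P' : Polynomial ℂ) (f : ℂ → ℂ), Dop (P + P') f u = Dop P f u + Dop P' f u := by
    intro P P' f
    unfold Dop
    exact Polynomial.sum_add_index _ _ _ (fun i => by simp) (fun i a b => by ring)
  have hmon : ∀ (i : ℕ) (a : ℂ) (f : ℂ → ℂ), Dop (Polynomial.monomial i a) f u = a * iteratedDeriv i f u := by
    intro i a f
    unfold Dop
    exact Polynomial.sum_monomial_index _ _ (by simp)
  induction Q using Polynomial.induction_on' with
  | add P P' h1 h2 =>
    rw [mul_add, hadd, hadd, h1, h2]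
  | monomial n a =>
    have e : (Polynomial.X - Polynomial.C lam) * Polynomial.monomial n a =
        Polynomial.monomial (n + 1) a + Polynomial.monomial n (-(lam * a)) := by
      rw [sub_mul, Polynomial.X_mul_monomial, Polynomial.C_mul_monomial, sub_eq_add_neg,
        Polynomial.monomial_neg]
    rw [e, hadd, hmon, hmon, hmon]
    have hd : Differentiable ℂ (deriv g) := (hg.contDiff (n := 2)).differentiable_deriv_two
    have h1 : iteratedDeriv n (fun v => deriv g v - lam * g v) u =
        iteratedDeriv n (deriv g) u - lam * iteratedDeriv n g u := by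
      rw [iteratedDeriv_fun_sub (hd.contDiff.contDiffAt) ((hg.const_mul lam).contDiff.contDiffAt)]
      congr 1
      rw [iteratedDeriv_const_mul_field]
    rw [h1, iteratedDeriv_succ']
    ring

theorem t_PG : S_PG := by
  have main : ∀ (n : ℕ) (Q : Polynomial ℂ), Q ≠ 0 → Q.natDegree = n → ∀ r1 r2 : ℝ, 0 < r1 → r1 ≤ r2 →
      ∃ C : ℝ, 1 ≤ C ∧ ∀ (g : ℂ → ℂ) (b : ℂ) (S : Set ℂ) (B M : ℝ), Differentiable ℂ g → Convex ℝ S →
        closedBall b r1 ⊆ S → S ⊆ closedBall b r2 → (∀ u ∈ S, ‖Dop Q g u‖ ≤ B) →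
        (∀ u ∈ closedBall b r1, ‖g u‖ ≤ M) → ∀ u ∈ S, ‖g u‖ ≤ C * (M + B) := by
    intro n
    induction n with
    | zero =>
      intro Q hQ hn r1 r2 h1 h2
      obtain ⟨c, hc⟩ : ∃ c : ℂ, Q = Polynomial.C c := ⟨_, Polynomial.eq_C_of_natDegree_eq_zero hn⟩
      have hc0 : c ≠ 0 := fun h => hQ (by rw [hc, h, Polynomial.C_0])
      have hcn : 0 < ‖c‖ := norm_pos_iff.2 hc0
      have hcp : 0 < 1 / ‖c‖ := by positivity
      refine ⟨1 + 1 / ‖c‖, by linarith, ?_⟩
      intro g b S B M hg hS hb1 hb2 hB hM u hu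
      have e1 := hB u hu
      have e0 : Dop Q g u = c * g u := by
        rw [hc]
        unfold Dop
        rw [Polynomial.sum_C_index (by simp), iteratedDeriv_zero]
      rw [e0, norm_mul] at e1
      have e2 : 0 ≤ M := (norm_nonneg _).trans (hM b (mem_closedBall_self h1.le))
      have e3 : 0 ≤ B := (mul_nonneg (norm_nonneg _) (norm_nonneg _)).trans e1
      have e4 : ‖g u‖ ≤ B / ‖c‖ := by
        rw [le_div_iff₀ hcn]
        linarith
      have e5 : B / ‖c‖ = 1 / ‖c‖ * B := by ring
      have e6 : 0 ≤ 1 / ‖c‖ := by positivity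
      nlinarith
    | succ n ih =>
      intro Q hQ hn r1 r2 h1 h2
      have hdeg : Q.degree ≠ 0 := by
        rw [Polynomial.degree_eq_natDegree hQ, hn]
        exact_mod_cast Nat.succ_ne_zero n
      obtain ⟨lam, hroot⟩ := IsAlgClosed.exists_root Q hdeg
      obtain ⟨Q1, hQ1⟩ := Polynomial.dvd_iff_isRoot.2 hroot
      have hQ10 : Q1 ≠ 0 := fun h => hQ (by rw [hQ1, h, mul_zero])
      have hn1 : Q1.natDegree = n := by
        have h3 := Polynomial.natDegree_mul (Polynomial.X_sub_C_ne_zero lam) hQ10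
        rw [← hQ1, hn, Polynomial.natDegree_X_sub_C] at h3
        omega
      obtain ⟨C, hC, H⟩ := ih Q1 hQ10 hn1 (r1 / 2) r2 (by positivity) (by linarith)
      have hr2 : 0 < r2 := h1.trans_le h2
      obtain ⟨E, hE⟩ : ∃ E : ℝ, E = Real.exp (‖lam‖ * r2) := ⟨_, rfl⟩
      have hE1 : 1 ≤ E := by rw [hE]; exact Real.one_le_exp (by positivity)
      refine ⟨E * (1 + r2 * E * (C * (2 / r1 + ‖lam‖ + 1))), ?_, ?_⟩
      · have h3 : 0 ≤ r2 * E * (C * (2 / r1 + ‖lam‖ + 1)) := by positivity
        nlinarith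
      intro g b S B M hg hS hb1 hb2 hB hM u hu
      have hM0 : 0 ≤ M := (norm_nonneg _).trans (hM b (mem_closedBall_self h1.le))
      have hbS : b ∈ S := hb1 (mem_closedBall_self h1.le)
      have hB0 : 0 ≤ B := (norm_nonneg _).trans (hB b hbS)
      have hdg : Differentiable ℂ (deriv g) := (hg.contDiff (n := 2)).differentiable_deriv_two
      have hg1 : Differentiable ℂ fun v => deriv g v - lam * g v := hdg.sub (hg.const_mul lam)
      have hsub : closedBall b (r1 / 2) ⊆ S := (closedBall_subset_closedBall (by linarith)).trans hb1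
      have key := H (fun v => deriv g v - lam * g v) b S B ((2 / r1 + ‖lam‖) * M) hg1 hS hsub hb2
        (fun v hv => by
          have := hB v hv
          rwa [hQ1, Dop_lin lam Q1 hg] at this)
        (fun v hv => by
          have hv' : v ∈ closedBall b r1 := closedBall_subset_closedBall (by linarith) hv
          have h3 : ∀ z ∈ sphere v (r1 / 2), ‖g z‖ ≤ M := by
            intro z hz
            apply hM
            rw [mem_closedBall, dist_eq_norm] at *
            rw [mem_sphere, dist_eq_norm] at hz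
            calc ‖z - b‖ = ‖(z - v) + (v - b)‖ := by ring_nf
              _ ≤ ‖z - v‖ + ‖v - b‖ := norm_add_le _ _
              _ ≤ r1 := by linarith
          have h4 := Complex.norm_deriv_le_of_forall_mem_sphere_norm_le (c := v) (R := r1 / 2) (C := M)
            (by positivity) hg.diffContOnCl h3
          have h5 := mul_le_mul_of_nonneg_left (hM v hv') (norm_nonneg lam)
          refine (norm_sub_le _ _).trans ?_
          rw [norm_mul]
          have e : M / (r1 / 2) = 2 / r1 * M := by field_simp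
          rw [e] at h4
          linarith)
      obtain ⟨D, hD⟩ : ∃ D : ℝ, D = C * ((2 / r1 + ‖lam‖) * M + B) := ⟨_, rfl⟩
      rw [← hD] at key
      have hD0 : 0 ≤ D := by rw [hD]; positivity
      have hexpb : ∀ v ∈ S, ‖cexp (-(lam * (v - b)))‖ ≤ E := by
        intro v hv
        have h3 : ‖v - b‖ ≤ r2 := by
          have := hb2 hv
          rwa [mem_closedBall, dist_eq_norm] at this
        rw [Complex.norm_exp, hE]
        apply Real.exp_le_exp.2
        refine (Complex.re_le_norm _).trans ?_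
        rw [norm_neg, norm_mul]
        exact mul_le_mul_of_nonneg_left h3 (norm_nonneg _)
      obtain ⟨e, he⟩ : ∃ e : ℂ → ℂ, e = fun v => g v * cexp (-(lam * (v - b))) := ⟨_, rfl⟩
      have hed : Differentiable ℂ e := by rw [he]; fun_prop
      have hder : ∀ v, deriv e v = (deriv g v - lam * g v) * cexp (-(lam * (v - b))) := by
        intro v
        have h3 : HasDerivAt (fun v : ℂ => -(lam * (v - b))) (-lam) v := by
          have := (((hasDerivAt_id v).sub_const b).const_mul lam).fun_neg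
          refine this.congr_deriv ?_
          rw [mul_one]
        have h4 := (hg v).hasDerivAt.fun_mul h3.cexp
        rw [he, h4.deriv]
        ring
      have h5 : ‖e u - e b‖ ≤ D * E * ‖u - b‖ := by
        refine Convex.norm_image_sub_le_of_norm_deriv_le (fun x _ => hed x) (fun v hv => ?_) hS hbS hu
        rw [hder, norm_mul]
        exact mul_le_mul (key v hv) (hexpb v hv) (norm_nonneg _) hD0
      have h6 : ‖u - b‖ ≤ r2 := by
        have := hb2 hu
        rwa [mem_closedBall, dist_eq_norm] at this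
      have heb : e b = g b := by rw [he]; simp
      have h7 : ‖e b‖ ≤ M := by rw [heb]; exact hM b (mem_closedBall_self h1.le)
      have h8 : ‖e u‖ ≤ M + D * E * r2 := by
        calc ‖e u‖ = ‖e b + (e u - e b)‖ := by ring_nf
          _ ≤ ‖e b‖ + ‖e u - e b‖ := norm_add_le _ _
          _ ≤ M + D * E * ‖u - b‖ := by linarith
          _ ≤ M + D * E * r2 := by
            have := mul_le_mul_of_nonneg_left h6 (by positivity : 0 ≤ D * E)
            linarith
      have h9 : ‖g u‖ ≤ E * ‖e u‖ := by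
        have h10 : g u = cexp (lam * (u - b)) * e u := by
          rw [he]
          simp only
          rw [mul_left_comm, ← Complex.exp_add]
          simp
        rw [h10, norm_mul]
        apply mul_le_mul_of_nonneg_right _ (norm_nonneg _)
        rw [Complex.norm_exp, hE]
        apply Real.exp_le_exp.2
        refine (Complex.re_le_norm _).trans ?_
        rw [norm_mul]
        exact mul_le_mul_of_nonneg_left h6 (norm_nonneg _)
      have h11 : D ≤ C * (2 / r1 + ‖lam‖ + 1) * (M + B) := by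
        rw [hD]
        have : 0 ≤ 2 / r1 + ‖lam‖ := by positivity
        have h10 : (2 / r1 + ‖lam‖) * M + B ≤ (2 / r1 + ‖lam‖ + 1) * (M + B) := by nlinarith
        calc C * ((2 / r1 + ‖lam‖) * M + B) ≤ C * ((2 / r1 + ‖lam‖ + 1) * (M + B)) :=
              mul_le_mul_of_nonneg_left h10 (by linarith)
          _ = _ := by ring
      calc ‖g u‖ ≤ E * ‖e u‖ := h9
        _ ≤ E * (M + D * E * r2) := mul_le_mul_of_nonneg_left h8 (by linarith)
        _ ≤ E * ((M + B) + C * (2 / r1 + ‖lam‖ + 1) * (M + B) * E * r2) := by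
            apply mul_le_mul_of_nonneg_left _ (by linarith)
            have h12 := mul_le_mul_of_nonneg_right h11 (by positivity : 0 ≤ E * r2)
            nlinarith
        _ = E * (1 + r2 * E * (C * (2 / r1 + ‖lam‖ + 1))) * (M + B) := by ring
  intro Q r1 r2 hQ h1 h2
  exact main Q.natDegree Q hQ rfl r1 r2 h1 h2

theorem t_LB (h1 : S_PG) (h2 : S_GRID) : S_LB := by
  intro m Q r κ' hQ hr hκ'
  set r' : ℝ := min (min r (κ' / 16)) 1 with hr'
  have hr'0 : 0 < r' := by rw [hr']; positivity
  have hr'1 : r' ≤ r := (min_le_left _ _).trans (min_le_left _ _)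
  have hr'2 : r' ≤ κ' / 16 := (min_le_left _ _).trans (min_le_right _ _)
  have hr'3 : r' ≤ 1 := min_le_right _ _
  obtain ⟨C, hC, hPG⟩ := h1 Q (r' / 4) (2 * r') hQ (by positivity) (by linarith)
  set η : ℝ := r' / (4 * (m + 1)) with hη
  have hη0 : 0 < η := by positivity
  have hmη : (m + 1) * η = r' / 4 := by
    rw [hη]; field_simp
  refine ⟨η / 2, r' / 8, 4 * C / r' + 1, by positivity, by positivity, ?_⟩
  intro ℓ R p g h a hℓ H ha1 ha2 ha3
  by_contra hcon
  push Not at hcon
  have hℓC : 4 * C / r' < ℓ := by linarith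
  have hℓ0 : 0 < ℓ := lt_of_le_of_lt (by positivity) hℓC
  set X : ℝ := -a.re with hX
  have hX1 : 1 / 2 + κ' + r ≤ X := by rw [hX]; linarith
  have hXR : X + r ≤ R := by rw [hX]; linarith
  set D : Set ℂ := closedBall a r' with hD
  set b : ℂ := a + ((r' / 2 : ℝ) : ℂ) with hb
  have hre : ∀ z w : ℂ, |(z - w).re| ≤ ‖z - w‖ := fun z w => Complex.abs_re_le_norm _
  have him : ∀ z w : ℂ, |(z - w).im| ≤ ‖z - w‖ := fun z w => Complex.abs_im_le_norm _
  have hba : ‖b - a‖ = r' / 2 := by
    rw [hb, add_sub_cancel_left, Complex.norm_real, Real.norm_of_nonneg (by positivity)]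
  have hsub1 : closedBall b (r' / 4) ⊆ D := by
    intro z hz
    rw [hD, mem_closedBall, dist_eq_norm]
    rw [mem_closedBall, dist_eq_norm] at hz
    calc ‖z - a‖ = ‖(z - b) + (b - a)‖ := by ring_nf
      _ ≤ ‖z - b‖ + ‖b - a‖ := norm_add_le _ _
      _ ≤ r' := by rw [hba]; linarith
  have hsub2 : D ⊆ closedBall b (2 * r') := by
    intro z hz
    rw [mem_closedBall, dist_eq_norm]
    rw [hD, mem_closedBall, dist_eq_norm] at hz
    calc ‖z - b‖ = ‖(z - a) - (b - a)‖ := by ring_nf
      _ ≤ ‖z - a‖ + ‖b - a‖ := norm_sub_le _ _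
      _ ≤ 2 * r' := by rw [hba]; linarith
  -- the bound for the derivative
  have hB : ∀ u ∈ D, ‖Dop Q g u‖ ≤ 2 * Real.exp (2 * X * ℓ) := by
    intro u hu
    rw [hD, mem_closedBall, dist_eq_norm] at hu
    have h3 := abs_le.1 ((hre u a).trans hu)
    have h4 := abs_le.1 ((him u a).trans hu)
    rw [Complex.sub_re] at h3
    rw [Complex.sub_im] at h4
    have ha4 := abs_le.1 (show |a.im| ≤ R - r by linarith)
    have h5 : |u.re| ≤ X + r' := by rw [abs_le]; constructor <;> linarith
    have h6 : |u.im| ≤ R := by rw [abs_le]; constructor <;> linarith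
    have h7 := hcon u (hu.trans hr'1)
    have h8 := H.hup u (by linarith) h6
    have e1 : Dop Q g u = DD Q g h u + h u := by rw [DD]; ring
    have e2 : Real.exp (2 * ℓ * |u.re| - κ' * ℓ) ≤ Real.exp (2 * X * ℓ) := by
      apply Real.exp_le_exp.2
      nlinarith
    have e3 : Real.exp (r' / 8 * ℓ) ≤ Real.exp (2 * X * ℓ) := by
      apply Real.exp_le_exp.2
      apply mul_le_mul_of_nonneg_right _ hℓ0.le
      linarith
    rw [e1]
    calc ‖DD Q g h u + h u‖ ≤ ‖DD Q g h u‖ + ‖h u‖ := norm_add_le _ _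
      _ ≤ 2 * Real.exp (2 * X * ℓ) := by linarith
  have hM : ∀ u ∈ closedBall b (r' / 4), ‖g u‖ ≤ Real.exp (2 * X * ℓ) := by
    intro u hu
    rw [mem_closedBall, dist_eq_norm] at hu
    have h3 := abs_le.1 ((hre u b).trans hu)
    have h4 := abs_le.1 ((him u b).trans hu)
    have e1 : b.re = -X + r' / 2 := by rw [hb, hX]; simp
    have e2 : b.im = a.im := by rw [hb]; simp
    rw [Complex.sub_re, e1] at h3
    rw [Complex.sub_im, e2] at h4
    have ha4 := abs_le.1 (show |a.im| ≤ R - r by linarith)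
    have h5 : |u.re| ≤ X - r' / 4 := by rw [abs_le]; constructor <;> linarith
    have h6 : |u.im| ≤ R := by rw [abs_le]; constructor <;> linarith
    refine (H.left (by linarith) h6 (by linarith)).trans (Real.exp_le_exp.2 ?_)
    nlinarith
  have hPG' := hPG g b D (2 * Real.exp (2 * X * ℓ)) (Real.exp (2 * X * ℓ)) H.diff
    (convex_closedBall a r') hsub1 hsub2 hB hM
  -- a good line
  obtain ⟨i, hi, hgood⟩ := h2 m p (-(X + 3 / 4 * r')) η hη0 (by rw [hmη]; linarith)
  set x : ℝ := X + 3 / 4 * r' - i * η with hx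
  have hiη : (i : ℝ) * η ≤ r' / 4 := by
    rw [← hmη]
    apply mul_le_mul_of_nonneg_right _ hη0.le
    have : (i : ℝ) ≤ m := by exact_mod_cast hi
    linarith
  have hiη0 : 0 ≤ (i : ℝ) * η := by positivity
  have hgood' : Good p (η / 2) (-x) := by
    have e : -x = -(X + 3 / 4 * r') + i * η := by rw [hx]; ring
    rw [e]; exact hgood
  have hx1 : X + r' / 2 ≤ x := by rw [hx]; linarith
  have hx2 : x ≤ X + 3 / 4 * r' := by rw [hx]; linarith
  have hv : |a.im| ≤ R := by linarith
  have h3 := H.rlo x a.im (by linarith) (by linarith) hv hgood'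
  have h4 := H.low ⟨x, a.im⟩ (by simp only; linarith) (by simp only; linarith) hv
  have h5 := hPG' ⟨-x, a.im⟩ (by
    rw [hD, mem_closedBall, dist_eq_norm]
    have e : (⟨-x, a.im⟩ : ℂ) - a = ((X - x : ℝ) : ℂ) := by
      apply Complex.ext
      · simp [hX]; ring
      · simp
    rw [e, Complex.norm_real, Real.norm_eq_abs, abs_le]
    constructor <;> linarith)
  have h6 : Real.exp (-(r' / 8 * ℓ)) ≤ Real.exp (-(2 * ℓ * x) + r' / 8 * ℓ) *
      (C * (3 * Real.exp (2 * X * ℓ))) := by
    refine (h4.trans h3).trans (mul_le_mul_of_nonneg_left ?_ (Real.exp_pos _).le)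
    refine h5.trans (le_of_eq ?_)
    ring
  have h7 : Real.exp (-(r' / 8 * ℓ)) ≤ 3 * C * Real.exp (-(2 * ℓ * x) + r' / 8 * ℓ + 2 * X * ℓ) := by
    refine h6.trans (le_of_eq ?_)
    rw [Real.exp_add (-(2 * ℓ * x) + r' / 8 * ℓ)]
    ring
  have h8 : -(2 * ℓ * x) + r' / 8 * ℓ + 2 * X * ℓ ≤ -(r' / 8 * ℓ) - 3 / 4 * r' * ℓ := by
    have := mul_le_mul_of_nonneg_left hx1 hℓ0.le
    nlinarith
  have h9 : Real.exp (-(2 * ℓ * x) + r' / 8 * ℓ + 2 * X * ℓ) ≤
      Real.exp (-(r' / 8 * ℓ)) * Real.exp (-(3 / 4 * r' * ℓ)) := by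
    rw [← Real.exp_add]
    exact Real.exp_le_exp.2 (by linarith)
  have h10 : (1 : ℝ) ≤ 3 * C * Real.exp (-(3 / 4 * r' * ℓ)) := by
    have e0 := Real.exp_pos (-(r' / 8 * ℓ))
    have : Real.exp (-(r' / 8 * ℓ)) * 1 ≤
        Real.exp (-(r' / 8 * ℓ)) * (3 * C * Real.exp (-(3 / 4 * r' * ℓ))) := by
      rw [mul_one]
      refine h7.trans ?_
      refine (mul_le_mul_of_nonneg_left h9 (by positivity)).trans (le_of_eq ?_)
      ring
    exact le_of_mul_le_mul_left this e0
  have h11 : 3 * C < 3 / 4 * r' * ℓ := by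
    rw [div_lt_iff₀ hr'0] at hℓC
    linarith
  have h12 := Real.add_one_le_exp (3 / 4 * r' * ℓ)
  have h13 : Real.exp (3 / 4 * r' * ℓ) * Real.exp (-(3 / 4 * r' * ℓ)) = 1 := by
    rw [← Real.exp_add]; simp
  have h14 := Real.exp_pos (-(3 / 4 * r' * ℓ))
  nlinarith

end Pool.Agent.T3h43.SL
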