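import Pool.Agent.T3h43.SL.UPR
import Pool.Agent.W186.LH.Fac

/-!
# Project SL: few zeros of `DD` on the left of `-ρ` give the bound for `DD` there
-/

set_option autoImplicit false

open Complex Metric Set

namespace Pool.Agent.T3h43.SL

open Pool.Agent.W169.HF (Cnt)
open Pool.Agent.W186.LH

/-- the normalised function -/
noncomputable def NF (F : ℂ → ℂ) (ℓ : ℝ) (z : ℂ) : ℂ := F z * cexp (((2 * ℓ : ℝ) : ℂ) * z)

lemma NF_norm (F : ℂ → ℂ) (ℓ : ℝ) (z : ℂ) : ‖NF F ℓ z‖ = ‖F z‖ * Real.exp (2 * ℓ * z.re) := by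
  unfold NF
  rw [norm_mul, Complex.norm_exp]
  congr 2
  simp

lemma NF_diff {F : ℂ → ℂ} (hF : Differentiable ℂ F) (ℓ : ℝ) : Differentiable ℂ (NF F ℓ) := by
  unfold NF
  fun_prop

lemma NF_zero {F : ℂ → ℂ} {ℓ : ℝ} {z : ℂ} (h : NF F ℓ z = 0) : F z = 0 := by
  unfold NF at h
  rcases mul_eq_zero.1 h with h | h
  · exact h
  · exact absurd h (Complex.exp_ne_zero _)

lemma NF_ord {F : ℂ → ℂ} (hF : Differentiable ℂ F) (hne : ∃ u, F u ≠ 0) (ℓ : ℝ) (z : ℂ) :
    analyticOrderNatAt (NF F ℓ) z = analyticOrderNatAt F z := by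
  obtain ⟨h, hh, hz, he⟩ := single hF hne z
  refine ord_of (h := fun u => h u * cexp (((2 * ℓ : ℝ) : ℂ) * u)) (NF_diff hF ℓ) (by fun_prop) ?_ ?_
  · exact mul_ne_zero hz (Complex.exp_ne_zero _)
  · intro u
    unfold NF
    rw [he u]
    ring

lemma NF_cnt {F : ℂ → ℂ} (hF : Differentiable ℂ F) (hne : ∃ u, F u ≠ 0) (ℓ : ℝ) {A B : Set ℂ} {a b : ℝ}
    (h : Cnt F A a) (hBA : B ⊆ A) (hab : a ≤ b) : Cnt (NF F ℓ) B b := by
  intro S hS
  have h1 := h S fun z hz => ⟨NF_zero (hS z hz).1, hBA (hS z hz).2⟩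
  refine le_trans (le_of_eq (Finset.sum_congr rfl fun z _ => ?_)) (h1.trans hab)
  rw [NF_ord hF hne]

/-- crude bound for `DD` on the left -/
lemma crude_DD (Q : Polynomial ℂ) {rc : ℝ} (hrc : 0 < rc) (hrc1 : rc ≤ 1 / 8) : ∃ C : ℝ, 0 ≤ C ∧
    ∀ {m : ℕ} {R d κ ℓ : ℝ} {p : Fin m → ℝ} {g h : ℂ → ℂ}, Dat R d κ ℓ p g h → 0 ≤ ℓ → κ ≤ 1 → ∀ z : ℂ,
      -R + 1 ≤ z.re → z.re ≤ -rc → |z.im| ≤ R - 1 → ‖DD Q g h z‖ ≤ C * Real.exp (2 * ℓ * |z.re| + 2 * ℓ) := by
  obtain ⟨C, hC0, hC⟩ := cauchy_Q Q hrc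
  refine ⟨C + 1, by linarith, ?_⟩
  intro m R d κ ℓ p g h H hℓ hκ z hz1 hz2 hz3
  have e : |z.re| = -z.re := abs_of_nonpos (by linarith)
  have h1 : ‖Dop Q g z‖ ≤ C * Real.exp (2 * ℓ * |z.re| + 2 * ℓ) := by
    refine hC g z _ H.diff fun w hw => ?_
    rw [mem_sphere, dist_eq_norm] at hw
    have b1 := Complex.abs_re_le_norm (w - z)
    have b2 := Complex.abs_im_le_norm (w - z)
    rw [hw, sub_re, abs_le] at b1
    rw [hw, sub_im] at b2
    have b3 : |w.im| ≤ R := by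
      have := abs_sub_abs_le_abs_sub w.im z.im
      linarith
    have b4 : |w.re| = -w.re := abs_of_nonpos (by linarith [b1.2])
    refine (H.cvx w (by rw [b4]; linarith [b1.1]) b3).trans (Real.exp_le_exp.2 ?_)
    rw [b4, e]
    have b5 : max (-w.re) (1 / 2) ≤ -w.re + 1 / 2 := max_le (by linarith) (by linarith [b1.2])
    have b6 : max (-w.re) (1 / 2) - w.re ≤ -(2 * z.re) + 3 / 4 := by linarith [b1.1]
    have b7 := mul_le_mul_of_nonneg_left b6 hℓ
    nlinarith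
  have h2 := H.hup z (by rw [e]; linarith) (by linarith)
  have h3 : Real.exp (κ * ℓ) ≤ Real.exp (2 * ℓ * |z.re| + 2 * ℓ) := by
    apply Real.exp_le_exp.2
    have : 0 ≤ 2 * ℓ * |z.re| := by positivity
    nlinarith
  unfold DD
  refine (norm_sub_le _ _).trans ?_
  linarith

theorem t_MX (h1 : S_LB) (h2 : S_UPR) (h3 : S_DM) : S_MX := by
  intro m Q ρ δ κ' R1 hQ hρ0 hρ1 hδ hδ1 hκ' hR1
  obtain ⟨X0, hX0⟩ : ∃ X0 : ℝ, X0 = R1 + 10 := ⟨_, rfl⟩
  obtain ⟨η0, hη0d⟩ : ∃ η0 : ℝ, η0 = δ / (8 * (X0 + 1)) := ⟨_, rfl⟩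
  have hX11 : 11 ≤ X0 := by linarith
  have hη0 : 0 < η0 := by rw [hη0d]; positivity
  have hη01 : η0 * (X0 + 1) = δ / 8 := by
    rw [hη0d]
    field_simp
  have hη02 : η0 ≤ 1 / 20 := by nlinarith
  obtain ⟨ε, hε, HDM⟩ := h3 η0 κ' 3 hη0 hη02 hκ' (by norm_num)
  obtain ⟨du, κu, Ru, ℓu, hdu, hκu, hRu, HU⟩ := h2 m Q (1 / 2) 1 ε (2 * X0 + 2) (by norm_num) le_rfl one_pos
    hε (by linarith)
  obtain ⟨dl, κl, ℓl, hdl, hκl, HL⟩ := h1 m Q (δ / 8) (min ε 1) hQ (by positivity) (lt_min hε one_pos)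
  obtain ⟨C, hC, HC⟩ := crude_DD Q (rc := δ / 8) (by positivity) (by linarith)
  obtain ⟨δ', hδ'⟩ : ∃ δ' : ℝ, δ' = min (δ / 4) ε := ⟨_, rfl⟩
  have hδ'0 : 0 < δ' := by rw [hδ']; exact lt_min (by positivity) hε
  have hδ'1 : δ' ≤ δ / 4 := by rw [hδ']; exact min_le_left _ _
  have hδ'2 : δ' ≤ ε := by rw [hδ']; exact min_le_right _ _
  obtain ⟨κ, hκd⟩ : ∃ κ : ℝ, κ = min (min κu κl) 1 := ⟨_, rfl⟩
  have hκ : 0 < κ := by rw [hκd]; exact lt_min (lt_min hκu hκl) one_pos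
  have hκ1 : κ ≤ κu := by rw [hκd]; exact (min_le_left _ _).trans (min_le_left _ _)
  have hκ2 : κ ≤ κl := by rw [hκd]; exact (min_le_left _ _).trans (min_le_right _ _)
  have hκ3 : κ ≤ 1 := by rw [hκd]; exact min_le_right _ _
  obtain ⟨R, hR⟩ : ∃ R : ℝ, R = max Ru (2 * X0 + 4) := ⟨_, rfl⟩
  have hRa : Ru ≤ R := by rw [hR]; exact le_max_left _ _
  have hRb : 2 * X0 + 4 ≤ R := by rw [hR]; exact le_max_right _ _
  refine ⟨δ', min du dl, κ, R, max (max ℓu ℓl) (Real.log (C + 1) + 1), hδ'0, lt_min hdu hdl, hκ,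
    by linarith, ?_⟩
  intro ℓ p g h hℓ H hcnt u hu1 hu2 hu3
  have hℓu : ℓu ≤ ℓ := ((le_max_left _ _).trans (le_max_left _ _)).trans hℓ
  have hℓl : ℓl ≤ ℓ := ((le_max_right _ _).trans (le_max_left _ _)).trans hℓ
  have hℓC : Real.log (C + 1) + 1 ≤ ℓ := (le_max_right _ _).trans hℓ
  have hlog : 0 ≤ Real.log (C + 1) := Real.log_nonneg (by linarith)
  have hℓ0 : 0 < ℓ := by linarith
  have hCe : C ≤ Real.exp ℓ := by
    have : C + 1 ≤ Real.exp ℓ := by
      rw [← Real.exp_log (by linarith : 0 < C + 1)]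
      exact Real.exp_le_exp.2 (by linarith)
    linarith
  have Hu := H.mono hRa (min_le_left du dl) hκ1 hℓ0.le
  have Hl := H.mono le_rfl (min_le_right du dl) hκ2 hℓ0.le
  -- the centre
  obtain ⟨c, hc1, hc2⟩ := HL ℓ R p g h ⟨-X0, u.im⟩ hℓl Hl
    (by
      have : min ε 1 ≤ 1 := min_le_right _ _
      simp only
      linarith)
    (by simp only; linarith) (by simp only; linarith)
  have c1 := (Complex.abs_re_le_norm _).trans hc1
  have c2 := (Complex.abs_im_le_norm _).trans hc1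
  rw [sub_re, abs_le] at c1
  rw [sub_im] at c2
  simp only at c1 c2
  have c2' := abs_le.1 c2
  obtain ⟨r, hr⟩ : ∃ r : ℝ, r = -c.re - ρ - δ / 4 := ⟨_, rfl⟩
  have hr0 : 0 < r := by rw [hr]; linarith [c1.2]
  have hr1 : r ≤ X0 + 1 := by rw [hr]; linarith [c1.1]
  have hcre : |c.re| = -c.re := abs_of_nonpos (by linarith [c1.2])
  have hu3' := abs_le.1 hu3
  have hbox : ∀ z : ℂ, ∀ s : ℝ, s ≤ r → z ∈ closedBall c s → c.re - s ≤ z.re ∧ z.re ≤ c.re + s ∧
      |z.im| ≤ 2 * X0 + 2 := by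
    intro z s hs hz
    rw [mem_closedBall, dist_eq_norm] at hz
    have b1 := (Complex.abs_re_le_norm _).trans hz
    have b2 := (Complex.abs_im_le_norm _).trans hz
    rw [sub_re, abs_le] at b1
    rw [sub_im, abs_le] at b2
    refine ⟨by linarith [b1.1], by linarith [b1.2], ?_⟩
    rw [abs_le]
    constructor <;> linarith [b2.1, b2.2, c2'.1, c2'.2, hu3'.1, hu3'.2]
  have hFd := DD_diff H Q
  have hFc : ∃ z, DD Q g h z ≠ 0 := ⟨c, by
    rw [← norm_pos_iff]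
    exact lt_of_lt_of_le (Real.exp_pos _) hc2⟩
  have key := HDM ℓ r c (NF (DD Q g h) ℓ) hℓ0 hr0 (NF_diff hFd ℓ)
    (fun z hz => by
      obtain ⟨b1, b2, b3⟩ := hbox z r le_rfl hz
      have b4 := HC H hℓ0.le hκ3 z (by linarith [c1.1]) (by linarith) (by linarith)
      rw [NF_norm]
      have e : |z.re| = -z.re := abs_of_nonpos (by linarith)
      rw [e] at b4
      calc ‖DD Q g h z‖ * Real.exp (2 * ℓ * z.re) ≤
          (C * Real.exp (2 * ℓ * -z.re + 2 * ℓ)) * Real.exp (2 * ℓ * z.re) :=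
            mul_le_mul_of_nonneg_right b4 (Real.exp_pos _).le
        _ = C * Real.exp (2 * ℓ) := by
            rw [mul_assoc, ← Real.exp_add]
            congr 2
            ring
        _ ≤ Real.exp ℓ * Real.exp (2 * ℓ) := mul_le_mul_of_nonneg_right hCe (Real.exp_pos _).le
        _ = Real.exp (3 * ℓ) := by
            rw [← Real.exp_add]
            congr 1
            ring)
    (fun z hz => by
      obtain ⟨b1, b2, b3⟩ := hbox z _ (by linarith) hz
      have b4 := HU ℓ p g h hℓu Hu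
        (fun v hv => by
          have := Hu.toLoc.right (u := ⟨1 / 2, v⟩) (by simp only; rw [abs_of_pos (by norm_num)]; linarith)
            hv le_rfl
          exact this)
        z (by linarith [c1.1]) (by linarith [c1.2]) (by linarith)
      rw [NF_norm]
      have e : |z.re| = -z.re := abs_of_nonpos (by linarith [c1.2])
      rw [e] at b4
      calc ‖DD Q g h z‖ * Real.exp (2 * ℓ * z.re) ≤
          Real.exp (2 * ℓ * -z.re + ε * ℓ) * Real.exp (2 * ℓ * z.re) :=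
            mul_le_mul_of_nonneg_right b4 (Real.exp_pos _).le
        _ = Real.exp (ε * ℓ) := by
            rw [← Real.exp_add]
            congr 1
            ring)
    (by
      rw [NF_norm]
      rw [hcre] at hc2
      have b5 : min ε 1 ≤ ε := min_le_left _ _
      calc Real.exp (-(ε * ℓ)) ≤ Real.exp (2 * ℓ * -c.re - min ε 1 * ℓ + 2 * ℓ * c.re) := by
            apply Real.exp_le_exp.2
            nlinarith
        _ = Real.exp (2 * ℓ * -c.re - min ε 1 * ℓ) * Real.exp (2 * ℓ * c.re) := Real.exp_add _ _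
        _ ≤ _ := mul_le_mul_of_nonneg_right hc2 (Real.exp_pos _).le)
    (NF_cnt hFd hFc ℓ hcnt (fun z hz => by
      obtain ⟨b1, b2, b3⟩ := hbox z ((1 - η0 / 4) * r) (by nlinarith) hz
      have b4 : (1 - η0 / 4) * r ≤ r := by nlinarith
      exact ⟨by linarith [c1.1], by linarith, by linarith⟩)
      (mul_le_mul_of_nonneg_right hδ'2 hℓ0.le))
    u (by
      rw [mem_closedBall, dist_eq_norm]
      refine (Complex.norm_le_abs_re_add_abs_im _).trans ?_
      rw [sub_re, sub_im]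
      have b1 : |u.re - c.re| = u.re - c.re := abs_of_nonneg (by linarith [c1.2])
      have b2 : |u.im - c.im| ≤ δ / 8 := by
        rw [abs_sub_comm]
        exact c2
      have b3 : η0 * r ≤ δ / 8 := by
        rw [← hη01]
        exact mul_le_mul_of_nonneg_left hr1 hη0.le
      rw [b1]
      nlinarith)
  rw [NF_norm] at key
  have e : |u.re| = -u.re := abs_of_nonpos (by linarith)
  rw [e]
  calc ‖DD Q g h u‖ = ‖DD Q g h u‖ * Real.exp (2 * ℓ * u.re) * Real.exp (-(2 * ℓ * u.re)) := by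
        rw [mul_assoc, ← Real.exp_add, add_neg_cancel, Real.exp_zero, mul_one]
    _ ≤ Real.exp (κ' * ℓ) * Real.exp (-(2 * ℓ * u.re)) := mul_le_mul_of_nonneg_right key (Real.exp_pos _).le
    _ = _ := by
        rw [← Real.exp_add]
        congr 1
        ring

end Pool.Agent.T3h43.SL
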