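import Pool.Agent.T3h43.SL.Stm

/-!
# Project SL: the three lines theorem on rectangles of variable width
-/

set_option autoImplicit false

open Complex Metric Set

namespace Pool.Agent.T3h43.SL

open Pool.Agent.W169.HF (S_RECT)

theorem t_RB (h : S_RECT) : S_RB := by
  intro A b0 κ R1 hA hb0 hκ hR1
  obtain ⟨κ1, R, hκ1, hR, H⟩ := h A 1 κ (max 1 (R1 / b0)) hA one_pos (by norm_num) hκ (le_max_left _ _)
  have hR0 : 1 ≤ R := (le_max_left _ _).trans hR
  refine ⟨κ1, max R1 (6 * R), hκ1, le_max_left _ _, ?_⟩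
  intro ℓ x0 b a0 a1 HH f hℓ hHH hb hb6 hf ha0 ha1 hl hr hc u hu1 hu2 hu3
  have hbp : 0 < b := hb0.trans_le hb
  have hbR : b * R ≤ max R1 (6 * R) := le_trans (by nlinarith) (le_max_right _ _)
  have hre : ∀ w : ℂ, ((b : ℂ) * w).re = b * w.re := fun w => by simp
  have him : ∀ w : ℂ, ((b : ℂ) * w).im = b * w.im := fun w => by simp
  have himb : ∀ w : ℂ, |w.im| ≤ R → |((b : ℂ) * w).im| ≤ max R1 (6 * R) := fun w hw => by
    rw [him, abs_mul, abs_of_pos hbp]
    refine le_trans ?_ hbR
    exact mul_le_mul_of_nonneg_left hw hbp.le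
  have key := H ℓ (x0 / b) a0 a1 HH (fun w => f (b * w)) hℓ hHH (hf.comp (by fun_prop)) ha0 ha1
    (fun w a1 a2 => hl _ (by rw [hre, a1]; field_simp) (himb w a2))
    (fun w a1 a2 => hr _ (by rw [hre, a1]; field_simp) (himb w a2))
    (fun w a1 a2 a3 => hc _ (by rw [hre]; rw [div_le_iff₀ hbp] at a1; linarith)
      (by
        rw [hre]
        have : b * w.re ≤ b * (x0 / b + 1) := mul_le_mul_of_nonneg_left a2 hbp.le
        have e : b * (x0 / b + 1) = x0 + b := by field_simp
        linarith)
      (himb w a3.le))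
    (u / b) (by
      have e : (u / b).re = u.re / b := by rw [Complex.div_ofReal_re]
      rw [e]
      exact div_le_div_of_nonneg_right hu1 hbp.le)
    (by
      have e : (u / b).re = u.re / b := by rw [Complex.div_ofReal_re]
      rw [e]
      have e2 : x0 / b + 1 = (x0 + b) / b := by field_simp
      rw [e2]
      exact div_le_div_of_nonneg_right hu2 hbp.le)
    (by
      have e : (u / b).im = u.im / b := by rw [Complex.div_ofReal_im]
      rw [e, abs_div, abs_of_pos hbp]
      refine le_trans ?_ (le_max_right _ _)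
      exact div_le_div₀ (by linarith) hu3 hb0 hb)
  have e : (b : ℂ) * (u / b) = u := by
    have : (b : ℂ) ≠ 0 := by exact_mod_cast hbp.ne'
    field_simp
  simp only [e] at key
  refine key.trans (le_of_eq ?_)
  have e2 : (u / (b : ℂ)).re = u.re / b := by rw [Complex.div_ofReal_re]
  rw [e2]
  congr 3
  have e3 : (u.re / b - x0 / b) / 1 = (u.re - x0) / b := by ring
  rw [e3]

end Pool.Agent.T3h43.SL
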