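import Pool.Agent.T3h43.SL.Stm

/-!
# Project SL: the bound for `DD` on the left of `-ρ` gives the bound for `g` at `ρ`
-/

set_option autoImplicit false

open Complex Metric Set

namespace Pool.Agent.T3h43.SL

lemma convex_box (a b c : ℝ) : Convex ℝ {u : ℂ | a ≤ u.re ∧ u.re ≤ b ∧ |u.im| ≤ c} := by
  have h := ((convex_halfSpace_re_ge a).inter (convex_halfSpace_re_le b)).inter
    ((convex_halfSpace_im_ge (-c)).inter (convex_halfSpace_im_le c))
  convert h using 1
  ext u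
  simp only [mem_setOf_eq, mem_inter_iff, abs_le]
  tauto

lemma norm_le_re_im (z : ℂ) : ‖z‖ ≤ |z.re| + |z.im| := Complex.norm_le_abs_re_add_abs_im z

theorem t_S2 (h1 : S_PG) (h2 : S_GRID) (h3 : S_RB) : S_S2 := by
  intro m Q' ρ ε hQ' hρ0 hρ1 hε
  obtain ⟨r, hr⟩ : ∃ r : ℝ, r = min ε 1 / 16 := ⟨_, rfl⟩
  have hr0 : 0 < r := by rw [hr]; exact div_pos (lt_min hε one_pos) (by norm_num)
  have hr1 : r ≤ 1 / 16 := by rw [hr]; have := min_le_right ε 1; linarith
  have hrε : 16 * r ≤ ε := by rw [hr]; have := min_le_left ε 1; linarith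
  obtain ⟨X, hX⟩ : ∃ X : ℝ, X = ρ + r := ⟨_, rfl⟩
  obtain ⟨κa, Ra, hκa, hRa, HA⟩ := h3 4 r (r / 8) 1 (by norm_num) hr0 (by positivity) le_rfl
  obtain ⟨κb, Rb, hκb, hRb, HB⟩ := h3 4 r r 1 (by norm_num) hr0 hr0 le_rfl
  obtain ⟨RR, hRR⟩ : ∃ RR : ℝ, RR = max Ra Rb := ⟨_, rfl⟩
  have hRRa : Ra ≤ RR := by rw [hRR]; exact le_max_left _ _
  have hRRb : Rb ≤ RR := by rw [hRR]; exact le_max_right _ _
  have hRR1 : 1 ≤ RR := hRa.trans hRRa
  obtain ⟨C1, hC1, HP⟩ := h1 Q' (r / 8) (RR + 3) hQ' (by positivity) (by linarith)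
  obtain ⟨η, hη⟩ : ∃ η : ℝ, η = r / (8 * (m + 1)) := ⟨_, rfl⟩
  have hm0 : (0 : ℝ) ≤ m := Nat.cast_nonneg m
  have hη0 : 0 < η := by rw [hη]; positivity
  have hmη : (m + 1) * η = r / 8 := by
    rw [hη]
    field_simp
  obtain ⟨q, hq⟩ : ∃ q : ℝ, q = min (min κa κb) r / 4 := ⟨_, rfl⟩
  have hq0 : 0 < q := by rw [hq]; exact div_pos (lt_min (lt_min hκa hκb) hr0) (by norm_num)
  have hqa : 4 * q ≤ κa := by
    rw [hq]
    have := (min_le_left (min κa κb) r).trans (min_le_left _ _)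
    linarith
  have hqb : 4 * q ≤ κb := by
    rw [hq]
    have := (min_le_left (min κa κb) r).trans (min_le_right _ _)
    linarith
  have hqr : 4 * q ≤ r := by
    rw [hq]
    have := min_le_right (min κa κb) r
    linarith
  refine ⟨r / 8, r / 2, η / 2, q, RR + 1, (Real.log (4 * C1) + 1) / q, by positivity, by linarith,
    by positivity, by positivity, hq0, by linarith, ?_⟩
  intro ℓ p g h hℓ H hbd
  have hC1' : 0 < 4 * C1 := by linarith
  have hlogC : 0 ≤ Real.log (4 * C1) := Real.log_nonneg (by linarith)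
  have hqℓ : Real.log (4 * C1) + 1 ≤ q * ℓ := by
    rw [div_le_iff₀ hq0] at hℓ
    linarith
  have hℓ0 : 0 < ℓ := by
    by_contra hcon
    push Not at hcon
    nlinarith
  have hexp : 4 * C1 ≤ Real.exp (q * ℓ) := by
    rw [← Real.exp_log hC1']
    exact Real.exp_le_exp.2 (by linarith)
  obtain ⟨Q, hQ⟩ : ∃ Q : Set ℂ, Q = {u : ℂ | -X ≤ u.re ∧ u.re ≤ -ρ - r / 8 ∧ |u.im| ≤ RR} := ⟨_, rfl⟩
  have hQc : Convex ℝ Q := by rw [hQ]; exact convex_box _ _ _
  obtain ⟨b, hb⟩ : ∃ b : ℂ, b = ((-(ρ + r / 2) : ℝ) : ℂ) := ⟨_, rfl⟩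
  have hbre : b.re = -(ρ + r / 2) := by rw [hb, ofReal_re]
  have hbim : b.im = 0 := by rw [hb, ofReal_im]
  have hball : ∀ u ∈ closedBall b (r / 8), -(ρ + 5 * r / 8) ≤ u.re ∧ u.re ≤ -(ρ + 3 * r / 8) ∧
      |u.im| ≤ r / 8 := by
    intro u hu
    rw [mem_closedBall, dist_eq_norm] at hu
    have a1 := (Complex.abs_re_le_norm _).trans hu
    have a2 := (Complex.abs_im_le_norm _).trans hu
    rw [sub_re, hbre, abs_le] at a1
    rw [sub_im, hbim, sub_zero] at a2
    exact ⟨by linarith [a1.1], by linarith [a1.2], a2⟩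
  have hsub1 : closedBall b (r / 8) ⊆ Q := by
    intro u hu
    obtain ⟨a1, a2, a3⟩ := hball u hu
    rw [hQ]
    exact ⟨by rw [hX]; linarith, by linarith, by linarith⟩
  have hsub2 : Q ⊆ closedBall b (RR + 3) := by
    intro u hu
    rw [hQ] at hu
    obtain ⟨a1, a2, a3⟩ := hu
    rw [mem_closedBall, dist_eq_norm]
    refine (norm_le_re_im _).trans ?_
    rw [sub_re, sub_im, hbre, hbim, sub_zero]
    have : |u.re - -(ρ + r / 2)| ≤ 3 := by
      rw [abs_le]
      constructor <;> linarith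
    linarith
  obtain ⟨B, hB⟩ : ∃ B : ℝ, B = 2 * Real.exp ((2 * X + r / 2) * ℓ) := ⟨_, rfl⟩
  have hgk : ∀ u ∈ Q, ‖Dop Q' g u‖ ≤ B := by
    intro u hu
    rw [hQ] at hu
    obtain ⟨a1, a2, a3⟩ := hu
    have a4 := hbd u (by linarith) a2 (by linarith)
    have a5 : |u.re| ≤ X := by
      rw [abs_le]
      constructor <;> linarith
    have a6 := H.hup u (by linarith) (by linarith)
    have e : Dop Q' g u = DD Q' g h u + h u := by unfold DD; ring
    rw [e, hB]
    refine (norm_add_le _ _).trans ?_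
    have a7 : Real.exp (2 * ℓ * |u.re| + r / 2 * ℓ) ≤ Real.exp ((2 * X + r / 2) * ℓ) :=
      Real.exp_le_exp.2 (by nlinarith)
    have a8 : Real.exp (q * ℓ) ≤ Real.exp ((2 * X + r / 2) * ℓ) :=
      Real.exp_le_exp.2 (mul_le_mul_of_nonneg_right (by linarith) hℓ0.le)
    linarith
  have hB2 : B ≤ Real.exp ((2 * X + r) * ℓ) := by
    rw [hB]
    have a1 : (2 : ℝ) ≤ Real.exp (q * ℓ) := by linarith
    have e : Real.exp ((2 * X + r) * ℓ) = Real.exp (r / 2 * ℓ) * Real.exp ((2 * X + r / 2) * ℓ) := by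
      rw [← Real.exp_add]
      congr 1
      ring
    rw [e]
    apply mul_le_mul_of_nonneg_right _ (Real.exp_pos _).le
    refine a1.trans (Real.exp_le_exp.2 (mul_le_mul_of_nonneg_right (by linarith) hℓ0.le))
  obtain ⟨uc, huc, hmax⟩ := (isCompact_closedBall b (r / 8)).exists_isMaxOn
    ⟨b, mem_closedBall_self (by positivity)⟩ (H.diff.continuous.norm.continuousOn)
  obtain ⟨τ, hτ⟩ : ∃ τ : ℝ, τ = ‖g uc‖ := ⟨_, rfl⟩
  have hPG := HP g b Q B τ H.diff hQc hsub1 hsub2 hgk (fun u hu => by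
    rw [hτ]
    exact hmax hu)
  -- the good line
  obtain ⟨i, him, hgood⟩ := h2 m p (-X) η hη0 (by rw [hmη]; linarith)
  obtain ⟨x0, hx0⟩ : ∃ x0 : ℝ, x0 = X - i * η := ⟨_, rfl⟩
  have hiη : (i : ℝ) * η ≤ r / 8 := by
    have a1 : (i : ℝ) ≤ m := by exact_mod_cast him
    have a2 := mul_le_mul_of_nonneg_right a1 hη0.le
    linarith
  have hiη0 : 0 ≤ (i : ℝ) * η := by positivity
  have hgood' : Good p (η / 2) (-x0) := by
    have e : -x0 = -X + i * η := by rw [hx0]; ring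
    rw [e]
    exact hgood
  have hx0a : X - r / 8 ≤ x0 := by rw [hx0]; linarith
  have hx0b : x0 ≤ X := by rw [hx0]; linarith
  have hrefl : ∀ v : ℝ, |v| ≤ RR → ‖g ⟨x0, v⟩‖ ≤ Real.exp (-(2 * ℓ * x0) + q * ℓ) * ‖g ⟨-x0, v⟩‖ :=
    fun v hv => H.rlo x0 v (by linarith) (by linarith) (by linarith) hgood'
  have hcrude : ∀ u : ℂ, -x0 ≤ u.re → u.re ≤ x0 → |u.im| ≤ RR → ‖g u‖ ≤ Real.exp (4 * ℓ) := by
    intro u a1 a2 a3
    have a4 : |u.re| ≤ 1 := by
      rw [abs_le]
      constructor <;> linarith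
    refine (H.cvx u (by linarith) (by linarith)).trans (Real.exp_le_exp.2 ?_)
    have a5 : max |u.re| (1 / 2) ≤ 1 := max_le a4 (by norm_num)
    have a6 : max |u.re| (1 / 2) - u.re ≤ 2 := by linarith
    have a7 : ℓ * (max |u.re| (1 / 2) - u.re) ≤ ℓ * 2 := mul_le_mul_of_nonneg_left a6 hℓ0.le
    nlinarith
  have hQline : ∀ u : ℂ, u.re = -x0 → |u.im| ≤ RR → u ∈ Q := by
    intro u a1 a2
    rw [hQ]
    exact ⟨by linarith, by linarith, a2⟩
  have hτle : τ ≤ Real.exp ((2 * X + r) * ℓ) := by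
    by_contra hcon
    push Not at hcon
    have hτ1 : 1 ≤ τ := by
      refine le_trans ?_ hcon.le
      apply Real.one_le_exp
      have : 0 ≤ 2 * X + r := by linarith
      positivity
    have hτ0 : 0 < τ := by linarith
    have hgQ : ∀ u ∈ Q, ‖g u‖ ≤ τ * Real.exp (q * ℓ) := by
      intro u hu
      refine (hPG u hu).trans ?_
      have a1 : τ + B ≤ 2 * τ := by linarith
      calc C1 * (τ + B) ≤ C1 * (2 * τ) := mul_le_mul_of_nonneg_left a1 (by linarith)
        _ ≤ τ * (4 * C1) := by nlinarith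
        _ ≤ _ := mul_le_mul_of_nonneg_left hexp hτ0.le
    obtain ⟨b1, b2, b3⟩ := hball uc huc
    have key := HA ℓ (-x0) (2 * x0) 0 (-(2 * x0)) τ g hℓ0.le hτ0 (by linarith) (by linarith) H.diff
      (by simp) (by rw [abs_neg, abs_of_pos (by linarith)]; linarith)
      (fun u a1 a2 => by
        refine (hgQ u (hQline u a1 (by linarith))).trans ?_
        apply mul_le_mul_of_nonneg_left _ hτ0.le
        apply Real.exp_le_exp.2
        nlinarith)
      (fun u a1 a2 => by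
        have e : u = ⟨x0, u.im⟩ := by
          apply Complex.ext
          · rw [a1]; ring
          · rfl
        rw [e]
        refine (hrefl u.im (by linarith)).trans ?_
        have a4 := hgQ ⟨-x0, u.im⟩ (hQline _ rfl (by simp only; linarith))
        calc Real.exp (-(2 * ℓ * x0) + q * ℓ) * ‖g ⟨-x0, u.im⟩‖ ≤
            Real.exp (-(2 * ℓ * x0) + q * ℓ) * (τ * Real.exp (q * ℓ)) :=
              mul_le_mul_of_nonneg_left a4 (Real.exp_pos _).le
          _ = τ * Real.exp (-(2 * ℓ * x0) + q * ℓ + q * ℓ) := by rw [Real.exp_add (_ + _)]; ring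
          _ ≤ _ := by
            apply mul_le_mul_of_nonneg_left _ hτ0.le
            apply Real.exp_le_exp.2
            nlinarith)
      (fun u a1 a2 a3 => by
        refine (hcrude u a1 (by linarith) (by linarith)).trans ?_
        nlinarith [Real.exp_pos (4 * ℓ)])
      uc (by linarith) (by linarith) (by linarith)
    rw [← hτ] at key
    have hx0p : 0 < x0 := by linarith
    have e1 : 0 + (-(2 * x0) - 0) * ((uc.re - -x0) / (2 * x0)) = -(uc.re + x0) := by
      field_simp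
      ring
    rw [e1] at key
    have e2 : Real.exp (ℓ * -(uc.re + x0) + r / 8 * ℓ) < 1 := by
      rw [Real.exp_lt_one_iff]
      have : r / 4 ≤ uc.re + x0 := by linarith
      nlinarith
    nlinarith
  have hgQ : ∀ u ∈ Q, ‖g u‖ ≤ Real.exp ((2 * X + r) * ℓ + q * ℓ) := by
    intro u hu
    refine (hPG u hu).trans ?_
    have a1 : τ + B ≤ 2 * Real.exp ((2 * X + r) * ℓ) := by linarith
    have a2 := Real.exp_pos ((2 * X + r) * ℓ)
    calc C1 * (τ + B) ≤ C1 * (2 * Real.exp ((2 * X + r) * ℓ)) := mul_le_mul_of_nonneg_left a1 (by linarith)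
      _ ≤ Real.exp ((2 * X + r) * ℓ) * (4 * C1) := by nlinarith
      _ ≤ Real.exp ((2 * X + r) * ℓ) * Real.exp (q * ℓ) := mul_le_mul_of_nonneg_left hexp a2.le
      _ = _ := by rw [← Real.exp_add]
  have key := HB ℓ (-x0) (2 * x0) (2 * X + r) (2 * X + r - 2 * x0) 1 g hℓ0.le one_pos (by linarith)
    (by linarith) H.diff (by rw [abs_le]; constructor <;> linarith) (by rw [abs_le]; constructor <;> linarith)
    (fun u a1 a2 => by
      refine (hgQ u (hQline u a1 (by linarith))).trans ?_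
      rw [one_mul]
      apply Real.exp_le_exp.2
      nlinarith)
    (fun u a1 a2 => by
      have e : u = ⟨x0, u.im⟩ := by
        apply Complex.ext
        · rw [a1]; ring
        · rfl
      rw [e]
      refine (hrefl u.im (by linarith)).trans ?_
      have a4 := hgQ ⟨-x0, u.im⟩ (hQline _ rfl (by simp only; linarith))
      calc Real.exp (-(2 * ℓ * x0) + q * ℓ) * ‖g ⟨-x0, u.im⟩‖ ≤
          Real.exp (-(2 * ℓ * x0) + q * ℓ) * Real.exp ((2 * X + r) * ℓ + q * ℓ) :=
            mul_le_mul_of_nonneg_left a4 (Real.exp_pos _).le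
        _ = Real.exp (-(2 * ℓ * x0) + q * ℓ + ((2 * X + r) * ℓ + q * ℓ)) := by rw [← Real.exp_add]
        _ ≤ _ := by
          rw [one_mul]
          apply Real.exp_le_exp.2
          nlinarith)
    (fun u a1 a2 a3 => by
      rw [one_mul]
      exact hcrude u a1 (by linarith) (by linarith))
    ρ (by rw [ofReal_re]; linarith) (by rw [ofReal_re]; linarith) (by simp)
  refine key.trans ?_
  rw [one_mul, ofReal_re]
  apply Real.exp_le_exp.2
  have hx0p : 0 < x0 := by linarith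
  have e1 : 2 * X + r + (2 * X + r - 2 * x0 - (2 * X + r)) * ((ρ - -x0) / (2 * x0)) =
      2 * X + r - (ρ + x0) := by
    field_simp
    ring
  rw [e1]
  have e2 : 2 * X + r - (ρ + x0) + r ≤ ε := by
    rw [hX] at hx0a ⊢
    linarith
  nlinarith

end Pool.Agent.T3h43.SL
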