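import Pool.Agent.T3h43.SL.Stm

/-!
# Project SL: assembly of A and B
-/

set_option autoImplicit false

open Complex Metric Set

namespace Pool.Agent.T3h43.SL

open Pool.Agent.W169.HF (Cnt)

lemma cnt_union {F : ℂ → ℂ} {A B E : Set ℂ} {a b c : ℝ} (hA : Cnt F A a) (hB : Cnt F B b)
    (hE : E ⊆ A ∪ B) (hc : a + b ≤ c) : Cnt F E c := by
  classical
  intro S hS
  have e := Finset.sum_filter_add_sum_filter_not S (fun z => z ∈ A) (fun z => (analyticOrderNatAt F z : ℝ))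
  rw [← e]
  have h1 := hA (S.filter fun z => z ∈ A) (fun z hz => by
    rw [Finset.mem_filter] at hz
    exact ⟨(hS z hz.1).1, hz.2⟩)
  have h2 := hB (S.filter fun z => z ∉ A) (fun z hz => by
    rw [Finset.mem_filter] at hz
    exact ⟨(hS z hz.1).1, (hE (hS z hz.1).2).resolve_left hz.2⟩)
  linarith

theorem t_B (h1 : S_UPR) (h2 : S_JN) : S_B := by
  intro m Q ρ δ ε R1 hQ hρ0 hρ1 hδ hδ1 hε hR1
  obtain ⟨dj, κj, Rj, ℓj, hdj, hκj, hRj, HJ⟩ := h2 m Q ρ δ ε R1 hQ hρ0 hρ1 hδ hδ1 hε hR1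
  obtain ⟨du, κu, Ru, ℓu, hdu, hκu, hRu, HU⟩ := h1 m Q ρ (δ / 2) κj Rj hρ0 hρ1 (by positivity) hκj
    (hR1.trans hRj)
  refine ⟨min dj du, min κj κu, Ru, max (max ℓj ℓu) 0, lt_min hdj hdu, lt_min hκj hκu, hRj.trans hRu, ?_⟩
  intro ℓ p g h hℓ H hline
  have hℓ0 : 0 ≤ ℓ := (le_max_right _ _).trans hℓ
  have hℓj : ℓj ≤ ℓ := ((le_max_left _ _).trans (le_max_left _ _)).trans hℓ
  have hℓu : ℓu ≤ ℓ := ((le_max_right _ _).trans (le_max_left _ _)).trans hℓ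
  exact HJ ℓ p g h hℓj (H.mono hRu (min_le_left _ _) (min_le_left _ _) hℓ0)
    (HU ℓ p g h hℓu (H.mono le_rfl (min_le_right _ _) (min_le_right _ _) hℓ0) fun v hv =>
      (hline v hv).trans (Real.exp_le_exp.2 (mul_le_mul_of_nonneg_right (min_le_right _ _) hℓ0)))

theorem t_A (h1 : S_S2) (h2 : S_MX) (h3 : S_B) : S_A := by
  intro m Q ρ ε hQ hρ0 hρ1 hε
  obtain ⟨δ2, κ2', d2, κ2, R2, ℓ2, hδ2, hδ21, hκ2', hd2, hκ2, hR2, H2⟩ := h1 m Q ρ ε hQ hρ0 hρ1 hε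
  obtain ⟨δ', dx, κx, Rx, ℓx, hδ', hdx, hκx, hRx, HX⟩ := h2 m Q ρ δ2 κ2' R2 hQ hρ0 hρ1 hδ2 hδ21 hκ2' hR2
  obtain ⟨db, κb, Rb, ℓb, hdb, hκb, hRb, HB⟩ := h3 m Q (1 / 2) 1 (δ' / 2) Rx hQ (by norm_num) le_rfl one_pos le_rfl
    (by positivity) (hR2.trans hRx)
  refine ⟨δ' / 2, min (min d2 dx) db, min (min κ2 κx) κb, Rb, max (max (max ℓ2 ℓx) ℓb) 0, by positivity,
    lt_min (lt_min hd2 hdx) hdb, lt_min (lt_min hκ2 hκx) hκb, by linarith, ?_⟩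
  intro ℓ p g h hℓ H hcnt
  have hℓ0 : 0 ≤ ℓ := (le_max_right _ _).trans hℓ
  have hℓ3 : max (max ℓ2 ℓx) ℓb ≤ ℓ := (le_max_left _ _).trans hℓ
  have hℓb : ℓb ≤ ℓ := (le_max_right _ _).trans hℓ3
  have hℓ4 : max ℓ2 ℓx ≤ ℓ := (le_max_left _ _).trans hℓ3
  have hℓ2 : ℓ2 ≤ ℓ := (le_max_left _ _).trans hℓ4
  have hℓx : ℓx ≤ ℓ := (le_max_right _ _).trans hℓ4
  have Hb := H.mono le_rfl (min_le_right (min d2 dx) db) (min_le_right (min κ2 κx) κb) hℓ0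
  have Hx := H.mono hRb ((min_le_left (min d2 dx) db).trans (min_le_right _ _))
    ((min_le_left (min κ2 κx) κb).trans (min_le_right _ _)) hℓ0
  have H2' := H.mono (hRx.trans hRb) ((min_le_left (min d2 dx) db).trans (min_le_left _ _))
    ((min_le_left (min κ2 κx) κb).trans (min_le_left _ _)) hℓ0
  have hb := HB ℓ p g h hℓb Hb (fun v hv => by
    have := Hb.toLoc.right (u := ⟨1 / 2, v⟩)
      (by simp only; rw [abs_of_pos (by norm_num)]; linarith) hv le_rfl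
    exact this)
  refine H2 ℓ p g h hℓ2 H2' (fun u hu1 hu2 hu3 => HX ℓ p g h hℓx Hx ?_ u (by linarith) hu2 hu3)
  refine cnt_union hcnt hb (fun z hz => ?_) (by linarith)
  obtain ⟨a1, a2, a3⟩ := hz
  rcases le_total z.re (-(3 / 2)) with h4 | h4
  · right
    exact ⟨a1, by linarith, a3⟩
  · left
    exact ⟨h4, by linarith, a3.trans hRb⟩

end Pool.Agent.T3h43.SL
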