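import Pool.Agent.T3h43.SL.LOC
import Pool.Agent.T3h43.SL.Asm
import Pool.Agent.W169.HF.Fam4

/-!
# Project SL: the theorems for standard L-functions
-/

set_option autoImplicit false

open Complex Metric Set

namespace Pool.Agent.T3h43.SL

open Pool.Agent.W169.HF H353.E H353.F

/-! ### translations -/

lemma Dop_shift (Q : Polynomial ℂ) (F : ℂ → ℂ) (a u : ℂ) :
    Dop Q (fun v => F (a + v)) u = Dop Q F (a + u) := by
  unfold Dop
  simp only [iteratedDeriv_comp_const_add]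

lemma cnt_zero {F : ℂ → ℂ} (hF : ∀ u, F u = 0) {A : Set ℂ} {c : ℝ} (hc : 0 ≤ c) : Cnt F A c := by
  intro S _
  have e : F = fun _ => 0 := funext hF
  have h1 : ∀ z, analyticOrderNatAt F z = 0 := by
    intro z
    have h2 : analyticOrderAt F z = ⊤ := by
      rw [analyticOrderAt_eq_top]
      exact Filter.Eventually.of_forall hF
    unfold analyticOrderNatAt
    rw [h2]
    rfl
  simp only [h1, Nat.cast_zero, Finset.sum_const_zero]
  exact hc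

/-- counting zeros after a translation -/
lemma cnt_unshift {F G : ℂ → ℂ} (hF : Differentiable ℂ F) (a : ℂ) (hG : ∀ u, G u = F (a + u)) {A B : Set ℂ}
    {c : ℝ} (hc : 0 ≤ c) (h : Cnt F B c) (hAB : ∀ u ∈ A, a + u ∈ B) : Cnt G A c := by
  have hGe : G = fun u => F (a + u) := funext hG
  by_cases hne : ∃ u, F u ≠ 0
  · have hGd : Differentiable ℂ G := by rw [hGe]; exact hF.comp (by fun_prop)
    have hGne : ∃ u, G u ≠ 0 := by
      obtain ⟨u, hu⟩ := hne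
      exact ⟨u - a, by rw [hG, add_sub_cancel]; exact hu⟩
    refine cnt_shift hGd hGne (-a) (A := B) ?_ (fun u hu _ => by
      have := hAB u hu
      rwa [sub_neg_eq_add, add_comm])
    have e : (fun u => G (-a + u)) = F := by
      funext u
      rw [hG]
      congr 1
      ring
    rw [e]
    exact h
  · push Not at hne
    exact cnt_zero (fun u => by rw [hG, hne]) hc

lemma cnt_shift' {F G : ℂ → ℂ} (hF : Differentiable ℂ F) (a : ℂ) (hG : ∀ u, G u = F (a + u)) {A B : Set ℂ}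
    {c : ℝ} (hc : 0 ≤ c) (h : Cnt G A c) (hAB : ∀ z ∈ B, z - a ∈ A) : Cnt F B c := by
  by_cases hne : ∃ u, F u ≠ 0
  · refine cnt_shift hF hne a ?_ fun z hz _ => hAB z hz
    rwa [← funext hG]
  · push Not at hne
    exact cnt_zero hne hc

/-! ### the local theorems -/

/-- the function whose zeros are counted -/
noncomputable def FF {m : ℕ} (Q : Polynomial ℂ) (μ : Fin m → ℂ) (Λ h : ℂ → ℂ) (s : ℂ) : ℂ :=
  Dop Q (LL μ Λ) s - h s

variable {m : ℕ} {Q : Polynomial ℂ}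

lemma FF_diff {μ : Fin m → ℂ} {Λ h : ℂ → ℂ} (hΛ : Differentiable ℂ Λ) (hh : Differentiable ℂ h) :
    Differentiable ℂ (FF Q μ Λ h) := (Dop_diff (LL_diff hΛ) Q).sub hh

lemma DD_FF (μ : Fin m → ℂ) (Λ h : ℂ → ℂ) (a u : ℂ) :
    DD Q (fun v => LL μ Λ (a + v)) (fun v => h (a + v)) u = FF Q μ Λ h (a + u) := by
  unfold DD FF
  rw [Dop_shift]

lemma re_c (y : ℝ) (u : ℂ) : (1 / 2 + (y : ℂ) * I + u).re = 1 / 2 + u.re := by simp

lemma im_c (y : ℝ) (u : ℂ) : (1 / 2 + (y : ℂ) * I + u).im - y = u.im := by simp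

lemma dat_of {N : ℝ} {μ : Fin m → ℂ} {Λ h : ℂ → ℂ} {R d κ y κ1 : ℝ}
    (H : Loc R d κ (1 / 2 * Real.log (cnd N μ y)) (fun j => (μ j).re - 1 / 2)
      (fun u => LL μ Λ (1 / 2 + (y : ℂ) * I + u))) (hh : Differentiable ℂ h)
    (hL : 0 ≤ Real.log (cnd N μ y)) (hκ : 2 * κ1 ≤ κ)
    (hb : ∀ z : ℂ, |z.re| ≤ R + 1 → |z.im - y| ≤ R + 1 → ‖h z‖ ≤ Real.exp (κ1 * Real.log (cnd N μ y))) :
    Dat R d κ (1 / 2 * Real.log (cnd N μ y)) (fun j => (μ j).re - 1 / 2)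
      (fun u => LL μ Λ (1 / 2 + (y : ℂ) * I + u)) (fun u => h (1 / 2 + (y : ℂ) * I + u)) where
  toLoc := H
  hdiff := hh.comp (by fun_prop)
  hup := fun u h1 h2 => by
    refine (hb _ ?_ ?_).trans (Real.exp_le_exp.2 ?_)
    · rw [re_c]
      rw [abs_le] at h1 ⊢
      constructor <;> linarith [h1.1, h1.2]
    · rw [im_c]
      linarith
    · nlinarith

/-- few zeros on the left of `1/2 - ρ` give the bound at `1/2 + ρ` -/
theorem locA (hA : S_A) (hL : S_LOC) (hm : 1 ≤ m) (hQ : Q ≠ 0) {ρ ε : ℝ} (hρ0 : 0 ≤ ρ) (hρ1 : ρ ≤ 1 / 2)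
    (hε : 0 < ε) : ∃ δ W C0 : ℝ, 0 < δ ∧ 1 ≤ W ∧ ∀ (N : ℝ) (μ : Fin m → ℂ) (α : Fin m → ℕ → ℂ) (e : ℂ)
    (Λ : ℂ → ℂ), Std N μ α e Λ → ∀ y : ℝ, C0 ≤ cnd N μ y → ∀ h : ℂ → ℂ, Differentiable ℂ h →
    (∀ z : ℂ, |z.re| ≤ W → |z.im - y| ≤ W → ‖h z‖ ≤ Real.exp (δ * Real.log (cnd N μ y))) →
    Cnt (FF Q μ Λ h) {z : ℂ | -1 ≤ z.re ∧ z.re ≤ 1 / 2 - ρ - δ ∧ |z.im - y| ≤ W}
      (δ * Real.log (cnd N μ y)) →
    ‖LL μ Λ (1 / 2 + (ρ : ℂ) + (y : ℂ) * I)‖ ≤ Real.exp (ε * Real.log (cnd N μ y)) := by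
  obtain ⟨δA, d, κ, R, ℓ0, hδA, hd, hκ, hR, HA⟩ := hA m Q ρ (2 * ε) hQ hρ0 hρ1 (by positivity)
  obtain ⟨C1, HL⟩ := hL m R (min d 1) κ hm hR (lt_min hd one_pos) (min_le_right _ _) hκ
  obtain ⟨δ, hδd⟩ : ∃ δ : ℝ, δ = min δA κ / 2 := ⟨_, rfl⟩
  have hδ : 0 < δ := by rw [hδd]; exact div_pos (lt_min hδA hκ) two_pos
  have hδ1 : 2 * δ ≤ δA := by rw [hδd]; have := min_le_left δA κ; linarith
  have hδ2 : 2 * δ ≤ κ := by rw [hδd]; have := min_le_right δA κ; linarith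
  refine ⟨δ, R + 1, max C1 (Real.exp (2 * |ℓ0|)), hδ, by linarith, ?_⟩
  intro N μ α e Λ hS y hC h hh hb hcnt
  have hLL : 2 * |ℓ0| ≤ Real.log (cnd N μ y) := lt_log ((le_max_right _ _).trans hC)
  have hL0 : 0 ≤ Real.log (cnd N μ y) := by linarith [abs_nonneg ℓ0]
  have H := HL N μ α e Λ hS y ((le_max_left _ _).trans hC)
  have HD := dat_of (H.mono le_rfl (min_le_left _ _) le_rfl (by positivity)) hh hL0 hδ2 hb
  have key := HA _ _ _ _ (by linarith [le_abs_self ℓ0]) HD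
    (cnt_mono (cnt_unshift (A := {z : ℂ | -(3 / 2) ≤ z.re ∧ z.re ≤ -ρ - δA ∧ |z.im| ≤ R})
      (FF_diff hS.1.entire hh) (1 / 2 + (y : ℂ) * I) (DD_FF μ Λ h _) (by positivity) hcnt (fun u hu => by
      obtain ⟨a1, a2, a3⟩ := hu
      refine ⟨?_, ?_, ?_⟩
      · rw [re_c]; linarith
      · rw [re_c]; linarith
      · rw [im_c]; linarith)) subset_rfl (by nlinarith))
  have e1 : (1 / 2 + (ρ : ℂ) + (y : ℂ) * I) = 1 / 2 + (y : ℂ) * I + ρ := by ring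
  rw [e1]
  refine key.trans (Real.exp_le_exp.2 (le_of_eq ?_))
  ring

/-- the bound on the line `1/2 + ρ` gives few zeros on the left of `1/2 - ρ` -/
theorem locB (hB : S_B) (hL : S_LOC) (hm : 1 ≤ m) (hQ : Q ≠ 0) {ρ δ ε : ℝ} (hρ0 : 0 ≤ ρ) (hρ1 : ρ ≤ 1 / 2)
    (hδ : 0 < δ) (hε : 0 < ε) : ∃ κ W C0 : ℝ, 0 < κ ∧ 1 ≤ W ∧ ∀ (N : ℝ) (μ : Fin m → ℂ)
    (α : Fin m → ℕ → ℂ) (e : ℂ) (Λ : ℂ → ℂ), Std N μ α e Λ → ∀ y : ℝ, C0 ≤ cnd N μ y →
    ∀ h : ℂ → ℂ, Differentiable ℂ h →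
    (∀ z : ℂ, |z.re| ≤ W → |z.im - y| ≤ W → ‖h z‖ ≤ Real.exp (κ * Real.log (cnd N μ y))) →
    (∀ t : ℝ, |t - y| ≤ W →
      ‖LL μ Λ (1 / 2 + (ρ : ℂ) + (t : ℂ) * I)‖ ≤ Real.exp (κ * Real.log (cnd N μ y))) →
    Cnt (FF Q μ Λ h) {z : ℂ | -1 ≤ z.re ∧ z.re ≤ 1 / 2 - ρ - δ ∧ |z.im - y| ≤ 1}
      (ε * Real.log (cnd N μ y)) := by
  obtain ⟨d, κ, R, ℓ0, hd, hκ, hR, HB⟩ := hB m Q ρ (min δ 1) (2 * ε) (3 / 2) hQ hρ0 hρ1
    (lt_min hδ one_pos) (min_le_right _ _) (by positivity) (by norm_num)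
  obtain ⟨C1, HL⟩ := hL m R (min d 1) κ hm (by linarith) (lt_min hd one_pos) (min_le_right _ _) hκ
  refine ⟨κ / 2, R + 1, max C1 (Real.exp (2 * |ℓ0|)), by positivity, by linarith, ?_⟩
  intro N μ α e Λ hS y hC h hh hb hline
  have hLL : 2 * |ℓ0| ≤ Real.log (cnd N μ y) := lt_log ((le_max_right _ _).trans hC)
  have hL0 : 0 ≤ Real.log (cnd N μ y) := by linarith [abs_nonneg ℓ0]
  have H := HL N μ α e Λ hS y ((le_max_left _ _).trans hC)
  have HD := dat_of (H.mono le_rfl (min_le_left _ _) le_rfl (by positivity)) hh hL0 (by linarith) hb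
  have key := HB _ _ _ _ (by linarith [le_abs_self ℓ0]) HD (fun v hv => by
    have h1 := hline (y + v) (by rw [add_sub_cancel_left]; linarith)
    have e1 : (1 / 2 + (ρ : ℂ) + ((y + v : ℝ) : ℂ) * I) = 1 / 2 + (y : ℂ) * I + (⟨ρ, v⟩ : ℂ) := by
      apply Complex.ext <;> simp
    rw [e1] at h1
    refine h1.trans (Real.exp_le_exp.2 (le_of_eq ?_))
    ring)
  refine cnt_mono (cnt_shift' (B := {z : ℂ | -1 ≤ z.re ∧ z.re ≤ 1 / 2 - ρ - δ ∧ |z.im - y| ≤ 1})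
    (FF_diff hS.1.entire hh) (1 / 2 + (y : ℂ) * I) (DD_FF μ Λ h _) (by positivity) key
    (fun z hz => ?_)) subset_rfl (by linarith)
  obtain ⟨a1, a2, a3⟩ := hz
  have e1 : (z - (1 / 2 + (y : ℂ) * I)).re = z.re - 1 / 2 := by simp
  have e2 : (z - (1 / 2 + (y : ℂ) * I)).im = z.im - y := by simp
  have h5 := min_le_left δ 1
  refine ⟨?_, ?_, ?_⟩
  · rw [e1]; linarith
  · rw [e1]; linarith
  · rw [e2]; linarith

/-- the bound on the line `1/2 + ρ` gives an intermediate bound on the critical line -/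
theorem mid (hR : S_RECT) (ρ ε : ℝ) (hρ0 : 0 < ρ) (hρ1 : ρ ≤ 1 / 2) (hε : 0 < ε) (m : ℕ) :
    ∃ κ R ℓ0 : ℝ, 0 < κ ∧ 1 ≤ R ∧ ∀ (ℓ : ℝ) (p : Fin m → ℝ) (g : ℂ → ℂ), ℓ0 ≤ ℓ → Loc R 1 κ ℓ p g →
      (∀ v : ℝ, |v| ≤ R → ‖g ⟨ρ, v⟩‖ ≤ Real.exp (κ * ℓ)) → ‖g 0‖ ≤ Real.exp ((ρ + ε) * ℓ) := by
  obtain ⟨κ1, R, hκ1, hR1, H⟩ := hR 4 (2 * ρ) ε 1 (by norm_num) (by positivity) (by linarith) hε le_rfl
  obtain ⟨κ, hκd⟩ : ∃ κ : ℝ, κ = min (min (κ1 / 2) ρ) 1 := ⟨_, rfl⟩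
  have hκ : 0 < κ := by rw [hκd]; exact lt_min (lt_min (by positivity) hρ0) one_pos
  have k1 : κ ≤ κ1 / 2 := by rw [hκd]; exact (min_le_left _ _).trans (min_le_left _ _)
  have k2 : κ ≤ ρ := by rw [hκd]; exact (min_le_left _ _).trans (min_le_right _ _)
  have k3 : κ ≤ 1 := by rw [hκd]; exact min_le_right _ _
  refine ⟨κ, R, 0, hκ, hR1, ?_⟩
  intro ℓ p g hℓ L hline
  have key := H ℓ (-ρ) (2 * ρ) 0 1 g hℓ one_pos L.diff (by rw [abs_of_pos (by positivity)]; linarith)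
    (by simp)
    (fun u a1 a2 => by
      have e : u = ⟨-ρ, u.im⟩ := by
        apply Complex.ext
        · exact a1
        · rfl
      rw [e, one_mul]
      refine (L.rup ρ u.im k2 (by linarith) a2).trans ?_
      calc Real.exp (2 * ℓ * ρ + κ * ℓ) * ‖g ⟨ρ, u.im⟩‖ ≤ Real.exp (2 * ℓ * ρ + κ * ℓ) * Real.exp (κ * ℓ) :=
            mul_le_mul_of_nonneg_left (hline _ a2) (Real.exp_pos _).le
        _ = Real.exp (2 * ℓ * ρ + κ * ℓ + κ * ℓ) := by rw [← Real.exp_add]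
        _ ≤ _ := by
          apply Real.exp_le_exp.2
          nlinarith)
    (fun u a1 a2 => by
      have e : u = ⟨ρ, u.im⟩ := by
        apply Complex.ext
        · rw [a1]; ring
        · rfl
      rw [e, one_mul]
      refine (hline _ a2).trans (Real.exp_le_exp.2 ?_)
      nlinarith)
    (fun u a1 a2 a3 => by
      rw [one_mul]
      have b4 : |u.re| ≤ 1 := by
        rw [abs_le]
        constructor <;> linarith
      refine (L.cvx u (by linarith) (by linarith)).trans (Real.exp_le_exp.2 ?_)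
      have b5 : max |u.re| (1 / 2) ≤ 1 := max_le b4 (by norm_num)
      have b6 : ℓ * (max |u.re| (1 / 2) - u.re) ≤ ℓ * 2 := mul_le_mul_of_nonneg_left (by linarith) hℓ
      nlinarith)
    0 (by simp; linarith) (by simp; linarith) (by simp)
  rw [one_mul] at key
  refine key.trans (Real.exp_le_exp.2 (le_of_eq ?_))
  have hρ' : ρ ≠ 0 := hρ0.ne'
  simp only [zero_re]
  field_simp
  ring

/-! ### classes -/

/-- few zeros on the left of `1/2 - ρ` -/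
def FL (P : Cls m) (Q : Polynomial ℂ) (a : ℂ) (ρ : ℝ) : Prop := ∀ δ ε : ℝ, 0 < δ → 0 < ε → ∃ C0 : ℝ,
  ∀ (N : ℝ) (μ : Fin m → ℂ) (α : Fin m → ℕ → ℂ) (e : ℂ) (Λ : ℂ → ℂ), P N μ α e Λ → Std N μ α e Λ →
  ∀ y : ℝ, C0 ≤ cnd N μ y →
    Cnt (FF Q μ Λ fun _ => a) {z : ℂ | -1 ≤ z.re ∧ z.re ≤ 1 / 2 - ρ - δ ∧ |z.im - y| ≤ 1}
      (ε * Real.log (cnd N μ y))

/-- covering a window by unit windows -/
lemma cnt_cover' {F : ℂ → ℂ} {y b c R : ℝ} {J : ℕ} (hRJ : R + 1 ≤ J)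
    (h : ∀ j : ℤ, |j| ≤ J → Cnt F {z : ℂ | -1 ≤ z.re ∧ z.re ≤ b ∧ |z.im - (y + j)| ≤ 1} c) :
    Cnt F {z : ℂ | -1 ≤ z.re ∧ z.re ≤ b ∧ |z.im - y| ≤ R} ((2 * J + 1) * c) := by
  classical
  intro S hS
  have hmap : ∀ z ∈ S, round (z.im - y) ∈ Finset.Icc (-(J : ℤ)) J := by
    intro z hz
    have h1 := (hS z hz).2.2.2
    have h2 := abs_sub_round (z.im - y)
    rw [Finset.mem_Icc, ← abs_le]
    have h3 : |((round (z.im - y) : ℤ) : ℝ)| ≤ J := by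
      have h4 : |((round (z.im - y) : ℤ) : ℝ)| ≤ |z.im - y| + 1 / 2 := by
        have h9 := abs_sub_abs_le_abs_sub ((round (z.im - y) : ℤ) : ℝ) (z.im - y)
        rw [abs_sub_comm ((round (z.im - y) : ℤ) : ℝ) (z.im - y)] at h9
        linarith
      linarith
    exact_mod_cast h3
  rw [← Finset.sum_fiberwise_of_maps_to hmap]
  have h5 : ∀ j ∈ Finset.Icc (-(J : ℤ)) J,
      ∑ z ∈ S.filter (fun z => round (z.im - y) = j), (analyticOrderNatAt F z : ℝ) ≤ c := by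
    intro j hj
    rw [Finset.mem_Icc, ← abs_le] at hj
    refine h j hj _ fun z hz => ?_
    rw [Finset.mem_filter] at hz
    obtain ⟨h6, h7⟩ := hS z hz.1
    refine ⟨h6, h7.1, h7.2.1, ?_⟩
    have h8 := abs_sub_round (z.im - y)
    rw [hz.2] at h8
    rw [show z.im - (y + j) = z.im - y - j by ring]
    linarith
  refine (Finset.sum_le_sum h5).trans ?_
  rw [Finset.sum_const, Int.card_Icc, nsmul_eq_mul]
  have e : ((((J : ℤ) + 1 - -(J : ℤ)).toNat : ℕ) : ℝ) = 2 * J + 1 := by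
    have : ((J : ℤ) + 1 - -(J : ℤ)).toNat = 2 * J + 1 := by omega
    rw [this]
    push_cast
    ring
  rw [e]

lemma const_le {a : ℂ} {δ L : ℝ} (hδ : 0 < δ) (hL : ‖a‖ / δ ≤ L) : ‖a‖ ≤ Real.exp (δ * L) := by
  rw [div_le_iff₀ hδ] at hL
  have := Real.add_one_le_exp (δ * L)
  linarith

theorem ser_fl (hB : S_B) (hL : S_LOC) (hm : 1 ≤ m) (hQ : Q ≠ 0) (P : Cls m) (a : ℂ) {ρ : ℝ} (hρ0 : 0 ≤ ρ)
    (hρ1 : ρ ≤ 1 / 2) (h : SEr P ρ 0) : FL P Q a ρ := by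
  intro δ ε hδ hε
  obtain ⟨κ, W, C1, hκ, hW, H⟩ := locB hB hL hm hQ hρ0 hρ1 hδ hε
  obtain ⟨B, HB⟩ := h (κ / 2) (by positivity)
  obtain ⟨r, hr⟩ : ∃ r : ℝ, r = m * Real.log (1 + |W|) := ⟨_, rfl⟩
  have hr0 : 0 ≤ r := by
    rw [hr]
    exact mul_nonneg (Nat.cast_nonneg m) (Real.log_nonneg (by linarith [abs_nonneg W]))
  refine ⟨max C1 (Real.exp (2 * (|B| + κ / 2 * r) / κ + ‖a‖ / κ)), ?_⟩
  intro N μ α e Λ hP hS y hC
  have hN := hS.1.one_le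
  have h4 := lt_log ((le_max_right _ _).trans hC)
  have h4a : 0 ≤ ‖a‖ / κ := by positivity
  have h4b : 0 ≤ 2 * (|B| + κ / 2 * r) / κ := by positivity
  have h4c : 2 * (|B| + κ / 2 * r) / κ ≤ Real.log (cnd N μ y) := by linarith
  rw [div_le_iff₀ hκ] at h4c
  refine H N μ α e Λ hS y ((le_max_left _ _).trans hC) (fun _ => a) (differentiable_const a)
    (fun z _ _ => const_le hκ (by linarith)) (fun t ht => ?_)
  refine (HB N μ α e Λ hP hS t).trans (Real.exp_le_exp.2 ?_)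
  have h5 := logm_shift hN μ (y := t) (y' := y) (R := W) (by
    rw [abs_sub_comm]
    exact ht.trans (le_abs_self W))
  rw [← hr] at h5
  have h6 : (0 + κ / 2) * Real.log (cnd N μ t) ≤ (0 + κ / 2) * (Real.log (cnd N μ y) + r) :=
    mul_le_mul_of_nonneg_left h5 (by positivity)
  have h7 := le_abs_self B
  linarith

theorem fl_ser (hA : S_A) (hL : S_LOC) (hm : 1 ≤ m) (hQ : Q ≠ 0) (P : Cls m) (a : ℂ) {ρ : ℝ} (hρ0 : 0 ≤ ρ)
    (hρ1 : ρ ≤ 1 / 2) (h : FL P Q a ρ) : SEr P ρ 0 := by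
  intro ε hε
  obtain ⟨δ, W, C1, hδ, hW, HZ⟩ := locA hA hL hm hQ hρ0 hρ1 hε
  obtain ⟨J, hJ⟩ := exists_nat_ge (|W| + 1)
  have hJ0 : (0 : ℝ) ≤ J := Nat.cast_nonneg J
  obtain ⟨C2, HH⟩ := h δ (δ / (2 * (2 * J + 1))) hδ (by positivity)
  obtain ⟨B2, HT⟩ := aut_triv_r m hm
  obtain ⟨rr, hrr⟩ : ∃ rr : ℝ, rr = m * Real.log (1 + |(J : ℝ)|) := ⟨_, rfl⟩
  have hrr0 : 0 ≤ rr := by
    rw [hrr]
    exact mul_nonneg (Nat.cast_nonneg m) (Real.log_nonneg (by linarith [abs_nonneg (J : ℝ)]))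
  obtain ⟨V, hV⟩ : ∃ V : ℝ, V = max (max C1 (|C2| * (1 + |(J : ℝ)|) ^ m)) (Real.exp (rr + ‖a‖ / δ)) :=
    ⟨_, rfl⟩
  refine ⟨|B2| + 3 / 4 * |Real.log V|, ?_⟩
  intro N μ α e Λ hP hS y
  have hN := hS.1.one_le
  have hc := cnd_pos hN μ y
  have hL0 : 0 ≤ Real.log (cnd N μ y) := Real.log_nonneg hc
  rcases le_total (cnd N μ y) V with hsm | hbig
  · refine (HT N μ α e Λ hS.1 y ρ hρ0 hρ1).trans (Real.exp_le_exp.2 ?_)
    have h3 : Real.log (cnd N μ y) ≤ Real.log V := Real.log_le_log (by linarith) hsm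
    have h4 := le_abs_self B2
    have h6 := le_abs_self (Real.log V)
    have h5 : 0 ≤ (0 + ε) * Real.log (cnd N μ y) := by positivity
    linarith
  · have hCa : C1 ≤ cnd N μ y := ((le_max_left _ _).trans ((le_max_left _ _).trans hV.ge)).trans hbig
    have hCb : |C2| * (1 + |(J : ℝ)|) ^ m ≤ cnd N μ y :=
      ((le_max_right _ _).trans ((le_max_left _ _).trans hV.ge)).trans hbig
    have hL1 := lt_log (((le_max_right _ _).trans hV.ge).trans hbig)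
    have haδ : 0 ≤ ‖a‖ / δ := by positivity
    obtain ⟨L, hLd⟩ : ∃ L : ℝ, L = Real.log (cnd N μ y) := ⟨_, rfl⟩
    have hcov : Cnt (FF Q μ Λ fun _ => a) {z : ℂ | -1 ≤ z.re ∧ z.re ≤ 1 / 2 - ρ - δ ∧ |z.im - y| ≤ W}
        (δ * L) := by
      have h9 : ∀ j : ℤ, |j| ≤ J → Cnt (FF Q μ Λ fun _ => a)
          {z : ℂ | -1 ≤ z.re ∧ z.re ≤ 1 / 2 - ρ - δ ∧ |z.im - (y + j)| ≤ 1}
          (δ / (2 * (2 * J + 1)) * (2 * L)) := by
        intro j hj
        have hj' : |(j : ℝ)| ≤ J := by exact_mod_cast hj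
        have hj2 : |(y + j) - y| ≤ |(J : ℝ)| := by
          rw [add_sub_cancel_left]
          exact hj'.trans (le_abs_self _)
        have h3 := cndm_shift (N := N) (by linarith) μ hj2
        rw [abs_sub_comm] at hj2
        have h7 := logm_shift hN μ hj2
        rw [← hrr, ← hLd] at h7
        have h5 : 0 < (1 + |(J : ℝ)|) ^ m := by positivity
        have h10 := HH N μ α e Λ hP hS (y + j) ((le_abs_self C2).trans
          (le_of_mul_le_mul_right (hCb.trans h3) h5))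
        refine cnt_mono h10 subset_rfl ?_
        apply mul_le_mul_of_nonneg_left _ (by positivity)
        linarith
      refine cnt_mono (cnt_cover' (J := J) (R := W) (by linarith [le_abs_self W]) h9)
        subset_rfl (le_of_eq ?_)
      field_simp
    rw [hLd] at hcov
    have key := HZ N μ α e Λ hS y hCa (fun _ => a) (differentiable_const a)
      (fun z _ _ => const_le hδ (by linarith)) hcov
    refine key.trans (Real.exp_le_exp.2 ?_)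
    have h8 : 0 ≤ |B2| + 3 / 4 * |Real.log V| := by positivity
    rw [zero_add]
    linarith

theorem ser_mid (hR : S_RECT) (hL : S_LOC) (hm : 1 ≤ m) (P : Cls m) {ρ : ℝ} (hρ0 : 0 ≤ ρ)
    (hρ1 : ρ ≤ 1 / 2) (h : SEr P ρ 0) : SEr P 0 (ρ / 2) := by
  rcases eq_or_lt_of_le hρ0 with h0 | hρ
  · rw [← h0] at h ⊢
    simpa using h
  intro ε hε
  obtain ⟨κ, R, ℓ0, hκ, hR1, H⟩ := mid hR ρ (2 * ε) hρ hρ1 (by positivity) m
  obtain ⟨C1, HL⟩ := hL m R 1 κ hm hR1 one_pos le_rfl hκ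
  obtain ⟨B, HB⟩ := h (κ / 4) (by positivity)
  obtain ⟨B2, HT⟩ := aut_triv_r m hm
  obtain ⟨r, hr⟩ : ∃ r : ℝ, r = m * Real.log (1 + |R|) := ⟨_, rfl⟩
  have hr0 : 0 ≤ r := by
    rw [hr]
    exact mul_nonneg (Nat.cast_nonneg m) (Real.log_nonneg (by linarith [abs_nonneg R]))
  obtain ⟨V, hV⟩ : ∃ V : ℝ, V = max C1 (Real.exp (4 * (|B| + κ / 4 * r) / κ + 2 * |ℓ0|)) := ⟨_, rfl⟩
  refine ⟨|B2| + 3 / 4 * |Real.log V|, ?_⟩
  intro N μ α e Λ hP hS y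
  have hN := hS.1.one_le
  have hc := cnd_pos hN μ y
  have hL0 : 0 ≤ Real.log (cnd N μ y) := Real.log_nonneg hc
  rcases le_total (cnd N μ y) V with hsm | hbig
  · refine (HT N μ α e Λ hS.1 y 0 le_rfl (by norm_num)).trans (Real.exp_le_exp.2 ?_)
    have h3 : Real.log (cnd N μ y) ≤ Real.log V := Real.log_le_log (by linarith) hsm
    have h4 := le_abs_self B2
    have h6 := le_abs_self (Real.log V)
    have h5 : 0 ≤ (ρ / 2 + ε) * Real.log (cnd N μ y) := by positivity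
    linarith
  · have hL1 := lt_log (((le_max_right _ _).trans hV.ge).trans hbig)
    have h4b : 0 ≤ 4 * (|B| + κ / 4 * r) / κ := by positivity
    have h4c : 4 * (|B| + κ / 4 * r) / κ ≤ Real.log (cnd N μ y) := by linarith [abs_nonneg ℓ0]
    rw [div_le_iff₀ hκ] at h4c
    have key := H _ _ _ (by linarith [le_abs_self ℓ0])
      (HL N μ α e Λ hS y (((le_max_left _ _).trans hV.ge).trans hbig)) (fun v hv => by
        have h1 := HB N μ α e Λ hP hS (y + v)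
        have e1 : (1 / 2 + (ρ : ℂ) + ((y + v : ℝ) : ℂ) * I) = 1 / 2 + (y : ℂ) * I + (⟨ρ, v⟩ : ℂ) := by
          apply Complex.ext <;> simp
        rw [e1] at h1
        refine h1.trans (Real.exp_le_exp.2 ?_)
        have h5 := logm_shift hN μ (y := y + v) (y' := y) (R := R) (by
          rw [show y - (y + v) = -v by ring, abs_neg]
          exact hv.trans (le_abs_self R))
        rw [← hr] at h5
        have h6 : (0 + κ / 4) * Real.log (cnd N μ (y + v)) ≤ (0 + κ / 4) * (Real.log (cnd N μ y) + r) :=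
          mul_le_mul_of_nonneg_left h5 (by positivity)
        have h7 := le_abs_self B
        linarith)
    have e1 : (1 / 2 + ((0 : ℝ) : ℂ) + (y : ℂ) * I) = 1 / 2 + (y : ℂ) * I + 0 := by push_cast; ring
    rw [e1]
    refine key.trans (Real.exp_le_exp.2 ?_)
    have h8 : 0 ≤ |B2| + 3 / 4 * |Real.log V| := by positivity
    linarith

end Pool.Agent.T3h43.SL
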