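import Pool.Agent.T3h43.SL.StmG

/-!
# Project SL: the inverse gamma factor on both sides of the critical line (task GINV)
-/

set_option autoImplicit false

open Complex Set

namespace Pool.Agent.T3h43.SL

open Pool.Agent.W169.HF H353.E H353.F

variable {m : ℕ} {N : ℝ} {μ : Fin m → ℂ}

lemma GG_pos (hm : 1 ≤ m) (hN : 1 ≤ N) (hμ : ∀ j, (μ j).re ≤ 1 / 2) (y : ℝ) : 0 < GG N μ y := by
  have gp := gaf_GP hm hN hμ
  have hs1 : 1 ≤ (3 / 2 + y * I : ℂ).re := by simp; norm_num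
  have := norm_pos_iff.2 (gp.ne _ hs1)
  unfold GG
  positivity

/-- the inverse of the gamma factor to the right of the line `Re u = -2 K` -/
lemma ginv_aux (hm : 1 ≤ m) (K : ℕ) : ∃ A : ℝ, 0 ≤ A ∧ ∀ (N : ℝ) (μ : Fin m → ℂ) (y : ℝ) (u : ℂ),
    1 ≤ N → (∀ j, (μ j).re ≤ 1 / 2) → -(2 * K : ℝ) ≤ u.re →
    ‖(gaf N μ (1 / 2 + (y : ℂ) * I + u))⁻¹‖ ≤
      (GG N μ y)⁻¹ * Real.exp (-((gaD N μ (3 / 2 + y * I)).re * u.re) + A * (1 + ‖u‖ ^ 2)) := by
  induction K with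
  | zero =>
    refine ⟨231 * m, by positivity, fun N μ y u hN hμ hu => ?_⟩
    have hu' : 0 ≤ u.re := by simpa using hu
    exact gam_inv hm hN hμ y hu'
  | succ K ih =>
    obtain ⟨A, hA, ih⟩ := ih
    refine ⟨9 * A + 15 * m, by positivity, fun N μ y u hN hμ hu => ?_⟩
    have hN0 : 0 < N := by linarith
    have hm' : (1 : ℝ) ≤ m := by exact_mod_cast hm
    have hGpos := GG_pos hm hN hμ y
    obtain ⟨ℓ, hℓ⟩ : ∃ ℓ : ℝ, ℓ = (gaD N μ (3 / 2 + y * I)).re := ⟨_, rfl⟩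
    have hlo := gaD_re_ge hN hμ y
    change 1 / 2 * Real.log (cnd N μ y) - 7 * m ≤ _ at hlo
    obtain ⟨s, hs⟩ : ∃ s : ℂ, s = 1 / 2 + (y : ℂ) * I + u := ⟨_, rfl⟩
    have hn : 0 ≤ ‖u‖ ^ 2 := by positivity
    by_cases hz : ∀ j, s - μ j ≠ 0
    · have h1 := gaf_add_two hN0 hz
      have h2 := ih N μ y (u + 2) hN hμ (by simp; push_cast at hu; linarith)
      rw [show (1 / 2 + (y : ℂ) * I + (u + 2) : ℂ) = s + 2 by rw [hs]; ring] at h2
      rw [← hℓ] at h2 hlo ⊢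
      rw [← hs]
      have h4 : (gaf N μ s)⁻¹ = (gaf N μ (s + 2))⁻¹ * (N * ∏ j, ((s - μ j) / 2 / Real.pi)) := by
        have h7 : (N * ∏ j, ((s - μ j) / 2 / Real.pi) : ℂ) ≠ 0 := by
          refine mul_ne_zero (by exact_mod_cast hN0.ne') (Finset.prod_ne_zero_iff.mpr fun j _ => ?_)
          refine div_ne_zero (div_ne_zero (hz j) two_ne_zero) ?_
          exact_mod_cast Real.pi_ne_zero
        rw [h1, mul_inv, mul_assoc, inv_mul_cancel₀ h7, mul_one]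
      rw [h4, norm_mul, norm_fac hN0]
      have h5 := fac_le (μ := μ) hN y u
      rw [← hs, cnd_exp hN] at h5
      have h7 := sq2 u
      have h9 : A * (1 + ‖u + 2‖ ^ 2) ≤ 9 * A * (1 + ‖u‖ ^ 2) := by nlinarith
      calc ‖(gaf N μ (s + 2))⁻¹‖ * (N * ∏ j, (‖s - μ j‖ / (2 * Real.pi))) ≤
          ((GG N μ y)⁻¹ * Real.exp (-(ℓ * (u + 2).re) + A * (1 + ‖u + 2‖ ^ 2))) *
          (Real.exp (Real.log (cnd N μ y)) * Real.exp (m * (1 + ‖u‖ ^ 2))) :=
            mul_le_mul h2 h5 (by positivity) (by positivity)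
        _ = (GG N μ y)⁻¹ * Real.exp (-(ℓ * (u + 2).re) + A * (1 + ‖u + 2‖ ^ 2) + Real.log (cnd N μ y) +
            m * (1 + ‖u‖ ^ 2)) := by
            rw [Real.exp_add (_ + _), Real.exp_add (-(ℓ * (u + 2).re) + A * (1 + ‖u + 2‖ ^ 2))]
            ring
        _ ≤ _ := by
            apply mul_le_mul_of_nonneg_left _ (by positivity)
            apply Real.exp_le_exp.2
            have e : (u + 2).re = u.re + 2 := by simp
            rw [e]
            nlinarith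
    · push Not at hz
      obtain ⟨j, hj⟩ := hz
      have h1 : gaf N μ s = 0 := by
        unfold gaf
        rw [Finset.prod_eq_zero (Finset.mem_univ j), mul_zero]
        rw [hj, Gammaℝ_eq_zero_iff]
        exact ⟨0, by simp⟩
      rw [← hs, h1, inv_zero, norm_zero]
      positivity

lemma norm_sq_le {R : ℝ} {u : ℂ} (h1 : |u.re| ≤ R) (h2 : |u.im| ≤ R) :
    1 + ‖u‖ ^ 2 ≤ 1 + 2 * R ^ 2 := by
  have h : ‖u‖ ^ 2 = u.re ^ 2 + u.im ^ 2 := by
    rw [← Complex.normSq_eq_norm_sq, Complex.normSq_apply]; ring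
  have h3 := pow_le_pow_left₀ (abs_nonneg _) h1 2
  have h4 := pow_le_pow_left₀ (abs_nonneg _) h2 2
  rw [sq_abs] at h3 h4
  linarith

/-- **GINV** -/
theorem t_GINV : S_GINV := by
  intro m R hm hR
  obtain ⟨A, hA, h⟩ := ginv_aux hm (⌈R⌉₊)
  refine ⟨A * (1 + 2 * R ^ 2) + 7 * m * R, fun N μ y u hN hμ hr hi => ?_⟩
  have hGpos := GG_pos hm hN hμ y
  have hK : R ≤ (⌈R⌉₊ : ℝ) := Nat.le_ceil R
  have h1 := h N μ y u hN hμ (by have := neg_abs_le u.re; linarith)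
  refine h1.trans (mul_le_mul_of_nonneg_left (Real.exp_le_exp.2 ?_) (by positivity))
  have hlo := gaD_re_ge hN hμ y
  change 1 / 2 * Real.log (cnd N μ y) - 7 * m ≤ _ at hlo
  have hup := gaD_re_le hN hμ y
  change _ ≤ 1 / 2 * Real.log (cnd N μ y) + 5 * m at hup
  obtain ⟨ℓ, hℓ⟩ : ∃ ℓ : ℝ, ℓ = (gaD N μ (3 / 2 + y * I)).re := ⟨_, rfl⟩
  rw [← hℓ] at hlo hup ⊢
  have h2 := mul_le_mul_of_nonneg_left (norm_sq_le hr hi) hA
  have hm0 : (0 : ℝ) ≤ m := by positivity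
  have h3 : |(1 / 2 * Real.log (cnd N μ y) - ℓ) * u.re| ≤ 7 * m * R := by
    rw [abs_mul]
    refine mul_le_mul ?_ hr (abs_nonneg _) (by positivity)
    rw [abs_le]
    constructor <;> linarith
  have h4 := (abs_le.1 h3).2
  nlinarith

end Pool.Agent.T3h43.SL
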