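import Pool.Agent.T3h43.SL.StmG

/-!
# Project SL: standard L-functions give local data
-/

set_option autoImplicit false

open Complex Metric Set
open scoped ComplexConjugate

namespace Pool.Agent.T3h43.SL

open Pool.Agent.W169.HF H353.E H353.F

theorem t_LOC (h1 : S_GINV) (h2 : S_GUP) : S_LOC := by
  intro m R d κ hm hR hd hd1 hκ
  have hm' : (1 : ℝ) ≤ m := by exact_mod_cast hm
  obtain ⟨B, hB, HS⟩ := sharpX m hm (show (0 : ℝ) ≤ 1 / 2 by norm_num) le_rfl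
    (show (0 : ℝ) < 1 / 2 by norm_num) (by norm_num)
  have hlogB : 0 ≤ Real.log B := Real.log_nonneg hB
  have hK : 1 ≤ Real.log B + 20 * (6 * m) := by linarith
  obtain ⟨ρ0, hρ0d⟩ : ∃ ρ0 : ℝ, ρ0 = min (κ / 8) (1 / 8) := ⟨_, rfl⟩
  have hρ0 : 0 < ρ0 := by rw [hρ0d]; exact lt_min (by positivity) (by norm_num)
  have hρκ : ρ0 ≤ κ / 8 := by rw [hρ0d]; exact min_le_left _ _
  have hρ1 : ρ0 ≤ 1 / 8 := by rw [hρ0d]; exact min_le_right _ _
  obtain ⟨R', ℓp, hRp, HP⟩ := prof_all (Real.log B + 20 * (6 * m)) (1 + 1 / 2 + 1 / 2 - 1 / 2) (1 / 2) ρ0 ρ0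
    R hK (by norm_num) (by norm_num) (by norm_num) (by norm_num) hρ0 (by linarith) hρ0 hR
  obtain ⟨C1, HI⟩ := h1 m R hm hR
  obtain ⟨C2, HU⟩ := h2 m R (min d κ) hm hR (lt_min hd hκ) ((min_le_left _ _).trans hd1)
  obtain ⟨W, hW⟩ : ∃ W : ℝ, W = |ℓp| + (|C1| + |C2| + 14 * m * (R + 2)) * 4 / κ + 7 * m + 1 := ⟨_, rfl⟩
  refine ⟨Real.exp (2 * W), ?_⟩
  intro N μ α e Λ hS y hC
  obtain ⟨hd', hnz⟩ := hS
  obtain ⟨S, hslow, hfe, hzer, hne⟩ := HS N μ α e Λ hd'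
  have hN1 := hd'.one_le
  have hNpos : 0 < N := by linarith
  have hN0 : (N : ℂ) ≠ 0 := by exact_mod_cast hNpos.ne'
  obtain ⟨s, hs⟩ : ∃ s : ℝ, s = 1 / 2 * Real.log (cnd N μ y) := ⟨_, rfl⟩
  have hWs : W ≤ s := by
    have := Real.log_le_log (Real.exp_pos _) hC
    rw [Real.log_exp] at this
    linarith
  have hlo := gaD_re_ge hd'.one_le hd'.re_le y
  have hup := gaD_re_le hd'.one_le hd'.re_le y
  change 1 / 2 * Real.log (cnd N μ y) - 7 * m ≤ _ at hlo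
  change _ ≤ 1 / 2 * Real.log (cnd N μ y) + 5 * m at hup
  rw [← hs] at hlo hup ⊢
  obtain ⟨ℓ, hℓ⟩ : ∃ ℓ : ℝ, ℓ = (gaD N μ (3 / 2 + y * I)).re := ⟨_, rfl⟩
  have hGG : ‖gaf N μ (3 / 2 + y * I)‖ * Real.exp (-(gaD N μ (3 / 2 + y * I)).re) = GG N μ y := rfl
  obtain ⟨G, hG⟩ : ∃ G : ℝ, G = GG N μ y := ⟨_, rfl⟩
  have ud := ud_of_sharp S hslow (by norm_num) y
  rw [hGG, ← hℓ, ← hG] at ud
  rw [← hℓ] at hlo hup
  have ha0 : 0 ≤ (|C1| + |C2| + 14 * m * (R + 2)) * 4 / κ := by positivity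
  have hb0 := abs_nonneg ℓp
  have hb1 := le_abs_self ℓp
  have hs0 : 0 < s := by linarith
  have hcon : |C1| + |C2| + 14 * m * (R + 2) ≤ κ / 4 * s := by
    have h3 : (|C1| + |C2| + 14 * m * (R + 2)) * 4 / κ ≤ s := by linarith
    rw [div_le_iff₀ hκ] at h3
    linarith
  have hC1 := le_abs_self C1
  have hC2 := le_abs_self C2
  have hC10 := abs_nonneg C1
  have hC20 := abs_nonneg C2
  have hGpos := ud.hG
  obtain ⟨f, hf⟩ : ∃ f : ℂ → ℂ, f = fun u : ℂ => XX N Λ (1 / 2 + (y : ℂ) * I + u) := ⟨_, rfl⟩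
  rw [← hf] at ud
  have hfu : ∀ u, f u = XX N Λ (1 / 2 + (y : ℂ) * I + u) := fun u => by rw [hf]
  have pf := HP ℓ G f (by linarith) ud (fun u hu1 _ h => by
    rw [hfu] at h
    unfold XX at h
    rcases mul_eq_zero.1 h with h | h
    · exact absurd (Complex.cpow_eq_zero_iff _ _ |>.1 h).1 hN0
    · exact hnz _ (by simp; linarith) h)
  obtain ⟨ga, hga⟩ : ∃ ga : ℂ → ℂ, ga = fun u => gaf N μ (1 / 2 + (y : ℂ) * I + u) := ⟨_, rfl⟩
  obtain ⟨g, hg⟩ : ∃ g : ℂ → ℂ, g = fun u => LL μ Λ (1 / 2 + (y : ℂ) * I + u) := ⟨_, rfl⟩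
  have hgf : ∀ u, g u = f u * (ga u)⁻¹ := fun u => by
    rw [hg, hfu, hga]
    exact LL_eq hNpos μ Λ _
  have hinv : ∀ u : ℂ, |u.re| ≤ R → |u.im| ≤ R → ‖(ga u)⁻¹‖ ≤ G⁻¹ * Real.exp (-(s * u.re) + C1) := by
    intro u a1 a2
    have := HI N μ y u hN1 hd'.re_le a1 a2
    rw [← hs, ← hG] at this
    rw [hga]
    exact this
  have hgup : ∀ u : ℂ, |u.re| ≤ R → |u.im| ≤ R → Good (fun j => (μ j).re - 1 / 2) (min d κ) u.re →
      ga u ≠ 0 ∧ ‖ga u‖ ≤ G * Real.exp (s * u.re + C2) := by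
    intro u a1 a2 a3
    have := HU N μ y u hN1 hd'.re_le a1 a2 a3
    rw [← hs, ← hG] at this
    rw [hga]
    exact this
  have hgood : ∀ x : ℝ, κ ≤ x → Good (fun j => (μ j).re - 1 / 2) (min d κ) x := by
    intro x hx j n
    have h3 := hd'.re_le j
    have h4 : (0 : ℝ) ≤ n := Nat.cast_nonneg n
    refine ((min_le_right d κ).trans (by linarith : κ ≤ x - ((μ j).re - 1 / 2 - 2 * n))).trans (le_abs_self _)
  have hrefl : ∀ x v : ℝ, ‖f ⟨-x, v⟩‖ = ‖f ⟨x, v⟩‖ := by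
    intro x v
    obtain ⟨ε, hε, h3⟩ := ud.fe
    rw [h3 ⟨-x, v⟩, norm_mul, hε, one_mul, Complex.norm_conj]
    congr 2
    apply Complex.ext <;> simp
  have hmul : ∀ u : ℂ, ga u ≠ 0 → ‖f u‖ = ‖g u‖ * ‖ga u‖ := by
    intro u h3
    rw [hgf, norm_mul, norm_inv, mul_assoc, inv_mul_cancel₀ (norm_ne_zero_iff.2 h3), mul_one]
  rw [← hg]
  refine ⟨?_, ?_, ?_, ?_, ?_⟩
  · rw [hg]
    exact (LL_diff hd'.entire).comp (by fun_prop)
  · intro u a1 a2
    have a3 := pf.upp u a1 a2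
    have a4 := hinv u a1 a2
    rw [hgf, norm_mul]
    obtain ⟨M, hM⟩ : ∃ M : ℝ, M = max |u.re| (1 / 2) := ⟨_, rfl⟩
    have hM0 : 0 ≤ M := by rw [hM]; exact le_trans (by norm_num) (le_max_right _ _)
    have hMR : M ≤ R := by rw [hM]; exact max_le a1 (by linarith)
    have hM2 : max |u.re| (1 / 2 + ρ0) ≤ M + ρ0 := by
      rw [hM]
      refine max_le ?_ ?_
      · exact (le_max_left _ _).trans (by linarith)
      · have := le_max_right |u.re| (1 / 2)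
        linarith
    have hℓ0 : 0 ≤ ℓ := by
      nlinarith
    calc ‖f u‖ * ‖(ga u)⁻¹‖ ≤ (G * Real.exp (ℓ * max |u.re| (1 / 2 + ρ0) + ρ0 * ℓ)) *
          (G⁻¹ * Real.exp (-(s * u.re) + C1)) := mul_le_mul a3 a4 (norm_nonneg _) (by positivity)
      _ = Real.exp (ℓ * max |u.re| (1 / 2 + ρ0) + ρ0 * ℓ + (-(s * u.re) + C1)) := by
          rw [Real.exp_add (ℓ * max |u.re| (1 / 2 + ρ0) + ρ0 * ℓ)]
          field_simp
      _ ≤ _ := by
          apply Real.exp_le_exp.2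
          rw [← hM]
          have b1 : ℓ * max |u.re| (1 / 2 + ρ0) ≤ ℓ * (M + ρ0) := mul_le_mul_of_nonneg_left hM2 hℓ0
          have b2 : ℓ * (M + ρ0) ≤ (s + 5 * m) * (M + ρ0) := mul_le_mul_of_nonneg_right hup (by linarith)
          have b3 : ρ0 * ℓ ≤ ρ0 * (s + 5 * m) := mul_le_mul_of_nonneg_left hup hρ0.le
          have b4 : 5 * m * (M + 2 * ρ0) ≤ 5 * m * (R + 2) :=
            mul_le_mul_of_nonneg_left (by linarith) (by positivity)
          have b5 : ρ0 * s ≤ κ / 8 * s := mul_le_mul_of_nonneg_right hρκ hs0.le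
          have b6 : 0 ≤ (m : ℝ) * (R + 2) := by positivity
          nlinarith
  · intro u a1 a2 a3
    have a4 := pf.low u (by linarith) a2 a3
    have a0 : |u.re| ≤ R := by rw [abs_of_nonneg (by linarith)]; exact a2
    obtain ⟨a5, a6⟩ := hgup u a0 a3 (hgood _ (by linarith))
    have a7 := hmul u a5
    have hga0 : 0 < ‖ga u‖ := norm_pos_iff.2 a5
    have a8 : ‖g u‖ * (G * Real.exp (s * u.re + C2)) ≥ G * Real.exp (ℓ * u.re - ρ0 * ℓ) := by
      refine a4.trans ?_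
      rw [a7]
      exact mul_le_mul_of_nonneg_left a6 (norm_nonneg _)
    have a9 : ‖g u‖ * (G * Real.exp (s * u.re + C2)) ≥
        Real.exp (-(κ * s)) * (G * Real.exp (s * u.re + C2)) := by
      refine le_trans ?_ a8
      rw [mul_left_comm, ← Real.exp_add]
      apply mul_le_mul_of_nonneg_left _ hGpos.le
      apply Real.exp_le_exp.2
      have b1 : (s - 7 * m) * u.re ≤ ℓ * u.re := mul_le_mul_of_nonneg_right hlo (by linarith)
      have b2 : ρ0 * ℓ ≤ ρ0 * (s + 5 * m) := mul_le_mul_of_nonneg_left hup hρ0.le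
      have b3 : 7 * m * u.re ≤ 7 * m * R := mul_le_mul_of_nonneg_left a2 (by positivity)
      have b5 : ρ0 * s ≤ κ / 8 * s := mul_le_mul_of_nonneg_right hρκ hs0.le
      have b6 : 0 ≤ (m : ℝ) * R := by positivity
      nlinarith
    exact le_of_mul_le_mul_right a9 (by positivity)
  · intro x v a1 a2 a3
    have hx0 : 0 < x := by linarith
    have a4 := hinv ⟨-x, v⟩ (by simp only [abs_neg]; rw [abs_of_pos hx0]; exact a2) a3
    obtain ⟨a5, a6⟩ := hgup ⟨x, v⟩ (by simp only; rw [abs_of_pos hx0]; exact a2) a3 (hgood _ a1)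
    have a7 := hmul _ a5
    simp only at a4 a6
    rw [hgf, norm_mul, hrefl, a7]
    calc ‖g ⟨x, v⟩‖ * ‖ga ⟨x, v⟩‖ * ‖(ga ⟨-x, v⟩)⁻¹‖ ≤
        ‖g ⟨x, v⟩‖ * (G * Real.exp (s * x + C2)) * (G⁻¹ * Real.exp (-(s * -x) + C1)) :=
          mul_le_mul (mul_le_mul_of_nonneg_left a6 (norm_nonneg _)) a4 (norm_nonneg _) (by positivity)
      _ = Real.exp (s * x + C2 + (-(s * -x) + C1)) * ‖g ⟨x, v⟩‖ := by
          rw [Real.exp_add (s * x + C2)]
          field_simp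
      _ ≤ _ := by
          apply mul_le_mul_of_nonneg_right _ (norm_nonneg _)
          apply Real.exp_le_exp.2
          have b6 : 0 ≤ (m : ℝ) * (R + 2) := by positivity
          nlinarith
  · intro x v a1 a2 a3 a0
    have hx0 : 0 < x := by linarith
    have a4 := hinv ⟨x, v⟩ (by simp only; rw [abs_of_pos hx0]; exact a2) a3
    obtain ⟨a5, a6⟩ := hgup ⟨-x, v⟩ (by simp only [abs_neg]; rw [abs_of_pos hx0]; exact a2) a3
      (a0.mono (min_le_left _ _))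
    have a7 := hmul _ a5
    simp only at a4 a6
    rw [hgf, norm_mul, ← hrefl, a7]
    calc ‖g ⟨-x, v⟩‖ * ‖ga ⟨-x, v⟩‖ * ‖(ga ⟨x, v⟩)⁻¹‖ ≤
        ‖g ⟨-x, v⟩‖ * (G * Real.exp (s * -x + C2)) * (G⁻¹ * Real.exp (-(s * x) + C1)) :=
          mul_le_mul (mul_le_mul_of_nonneg_left a6 (norm_nonneg _)) a4 (norm_nonneg _) (by positivity)
      _ = Real.exp (s * -x + C2 + (-(s * x) + C1)) * ‖g ⟨-x, v⟩‖ := by
          rw [Real.exp_add (s * -x + C2)]
          field_simp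
      _ ≤ _ := by
          apply mul_le_mul_of_nonneg_right _ (norm_nonneg _)
          apply Real.exp_le_exp.2
          have b6 : 0 ≤ (m : ℝ) * (R + 2) := by positivity
          nlinarith

end Pool.Agent.T3h43.SL
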