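import Pool.Agent.W169.HF.DefsD

/-!
# Project SL (helper43): zeros of the derivatives on the left of the critical line, and size

Definitions and statements.  `g u = L(1/2 + i y + u)`, `2 ℓ` is the logarithm of the analytic conductor at
the height `y`, `p j - 2 n` are the real parts of the trivial zeros.
-/

set_option autoImplicit false

open Complex Metric Set

namespace Pool.Agent.T3h43.SL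

open Pool.Agent.W169.HF (Cnt)

/-- `x` has distance at least `d` from all the numbers `p j - 2 n` -/
def Good {m : ℕ} (p : Fin m → ℝ) (d x : ℝ) : Prop := ∀ (j : Fin m) (n : ℕ), d ≤ |x - (p j - 2 * n)|

/-- local data: the convexity bound, the lower bound on the right and the functional equation (from left
to right only on lines that stay away from the trivial zeros) -/
structure Loc {m : ℕ} (R d κ ℓ : ℝ) (p : Fin m → ℝ) (g : ℂ → ℂ) : Prop where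
  diff : Differentiable ℂ g
  cvx : ∀ u : ℂ, |u.re| ≤ R → |u.im| ≤ R → ‖g u‖ ≤ Real.exp (ℓ * (max |u.re| (1 / 2) - u.re) + κ * ℓ)
  low : ∀ u : ℂ, 1 / 2 + κ ≤ u.re → u.re ≤ R → |u.im| ≤ R → Real.exp (-(κ * ℓ)) ≤ ‖g u‖
  rup : ∀ x v : ℝ, κ ≤ x → x ≤ R → |v| ≤ R → ‖g ⟨-x, v⟩‖ ≤ Real.exp (2 * ℓ * x + κ * ℓ) * ‖g ⟨x, v⟩‖
  rlo : ∀ x v : ℝ, κ ≤ x → x ≤ R → |v| ≤ R → Good p d (-x) →
    ‖g ⟨x, v⟩‖ ≤ Real.exp (-(2 * ℓ * x) + κ * ℓ) * ‖g ⟨-x, v⟩‖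

/-- local data together with a slowly growing entire function `h` -/
structure Dat {m : ℕ} (R d κ ℓ : ℝ) (p : Fin m → ℝ) (g h : ℂ → ℂ) : Prop extends Loc R d κ ℓ p g where
  hdiff : Differentiable ℂ h
  hup : ∀ u : ℂ, |u.re| ≤ R → |u.im| ≤ R → ‖h u‖ ≤ Real.exp (κ * ℓ)

/-- the differential operator `Q(d/du)` with constant coefficients -/
noncomputable def Dop (Q : Polynomial ℂ) (g : ℂ → ℂ) (u : ℂ) : ℂ := Q.sum fun i c => c * iteratedDeriv i g u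

/-- the function whose zeros are counted -/
noncomputable def DD (Q : Polynomial ℂ) (g h : ℂ → ℂ) (u : ℂ) : ℂ := Dop Q g u - h u

/-- GRID: one of `m + 1` equidistant points is good -/
def S_GRID : Prop := ∀ (m : ℕ) (p : Fin m → ℝ) (a η : ℝ), 0 < η → (m + 1) * η ≤ 1 →
  ∃ i : ℕ, i ≤ m ∧ Good p (η / 2) (a + i * η)

/-- PG: a function with small `Q(d/du) g` is controlled by its values on a small disc (factor `Q` and solve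
the linear differential equations of first order) -/
def S_PG : Prop := ∀ (Q : Polynomial ℂ) (r1 r2 : ℝ), Q ≠ 0 → 0 < r1 → r1 ≤ r2 → ∃ C : ℝ, 1 ≤ C ∧
  ∀ (g : ℂ → ℂ) (b : ℂ) (S : Set ℂ) (B M : ℝ), Differentiable ℂ g → Convex ℝ S → closedBall b r1 ⊆ S →
    S ⊆ closedBall b r2 → (∀ u ∈ S, ‖Dop Q g u‖ ≤ B) → (∀ u ∈ closedBall b r1, ‖g u‖ ≤ M) →
    ∀ u ∈ S, ‖g u‖ ≤ C * (M + B)

/-- DM: few zeros give an upper bound (three circles theorem, the lower bound only at the centre) -/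
def S_DM : Prop := ∀ η0 η K0 : ℝ, 0 < η0 → η0 ≤ 1 / 20 → 0 < η → 0 < K0 → ∃ ε : ℝ, 0 < ε ∧
  ∀ (L r : ℝ) (c : ℂ) (F : ℂ → ℂ), 0 < L → 0 < r → Differentiable ℂ F →
    (∀ z ∈ closedBall c r, ‖F z‖ ≤ Real.exp (K0 * L)) →
    (∀ z ∈ closedBall c (7 / 10 * r), ‖F z‖ ≤ Real.exp (ε * L)) →
    Real.exp (-(ε * L)) ≤ ‖F c‖ →
    Cnt F (closedBall c ((1 - η0 / 4) * r)) (ε * L) →
    ∀ z ∈ closedBall c ((1 - η0) * r), ‖F z‖ ≤ Real.exp (η * L)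

/-- RB: the three lines theorem on rectangles of width in `[b0, 6]` -/
def S_RB : Prop := ∀ A b0 κ R1 : ℝ, 0 ≤ A → 0 < b0 → 0 < κ → 1 ≤ R1 →
  ∃ κ1 R : ℝ, 0 < κ1 ∧ R1 ≤ R ∧ ∀ (ℓ x0 b a0 a1 H : ℝ) (h : ℂ → ℂ), 0 ≤ ℓ → 0 < H → b0 ≤ b → b ≤ 6 →
    Differentiable ℂ h → |a0| ≤ A → |a1| ≤ A →
    (∀ u : ℂ, u.re = x0 → |u.im| ≤ R → ‖h u‖ ≤ H * Real.exp (ℓ * a0 + κ1 * ℓ)) →
    (∀ u : ℂ, u.re = x0 + b → |u.im| ≤ R → ‖h u‖ ≤ H * Real.exp (ℓ * a1 + κ1 * ℓ)) →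
    (∀ u : ℂ, x0 ≤ u.re → u.re ≤ x0 + b → |u.im| ≤ R → ‖h u‖ ≤ H * Real.exp (A * ℓ)) →
    ∀ u : ℂ, x0 ≤ u.re → u.re ≤ x0 + b → |u.im| ≤ R1 →
      ‖h u‖ ≤ H * Real.exp (ℓ * (a0 + (a1 - a0) * ((u.re - x0) / b)) + κ * ℓ)

/-- LB: lower bound for `DD` at some point of every disc on the left -/
def S_LB : Prop := ∀ (m : ℕ) (Q : Polynomial ℂ) (r κ' : ℝ), Q ≠ 0 → 0 < r → 0 < κ' → ∃ d κ ℓ0 : ℝ, 0 < d ∧ 0 < κ ∧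
  ∀ (ℓ R : ℝ) (p : Fin m → ℝ) (g h : ℂ → ℂ) (a : ℂ), ℓ0 ≤ ℓ → Dat R d κ ℓ p g h →
    a.re + r ≤ -(1 / 2) - κ' → -R ≤ a.re - r → |a.im| + r ≤ R →
    ∃ c : ℂ, ‖c - a‖ ≤ r ∧ Real.exp (2 * ℓ * |c.re| - κ' * ℓ) ≤ ‖DD Q g h c‖

/-- UPR: a bound on the line `Re u = ρ` gives a bound for `DD` on the left of `-ρ` -/
def S_UPR : Prop := ∀ (m : ℕ) (Q : Polynomial ℂ) (ρ δ κ' R1 : ℝ), 0 ≤ ρ → ρ ≤ 1 / 2 → 0 < δ → 0 < κ' → 1 ≤ R1 →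
  ∃ d κ R ℓ0 : ℝ, 0 < d ∧ 0 < κ ∧ R1 ≤ R ∧
  ∀ (ℓ : ℝ) (p : Fin m → ℝ) (g h : ℂ → ℂ), ℓ0 ≤ ℓ → Dat R d κ ℓ p g h →
    (∀ v : ℝ, |v| ≤ R → ‖g ⟨ρ, v⟩‖ ≤ Real.exp (κ * ℓ)) →
    ∀ u : ℂ, -R1 ≤ u.re → u.re ≤ -ρ - δ → |u.im| ≤ R1 →
      ‖DD Q g h u‖ ≤ Real.exp (2 * ℓ * |u.re| + κ' * ℓ)

/-- JN: Jensen's formula counts the zeros of `DD` on the left -/
def S_JN : Prop := ∀ (m : ℕ) (Q : Polynomial ℂ) (ρ δ ε R1 : ℝ), Q ≠ 0 → 0 ≤ ρ → ρ ≤ 1 / 2 → 0 < δ → δ ≤ 1 → 0 < ε → 1 ≤ R1 →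
  ∃ d κ R ℓ0 : ℝ, 0 < d ∧ 0 < κ ∧ R1 ≤ R ∧
  ∀ (ℓ : ℝ) (p : Fin m → ℝ) (g h : ℂ → ℂ), ℓ0 ≤ ℓ → Dat R d κ ℓ p g h →
    (∀ u : ℂ, -R ≤ u.re → u.re ≤ -ρ - δ / 2 → |u.im| ≤ R →
      ‖DD Q g h u‖ ≤ Real.exp (2 * ℓ * |u.re| + κ * ℓ)) →
    Cnt (DD Q g h) {z : ℂ | -R1 ≤ z.re ∧ z.re ≤ -ρ - δ ∧ |z.im| ≤ R1} (ε * ℓ)

/-- MX: few zeros of `DD` on the left of `-ρ` give the bound for `DD` there -/
def S_MX : Prop := ∀ (m : ℕ) (Q : Polynomial ℂ) (ρ δ κ' R1 : ℝ), Q ≠ 0 → 0 ≤ ρ → ρ ≤ 1 / 2 → 0 < δ → δ ≤ 1 → 0 < κ' → 1 ≤ R1 →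
  ∃ δ' d κ R ℓ0 : ℝ, 0 < δ' ∧ 0 < d ∧ 0 < κ ∧ R1 ≤ R ∧
  ∀ (ℓ : ℝ) (p : Fin m → ℝ) (g h : ℂ → ℂ), ℓ0 ≤ ℓ → Dat R d κ ℓ p g h →
    Cnt (DD Q g h) {z : ℂ | -R ≤ z.re ∧ z.re ≤ -ρ - δ' ∧ |z.im| ≤ R} (δ' * ℓ) →
    ∀ u : ℂ, -R1 ≤ u.re → u.re ≤ -ρ - δ → |u.im| ≤ R1 →
      ‖DD Q g h u‖ ≤ Real.exp (2 * ℓ * |u.re| + κ' * ℓ)

/-- S2: the bound for `DD` on the left of `-ρ` gives the bound for `g` at `ρ` -/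
def S_S2 : Prop := ∀ (m : ℕ) (Q : Polynomial ℂ) (ρ ε : ℝ), Q ≠ 0 → 0 ≤ ρ → ρ ≤ 1 / 2 → 0 < ε →
  ∃ δ κ' d κ R ℓ0 : ℝ, 0 < δ ∧ δ ≤ 1 ∧ 0 < κ' ∧ 0 < d ∧ 0 < κ ∧ 1 ≤ R ∧
  ∀ (ℓ : ℝ) (p : Fin m → ℝ) (g h : ℂ → ℂ), ℓ0 ≤ ℓ → Dat R d κ ℓ p g h →
    (∀ u : ℂ, -1 ≤ u.re → u.re ≤ -ρ - δ → |u.im| ≤ R →
      ‖DD Q g h u‖ ≤ Real.exp (2 * ℓ * |u.re| + κ' * ℓ)) →
    ‖g ρ‖ ≤ Real.exp (ε * ℓ)

/-- A: few zeros of `DD` on the left of `-ρ` give the bound for `g` at `ρ` -/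
def S_A : Prop := ∀ (m : ℕ) (Q : Polynomial ℂ) (ρ ε : ℝ), Q ≠ 0 → 0 ≤ ρ → ρ ≤ 1 / 2 → 0 < ε →
  ∃ δ d κ R ℓ0 : ℝ, 0 < δ ∧ 0 < d ∧ 0 < κ ∧ 1 ≤ R ∧
  ∀ (ℓ : ℝ) (p : Fin m → ℝ) (g h : ℂ → ℂ), ℓ0 ≤ ℓ → Dat R d κ ℓ p g h →
    Cnt (DD Q g h) {z : ℂ | -(3 / 2) ≤ z.re ∧ z.re ≤ -ρ - δ ∧ |z.im| ≤ R} (δ * ℓ) →
    ‖g ρ‖ ≤ Real.exp (ε * ℓ)

/-- B: the bound for `g` on the line `Re u = ρ` gives few zeros of `DD` on the left of `-ρ` -/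
def S_B : Prop := ∀ (m : ℕ) (Q : Polynomial ℂ) (ρ δ ε R1 : ℝ), Q ≠ 0 → 0 ≤ ρ → ρ ≤ 1 / 2 → 0 < δ → δ ≤ 1 → 0 < ε → 1 ≤ R1 →
  ∃ d κ R ℓ0 : ℝ, 0 < d ∧ 0 < κ ∧ R1 ≤ R ∧
  ∀ (ℓ : ℝ) (p : Fin m → ℝ) (g h : ℂ → ℂ), ℓ0 ≤ ℓ → Dat R d κ ℓ p g h →
    (∀ v : ℝ, |v| ≤ R → ‖g ⟨ρ, v⟩‖ ≤ Real.exp (κ * ℓ)) →
    Cnt (DD Q g h) {z : ℂ | -R1 ≤ z.re ∧ z.re ≤ -ρ - δ ∧ |z.im| ≤ R1} (ε * ℓ)

/-! ### easy facts -/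

lemma Good.mono {m : ℕ} {p : Fin m → ℝ} {d d' x : ℝ} (h : Good p d' x) (hd : d ≤ d') : Good p d x :=
  fun j n => hd.trans (h j n)

lemma Loc.mono {m : ℕ} {R R' d d' κ κ' ℓ : ℝ} {p : Fin m → ℝ} {g : ℂ → ℂ} (h : Loc R d κ ℓ p g)
    (hR : R' ≤ R) (hd : d ≤ d') (hκ : κ ≤ κ') (hℓ : 0 ≤ ℓ) : Loc R' d' κ' ℓ p g where
  diff := h.diff
  cvx := fun u h1 h2 => (h.cvx u (h1.trans hR) (h2.trans hR)).trans (Real.exp_le_exp.2 (by nlinarith))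
  low := fun u h1 h2 h3 => le_trans (Real.exp_le_exp.2 (by nlinarith))
    (h.low u (by linarith) (h2.trans hR) (h3.trans hR))
  rup := fun x v h1 h2 h3 => (h.rup x v (hκ.trans h1) (h2.trans hR) (h3.trans hR)).trans
    (mul_le_mul_of_nonneg_right (Real.exp_le_exp.2 (by nlinarith)) (norm_nonneg _))
  rlo := fun x v h1 h2 h3 h4 => (h.rlo x v (hκ.trans h1) (h2.trans hR) (h3.trans hR) (h4.mono hd)).trans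
    (mul_le_mul_of_nonneg_right (Real.exp_le_exp.2 (by nlinarith)) (norm_nonneg _))

/-- weaker parameters: smaller `R`, larger `d` and `κ` -/
lemma Dat.mono {m : ℕ} {R R' d d' κ κ' ℓ : ℝ} {p : Fin m → ℝ} {g h : ℂ → ℂ} (H : Dat R d κ ℓ p g h)
    (hR : R' ≤ R) (hd : d ≤ d') (hκ : κ ≤ κ') (hℓ : 0 ≤ ℓ) : Dat R' d' κ' ℓ p g h where
  toLoc := H.toLoc.mono hR hd hκ hℓ
  hdiff := H.hdiff
  hup := fun u h1 h2 => (H.hup u (h1.trans hR) (h2.trans hR)).trans (Real.exp_le_exp.2 (by nlinarith))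

/-- the convexity bound on the left -/
lemma Loc.left {m : ℕ} {R d κ ℓ : ℝ} {p : Fin m → ℝ} {g : ℂ → ℂ} (h : Loc R d κ ℓ p g) {u : ℂ}
    (h1 : |u.re| ≤ R) (h2 : |u.im| ≤ R) (h3 : u.re ≤ -(1 / 2)) :
    ‖g u‖ ≤ Real.exp (2 * ℓ * |u.re| + κ * ℓ) := by
  refine (h.cvx u h1 h2).trans (Real.exp_le_exp.2 (le_of_eq ?_))
  have e : |u.re| = -u.re := abs_of_nonpos (by linarith)
  rw [e, max_eq_left (by linarith)]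
  ring

/-- the convexity bound on the right -/
lemma Loc.right {m : ℕ} {R d κ ℓ : ℝ} {p : Fin m → ℝ} {g : ℂ → ℂ} (h : Loc R d κ ℓ p g) {u : ℂ}
    (h1 : |u.re| ≤ R) (h2 : |u.im| ≤ R) (h3 : 1 / 2 ≤ u.re) : ‖g u‖ ≤ Real.exp (κ * ℓ) := by
  refine (h.cvx u h1 h2).trans (Real.exp_le_exp.2 (le_of_eq ?_))
  have e : |u.re| = u.re := abs_of_nonneg (by linarith)
  rw [e, max_eq_left (by linarith)]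
  ring

lemma iter_diff {g : ℂ → ℂ} (hg : Differentiable ℂ g) (i : ℕ) : Differentiable ℂ (iteratedDeriv i g) :=
  (hg.contDiff (n := (i + 1 : ℕ))).differentiable_iteratedDeriv i (by exact_mod_cast Nat.lt_succ_self i)

lemma Dop_diff {g : ℂ → ℂ} (hg : Differentiable ℂ g) (Q : Polynomial ℂ) : Differentiable ℂ (Dop Q g) := by
  unfold Dop Polynomial.sum
  exact Differentiable.fun_sum fun i _ => (iter_diff hg i).const_mul _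

lemma DD_diff {m : ℕ} {R d κ ℓ : ℝ} {p : Fin m → ℝ} {g h : ℂ → ℂ} (H : Dat R d κ ℓ p g h)
    (Q : Polynomial ℂ) : Differentiable ℂ (DD Q g h) := (Dop_diff H.diff Q).sub H.hdiff

end Pool.Agent.T3h43.SL
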