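import Pool.Agent.W169.HF.Gam
import Pool.Agent.W169.HF.Fam4
import Pool.Agent.T3h43.SL.Stm

/-!
# Project SL (helper43): gamma factors on both sides, and the local data of an L-function

`ℓ = (1/2) log C(y)`, `p j = Re μ_j - 1/2`.
-/

set_option autoImplicit false

open Complex Metric Set

namespace Pool.Agent.T3h43.SL

open Pool.Agent.W169.HF H353.E H353.F

/-- the normalising factor of `gam_inv`, `gam_up` -/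
noncomputable def GG {m : ℕ} (N : ℝ) (μ : Fin m → ℂ) (y : ℝ) : ℝ :=
  ‖gaf N μ (3 / 2 + y * I)‖ * Real.exp (-(gaD N μ (3 / 2 + y * I)).re)

/-- GINV: the inverse gamma factor on both sides of the critical line -/
def S_GINV : Prop := ∀ (m : ℕ) (R : ℝ), 1 ≤ m → 1 ≤ R → ∃ C : ℝ, ∀ (N : ℝ) (μ : Fin m → ℂ) (y : ℝ) (u : ℂ),
  1 ≤ N → (∀ j, (μ j).re ≤ 1 / 2) → |u.re| ≤ R → |u.im| ≤ R →
    ‖(gaf N μ (1 / 2 + (y : ℂ) * I + u))⁻¹‖ ≤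
      (GG N μ y)⁻¹ * Real.exp (-(1 / 2 * Real.log (cnd N μ y) * u.re) + C)

/-- GUP: the gamma factor away from its poles -/
def S_GUP : Prop := ∀ (m : ℕ) (R d : ℝ), 1 ≤ m → 1 ≤ R → 0 < d → d ≤ 1 → ∃ C : ℝ,
  ∀ (N : ℝ) (μ : Fin m → ℂ) (y : ℝ) (u : ℂ), 1 ≤ N → (∀ j, (μ j).re ≤ 1 / 2) → |u.re| ≤ R → |u.im| ≤ R →
    Good (fun j => (μ j).re - 1 / 2) d u.re → gaf N μ (1 / 2 + (y : ℂ) * I + u) ≠ 0 ∧
    ‖gaf N μ (1 / 2 + (y : ℂ) * I + u)‖ ≤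
      GG N μ y * Real.exp (1 / 2 * Real.log (cnd N μ y) * u.re + C)

/-- LOC: standard L-functions give local data -/
def S_LOC : Prop := ∀ (m : ℕ) (R d κ : ℝ), 1 ≤ m → 1 ≤ R → 0 < d → d ≤ 1 → 0 < κ → ∃ C0 : ℝ,
  ∀ (N : ℝ) (μ : Fin m → ℂ) (α : Fin m → ℕ → ℂ) (e : ℂ) (Λ : ℂ → ℂ), Std N μ α e Λ → ∀ y : ℝ,
    C0 ≤ cnd N μ y →
    Loc R d κ (1 / 2 * Real.log (cnd N μ y)) (fun j => (μ j).re - 1 / 2)
      (fun u => LL μ Λ (1 / 2 + (y : ℂ) * I + u))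

end Pool.Agent.T3h43.SL
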