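import Pool.Agent.T3h43.SL.Stm

/-!
# Project SL: a bound on the line `Re u = ρ` gives a bound for `DD` on the left of `-ρ`
-/

set_option autoImplicit false

open Complex Metric Set

namespace Pool.Agent.T3h43.SL

open Pool.Agent.W169.HF (S_RECT)

/-- Cauchy estimate -/
lemma cauchy_Q (Q : Polynomial ℂ) {r : ℝ} (hr : 0 < r) : ∃ C : ℝ, 0 ≤ C ∧ ∀ (g : ℂ → ℂ) (u : ℂ) (M : ℝ),
    Differentiable ℂ g → (∀ z ∈ sphere u r, ‖g z‖ ≤ M) → ‖Dop Q g u‖ ≤ C * M := by
  refine ⟨∑ i ∈ Q.support, ‖Q.coeff i‖ * (i.factorial / r ^ i), by positivity, ?_⟩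
  intro g u M hg h
  unfold Dop Polynomial.sum
  rw [Finset.sum_mul]
  refine (norm_sum_le _ _).trans (Finset.sum_le_sum fun i _ => ?_)
  have h1 := Complex.norm_iteratedDeriv_le_of_forall_mem_sphere_norm_le i hr hg.diffContOnCl h
  rw [norm_mul]
  refine (mul_le_mul_of_nonneg_left h1 (norm_nonneg _)).trans (le_of_eq ?_)
  ring

theorem t_UPR (h : S_RECT) : S_UPR := by
  intro m Q ρ δ κ' R1 hρ0 hρ1 hδ hκ' hR1
  obtain ⟨κ1, Ra, hκ1, hRa, HA⟩ := h 3 (1 - ρ) (κ' / 8) (R1 + 1) (by norm_num) (by linarith) (by linarith)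
    (by positivity) (by linarith)
  obtain ⟨r, hr⟩ : ∃ r : ℝ, r = min (min (δ / 2) (κ' / 8)) 1 := ⟨_, rfl⟩
  have hr0 : 0 < r := by rw [hr]; exact lt_min (lt_min (by positivity) (by positivity)) one_pos
  have hrδ : r ≤ δ / 2 := by rw [hr]; exact (min_le_left _ _).trans (min_le_left _ _)
  have hrκ : r ≤ κ' / 8 := by rw [hr]; exact (min_le_left _ _).trans (min_le_right _ _)
  have hr1 : r ≤ 1 := by rw [hr]; exact min_le_right _ _
  obtain ⟨q, hq⟩ : ∃ q : ℝ, q = min (min (κ1 / 2) (κ' / 8)) (min (δ / 2) 1) := ⟨_, rfl⟩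
  have hq0 : 0 < q := by
    rw [hq]
    exact lt_min (lt_min (by positivity) (by positivity)) (lt_min (by positivity) one_pos)
  have hq1 : q ≤ κ1 / 2 := by rw [hq]; exact (min_le_left _ _).trans (min_le_left _ _)
  have hq2 : q ≤ κ' / 8 := by rw [hq]; exact (min_le_left _ _).trans (min_le_right _ _)
  have hq3 : q ≤ δ / 2 := by rw [hq]; exact (min_le_right _ _).trans (min_le_left _ _)
  have hq4 : q ≤ 1 := by rw [hq]; exact (min_le_right _ _).trans (min_le_right _ _)
  obtain ⟨C, hC0, hC⟩ := cauchy_Q Q hr0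
  refine ⟨1, q, Ra + R1 + 2, 8 * Real.log (C + 1) / κ' + 1, one_pos, hq0, by linarith, ?_⟩
  intro ℓ p g h hℓ H hline u hu1 hu2 hu3
  have hlog : 0 ≤ Real.log (C + 1) := Real.log_nonneg (by linarith)
  have hℓ1 : 1 ≤ ℓ := by
    have : 0 ≤ 8 * Real.log (C + 1) / κ' := by positivity
    linarith
  have hℓ0 : 0 < ℓ := by linarith
  have hCe : C + 1 ≤ Real.exp (κ' / 8 * ℓ) := by
    rw [← Real.exp_log (by linarith : 0 < C + 1)]
    apply Real.exp_le_exp.2
    have h1 : 8 * Real.log (C + 1) / κ' ≤ ℓ := by linarith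
    rw [div_le_iff₀ hκ'] at h1
    linarith
  -- the strip
  have hstrip : ∀ w : ℂ, ρ ≤ w.re → w.re ≤ Ra + R1 + 2 → |w.im| ≤ R1 + 1 →
      ‖g w‖ ≤ Real.exp (κ' / 8 * ℓ) := by
    intro w a1 a2 a3
    rcases le_total w.re 1 with a4 | a4
    · have key := HA ℓ ρ 0 0 1 g hℓ0.le one_pos H.diff (by simp) (by simp)
        (fun z b1 b2 => by
          have e : z = ⟨ρ, z.im⟩ := by
            apply Complex.ext
            · exact b1
            · rfl
          rw [e, one_mul]
          refine (hline z.im (by linarith)).trans (Real.exp_le_exp.2 ?_)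
          nlinarith)
        (fun z b1 b2 => by
          rw [one_mul]
          refine (H.toLoc.right (by rw [b1, abs_of_pos (by linarith)]; linarith) (by linarith)
            (by rw [b1]; linarith)).trans (Real.exp_le_exp.2 ?_)
          nlinarith)
        (fun z b1 b2 b3 => by
          rw [one_mul]
          have b4 : |z.re| ≤ 1 := by
            rw [abs_le]
            constructor <;> linarith
          refine (H.cvx z (by linarith) (by linarith)).trans (Real.exp_le_exp.2 ?_)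
          have b5 : max |z.re| (1 / 2) ≤ 1 := max_le b4 (by norm_num)
          have b6 : ℓ * (max |z.re| (1 / 2) - z.re) ≤ ℓ * 1 :=
            mul_le_mul_of_nonneg_left (by linarith) hℓ0.le
          nlinarith)
        w a1 (by linarith) a3
      refine key.trans (le_of_eq ?_)
      rw [one_mul]
      congr 1
      ring
    · refine (H.toLoc.right (by rw [abs_of_pos (by linarith)]; linarith) (by linarith)
        (by linarith)).trans (Real.exp_le_exp.2 ?_)
      nlinarith
  -- the left side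
  have hleft : ∀ w : ℂ, -(R1 + 1) ≤ w.re → w.re ≤ -ρ - δ / 2 → |w.im| ≤ R1 + 1 →
      ‖g w‖ ≤ Real.exp (2 * ℓ * -w.re + κ' / 4 * ℓ) := by
    intro w a1 a2 a3
    have e : w = ⟨-(-w.re), w.im⟩ := by
      apply Complex.ext
      · simp
      · rfl
    have a4 := H.rup (-w.re) w.im (by linarith) (by linarith) (by linarith)
    rw [← e] at a4
    have a5 := hstrip ⟨-w.re, w.im⟩ (by simp only; linarith) (by simp only; linarith) a3
    refine a4.trans ?_
    calc Real.exp (2 * ℓ * -w.re + q * ℓ) * ‖g ⟨-w.re, w.im⟩‖ ≤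
        Real.exp (2 * ℓ * -w.re + q * ℓ) * Real.exp (κ' / 8 * ℓ) :=
          mul_le_mul_of_nonneg_left a5 (Real.exp_pos _).le
      _ = Real.exp (2 * ℓ * -w.re + q * ℓ + κ' / 8 * ℓ) := by rw [← Real.exp_add]
      _ ≤ _ := by
        apply Real.exp_le_exp.2
        nlinarith
  have hder : ‖Dop Q g u‖ ≤ C * Real.exp (2 * ℓ * |u.re| + κ' / 2 * ℓ) := by
    refine hC g u _ H.diff fun z hz => ?_
    rw [mem_sphere, dist_eq_norm] at hz
    have b1 := Complex.abs_re_le_norm (z - u)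
    have b2 := Complex.abs_im_le_norm (z - u)
    rw [hz, sub_re, abs_le] at b1
    rw [hz, sub_im] at b2
    have b3 : |z.im| ≤ R1 + 1 := by
      have := abs_sub_abs_le_abs_sub z.im u.im
      linarith
    refine (hleft z (by linarith [b1.1]) (by linarith [b1.2]) b3).trans (Real.exp_le_exp.2 ?_)
    have b4 : |u.re| = -u.re := abs_of_nonpos (by linarith)
    rw [b4]
    have b5 : -z.re ≤ -u.re + κ' / 8 := by linarith [b1.1]
    nlinarith
  have hh := H.hup u (by rw [abs_le]; constructor <;> linarith) (by linarith)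
  unfold DD
  refine (norm_sub_le _ _).trans ?_
  have b6 : Real.exp (q * ℓ) ≤ Real.exp (2 * ℓ * |u.re| + κ' / 2 * ℓ) := by
    apply Real.exp_le_exp.2
    have : 0 ≤ 2 * ℓ * |u.re| := by positivity
    nlinarith
  calc ‖Dop Q g u‖ + ‖h u‖ ≤ (C + 1) * Real.exp (2 * ℓ * |u.re| + κ' / 2 * ℓ) := by linarith
    _ ≤ Real.exp (κ' / 8 * ℓ) * Real.exp (2 * ℓ * |u.re| + κ' / 2 * ℓ) :=
        mul_le_mul_of_nonneg_right hCe (Real.exp_pos _).le
    _ = Real.exp (κ' / 8 * ℓ + (2 * ℓ * |u.re| + κ' / 2 * ℓ)) := by rw [← Real.exp_add]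
    _ ≤ _ := by
      apply Real.exp_le_exp.2
      nlinarith

end Pool.Agent.T3h43.SL
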